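import Mathlib
import Pool.Agent.Lib.MP_3b7f8d_lc.Defs

/-! The two-phase shadow-vertex simplex method of Spielman and Teng. -/

namespace Pool.Agent.Lib.MP_3b7f8d_lc.ST

open MeasureTheory

variable {n m : ℕ}

/-- The subsets of the `m` rows that have `n` elements. -/
abbrev Sub (m n : ℕ) := {I : Finset (Fin m) // I.card = n}

/-- The combination of the rows of `I`, in increasing order, with coefficients `u`. -/
noncomputable def comb (r : Fin m → Row n) (I : Sub m n) (u : Fin n → ℝ) : Fin n → ℝ :=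
  ∑ l, u l • (r (I.1.orderEmbOfFin I.2 l)).1

/-- The smallest singular value of the square matrix of the rows of `I`. -/
noncomputable def smin (r : Fin m → Row n) (I : Sub m n) : ℝ :=
  ⨅ u : {u : Fin n → ℝ // u ⬝ᵥ u = 1}, √(comb r I u ⬝ᵥ comb r I u)

/-- The number `M`: four times the largest Euclidean norm of a row with its right-hand side,
rounded up to a power of two. -/
noncomputable def bigM (r : Fin m → Row n) : ℝ :=
  2 ^ (⌈Real.logb 2 (⨆ i, √((r i).1 ⬝ᵥ (r i).1 + (r i).2 ^ 2))⌉ + 2)

/-- The number `κ`: the smallest singular value rounded down to a power of two. -/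
noncomputable def kap (r : Fin m → Row n) (I : Sub m n) : ℝ := 2 ^ ⌊Real.logb 2 (smin r I)⌋

/-- The relaxed right-hand sides. -/
noncomputable def yp (r : Fin m → Row n) (I : Sub m n) (i : Fin m) : ℝ :=
  if i ∈ I.1 then bigM r else √n * bigM r ^ 2 / (4 * kap r I)

/-- The program of phase one. -/
noncomputable def lp1 (r : Fin m → Row n) (I : Sub m n) (i : Fin m) : Row n := ((r i).1, yp r I i)

/-- The program of phase two, in the variables `(x₀, x)`. -/
noncomputable def lp2 (r : Fin m → Row n) (I : Sub m n) : Bool ⊕ Fin m → Row (n + 1)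
  | .inl s => (Fin.cons (if s then 1 else -1) 0, 1)
  | .inr i => (Fin.cons ((yp r I i - (r i).2) / 2) (r i).1, (yp r I i + (r i).2) / 2)

/-- States: a basis of phase one or a basis of phase two. -/
abbrev State (m : ℕ) := Finset (Fin m) ⊕ Finset (Bool ⊕ Fin m)

/-- One step: a shadow-vertex pivot, or the passage from phase one to phase two. -/
inductive Step (r : Fin m → Row n) (I : Sub m n) (t c : Fin n → ℝ) (ζ : ℝ) :
    State m → State m → Prop
  | one (B : Finset (Fin m)) (i j : Fin m) (d x : Fin n → ℝ) : Leaves (lp1 r I) t c B i d →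
      0 < (lp1 r I j).1 ⬝ᵥ d → IsBFS (lp1 r I) Finset.univ (insert j (B.erase i)) x →
      Step r I t c ζ (.inl B) (.inl (insert j (B.erase i)))
  | switch (B : Finset (Fin m)) (y : Fin m → ℝ) : IsDual (lp1 r I) B c y →
      Step r I t c ζ (.inl B) (.inr (Finset.disjSum {false} B))
  | two (B : Finset (Bool ⊕ Fin m)) (i j : Bool ⊕ Fin m) (d x : Fin (n + 1) → ℝ) :
      Leaves (lp2 r I) (Fin.cons (-1) (ζ • c)) (Fin.cons 1 0) B i d →
      0 < (lp2 r I j).1 ⬝ᵥ d → IsBFS (lp2 r I) Finset.univ (insert j (B.erase i)) x →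
      Step r I t c ζ (.inr B) (.inr (insert j (B.erase i)))

/-- The stopping rules. -/
inductive Stops (r : Fin m → Row n) (I : Sub m n) (t c : Fin n → ℝ) : State m → Answer n → Prop
  | unbounded (B : Finset (Fin m)) (i : Fin m) (d : Fin n → ℝ) : Leaves (lp1 r I) t c B i d →
      (∀ j, (lp1 r I j).1 ⬝ᵥ d ≤ 0) → Stops r I t c (.inl B) .unbounded
  | infeasible (B : Finset (Bool ⊕ Fin m)) (x : Fin (n + 1) → ℝ) (y : Bool ⊕ Fin m → ℝ) :
      IsBFS (lp2 r I) Finset.univ B x → IsDual (lp2 r I) B (Fin.cons 1 0) y → x 0 < 1 →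
      Stops r I t c (.inr B) .infeasible
  | optimal (B : Finset (Bool ⊕ Fin m)) (x : Fin (n + 1) → ℝ) (y : Bool ⊕ Fin m → ℝ) :
      IsBFS (lp2 r I) Finset.univ B x → IsDual (lp2 r I) B (Fin.cons 1 0) y → x 0 = 1 →
      Stops r I t c (.inr B) (.optimal (Fin.tail x))

/-- The answer is right; the answer `unbounded` of phase one means unbounded or infeasible. -/
def Right (r : Fin m → Row n) (c : Fin n → ℝ) (a : Answer n) : Prop :=
  Correct r c a ∨ a = .unbounded ∧ Correct r c .infeasible

/-- Every execution from the state `s` stops after at most `N` steps with a right answer. -/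
inductive Halts (r : Fin m → Row n) (I : Sub m n) (t c : Fin n → ℝ) (ζ : ℝ) :
    State m → ℕ → Prop
  | stop (s : State m) (N : ℕ) : (∃ a, Stops r I t c s a) →
      (∀ a, Stops r I t c s a → Right r c a) → Halts r I t c ζ s N
  | step (s : State m) (N : ℕ) : (¬ ∃ a, Stops r I t c s a) → (∃ s', Step r I t c ζ s s') →
      (∀ s', Step r I t c ζ s s' → Halts r I t c ζ s' N) → Halts r I t c ζ s (N + 1)

/-- The pyramid with apex `0` over the simplex `∑ α = 1`, `α l ≥ 1 / n ^ 2`. -/
def pyr (n : ℕ) : Set (Fin n → ℝ) := {a | (∀ l, (∑ l', a l') / n ^ 2 ≤ a l) ∧ ∑ l, a l ≤ 1}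

/-- The uniform law on the simplex: the radial projection of the uniform law on the pyramid. -/
noncomputable def simplexLaw (n : ℕ) : Measure (Fin n → ℝ) :=
  (ProbabilityTheory.cond volume (pyr n)).map fun a => (∑ l, a l)⁻¹ • a

end Pool.Agent.Lib.MP_3b7f8d_lc.ST
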