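import Mathlib
import Pool.Agent.Lib.MP_3b7f8d_lc.DD.Law
import Pool.Agent.Lib.MP_3b7f8d_lc.ST.Defs

/-! Notions of the analysis of the method of Spielman and Teng. -/

namespace Pool.Agent.Lib.MP_3b7f8d_lc.ST

open Finset MeasureTheory
open scoped ENNReal

variable {n m : ℕ}

/-- The rows of `I` are well conditioned, in the maximum norms. -/
def Sm (κ : ℝ) (r : Fin m → Row n) (I : Sub m n) : Prop := ∀ u, κ * ‖u‖ ≤ ‖comb r I u‖

theorem continuous_comb (I : Sub m n) :
    Continuous fun p : (Fin m → Row n) × (Fin n → ℝ) => comb p.1 I p.2 := by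
  unfold comb
  fun_prop

theorem isClosed_sm (κ : ℝ) (I : Sub m n) : IsClosed {r : Fin m → Row n | Sm κ r I} := by
  simp only [Sm, Set.ofPred_forall]
  exact isClosed_iInter fun u => isClosed_le continuous_const
    ((continuous_comb I).comp (continuous_id.prodMk continuous_const)).norm

/-- The normalised right-hand sides. -/
def bet (I : Sub m n) (η : ℝ) (i : Fin m) : ℝ := if i ∈ I.1 then η else 1

/-- The normalised program of phase one. -/
def sys1 (I : Sub m n) (η : ℝ) (r : Fin m → Row n) (i : Fin m) : Row n := ((r i).1, bet I η i)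

/-- The normalised program of phase two. -/
def sys2 (I : Sub m n) (η : ℝ) (r : Fin m → Row n) (i : Fin m) : Row (n + 1) :=
  (Fin.cons (r i).2 (r i).1, bet I η i)

/-- The ratio of the two relaxed right-hand sides. -/
noncomputable def eta (r : Fin m → Row n) (I : Sub m n) : ℝ := 4 * kap r I / (√n * bigM r)

/-- The number of bases on the path of phase one. -/
noncomputable def cnt1 (I : Sub m n) (η : ℝ) (c : Fin n → ℝ) (r : Fin m → Row n)
    (α : Fin n → ℝ) : ℕ := {B | OnPath (sys1 I η r) univ (comb r I α) c B}.ncard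

/-- The number of bases on the shadow of phase two. -/
noncomputable def cnt2 (I : Sub m n) (η : ℝ) (c : Fin n → ℝ) (r : Fin m → Row n) : ℕ :=
  {B | FP.InShadow (sys2 I η r) (Fin.cons 1 0) (Fin.cons 0 c) B}.ncard

/-- Local resampling of a row of law `ν` whose slack is small. -/
def Res (ν ν' : Measure (Row n)) (g δ ε : ℝ) : Prop :=
  ∀ (x : Fin n → ℝ) (F V : Row n → ℝ≥0∞), Measurable F → Measurable V →
    (∀ ρ, F ρ ≠ 0 → |ρ.2 - ρ.1 ⬝ᵥ x| ≤ g * ‖x‖ * (1 + ‖ρ‖)) →
    (∀ ρ ρ' : Row n, ‖ρ' - ρ‖ ≤ δ → F ρ ≤ V ρ') →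
    ∫⁻ ρ, F ρ ∂ν ≤ ENNReal.ofReal ε * ∫⁻ ρ, V ρ ∂ν'

end Pool.Agent.Lib.MP_3b7f8d_lc.ST
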