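import Mathlib
import Pool.Agent.Lib.MP_3b7f8d_lc.ST.Base
import Pool.Agent.Lib.MP_3b7f8d_lc.FQ.Ev

/-! The events of the analysis of phase one. -/

namespace Pool.Agent.Lib.MP_3b7f8d_lc.ST

open Finset MeasureTheory
open scoped ENNReal

variable {n m : ℕ}

/-- The enlarged pyramid. -/
def pyrS (n : ℕ) (s : ℝ) : Set (Fin n → ℝ) :=
  {a | (∀ l, (∑ l', a l') / n ^ 2 - s ≤ a l) ∧ ∑ l, a l ≤ 1 + n * s}

/-- Well conditioned rows and coefficients in the enlarged pyramid. -/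
def evO (I : Sub m n) (κ s : ℝ) : Set ((Fin m → Row n) × (Fin n → ℝ)) :=
  {p | Sm κ p.1 I ∧ p.2 ∈ pyrS n s}

/-- `B` is on the path. -/
def evP (I : Sub m n) (c : Fin n → ℝ) (κ s : ℝ) (S B : Finset (Fin m)) :
    Set ((Fin m → Row n) × (Fin n → ℝ)) :=
  evO I κ s ∩ {p | OnPath p.1 S (comb p.1 I p.2) c B}

/-- `B` is on the path with large normalised multipliers. -/
def evM (I : Sub m n) (c : Fin n → ℝ) (κ s μ : ℝ) (S B : Finset (Fin m)) :
    Set ((Fin m → Row n) × (Fin n → ℝ)) :=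
  evO I κ s ∩ {p | (∃ x, IsBFS p.1 S B x) ∧ ∃ t : ℝ, ∃ y : Fin m → ℝ, 0 ≤ t ∧
    (∀ i ∈ B, μ ≤ y i * (1 + ‖p.1 i‖)) ∧ comb p.1 I p.2 + t • c = ∑ i ∈ B, y i • (p.1 i).1}

/-- `B` is on the path and row `k` has a small normalised slack. -/
def evB (I : Sub m n) (c : Fin n → ℝ) (κ s g : ℝ) (S B : Finset (Fin m)) (k : Fin m) :
    Set ((Fin m → Row n) × (Fin n → ℝ)) :=
  evO I κ s ∩ {p | (∃ x, IsBFS p.1 S B x ∧
    (p.1 k).2 - (p.1 k).1 ⬝ᵥ x ≤ g * ‖x‖ * (1 + ‖p.1 k‖)) ∧ OnDual p.1 (comb p.1 I p.2) c B}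

/-- `B` is a good basis. -/
def evG (I : Sub m n) (c : Fin n → ℝ) (κ s μ g : ℝ) (S B : Finset (Fin m)) :
    Set ((Fin m → Row n) × (Fin n → ℝ)) :=
  evM I c κ s μ S B \ ⋃ k ∈ S \ B, evB I c κ s g S B k

theorem isClosed_pyrS (s : ℝ) : IsClosed (pyrS n s) := by
  refine IsClosed.and ?_ (isClosed_le (by fun_prop) (by fun_prop))
  simp only [Set.ofPred_forall]
  exact isClosed_iInter fun l => isClosed_le (by fun_prop) (by fun_prop)

theorem pyrS_zero : pyrS n 0 = pyr n := by simp [pyrS, pyr]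

variable (I : Sub m n) (c : Fin n → ℝ) (κ s μ g : ℝ) (S B : Finset (Fin m)) (k : Fin m)

theorem meas_evO : MeasurableSet (evO I κ s) :=
  (((isClosed_sm κ I).preimage continuous_fst).inter
    ((isClosed_pyrS s).preimage continuous_snd)).measurableSet

theorem meas_dual : MeasurableSet
    {p : (Fin m → Row n) × (Fin n → ℝ) | OnDual p.1 (comb p.1 I p.2) c B} :=
  measurableSet_mult continuous_fst (continuous_comb I) continuous_const
    (μ := fun _ => 0) continuous_const B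

theorem meas_path : MeasurableSet
    {p : (Fin m → Row n) × (Fin n → ℝ) | OnPath p.1 S (comb p.1 I p.2) c B} :=
  (measurable_fst (FP.meas_prim S B)).inter (meas_dual I c B)

theorem meas_evP : MeasurableSet (evP I c κ s S B) := (meas_evO I κ s).inter (meas_path I c S B)

theorem meas_evM : MeasurableSet (evM I c κ s μ S B) := by
  refine (meas_evO I κ s).inter ((measurable_fst (FP.meas_prim S B)).inter ?_)
  have hc := continuous_comb I
  have h := measurableSet_exists (X := (Fin m → Row n) × (Fin n → ℝ)) (Y := ℝ × (Fin m → ℝ))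
    (C := fun p q => 0 ≤ q.1 ∧ (∀ i ∈ B, μ ≤ q.2 i * (1 + ‖p.1 i‖)) ∧
      comb p.1 I p.2 + q.1 • c = ∑ i ∈ B, q.2 i • (p.1 i).1) (by
      refine IsClosed.and ?_ (IsClosed.and (isClosed_ball fun i => ?_) ?_)
      · exact isClosed_le (by fun_prop) (by fun_prop)
      · exact isClosed_le (by fun_prop) (by fun_prop)
      · exact isClosed_eq ((hc.comp continuous_fst).add (by fun_prop)) (by fun_prop))
  simp only [Prod.exists] at h
  exact h

theorem meas_evB : MeasurableSet (evB I c κ s g S B k) :=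
  (meas_evO I κ s).inter ((measurableSet_bfs continuous_fst S B
    (C := fun p x => (p.1 k).2 - (p.1 k).1 ⬝ᵥ x ≤ g * ‖x‖ * (1 + ‖p.1 k‖))
    (isClosed_le (by fun_prop) (by fun_prop))).inter (meas_dual I c B))

theorem meas_evG : MeasurableSet (evG I c κ s μ g S B) :=
  (meas_evM I c κ s μ S B).diff (Finset.measurableSet_biUnion _ fun k _ => meas_evB I c κ s g S B k)

end Pool.Agent.Lib.MP_3b7f8d_lc.ST
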