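import Mathlib
import Pool.Agent.Lib.MP_3b7f8d_lc.ST.Base

/-! Outside a rare event, a quarter of the sets of `n` rows are well conditioned. -/

namespace Pool.Agent.Lib.MP_3b7f8d_lc.ST

open Finset MeasureTheory
open scoped ENNReal

variable {n m : ℕ}

/-- The row `j` is close to the span of the rows of `K`. -/
def ManyClose (h : ℝ) (r : Fin m → Row n) (K : Finset (Fin m)) (j : Fin m) : Prop :=
  ∃ c : Fin m → ℝ, ‖(r j).1 - ∑ k ∈ K, c k • (r k).1‖ ≤ h

theorem many_meas (h : ℝ) (K T : Finset (Fin m)) :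
    MeasurableSet {r : Fin m → Row n | ∀ j ∈ T, ManyClose h r K j} := by
  have e : {r : Fin m → Row n | ∀ j ∈ T, ManyClose h r K j} =
      ⋂ j ∈ T, {r | ManyClose h r K j} := by
    ext r
    simp
  rw [e]
  exact Finset.measurableSet_biInter T fun j _ =>
    measurableSet_exists (isClosed_le (by fun_prop) (by fun_prop))

theorem many_update {h : ℝ} {r : Fin m → Row n} {K : Finset (Fin m)} {j j' : Fin m} (ρ : Row n)
    (hj : j ∉ K) (hj' : j' ≠ j) : ManyClose h (Function.update r j ρ) K j' ↔ ManyClose h r K j' := by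
  unfold ManyClose
  refine exists_congr fun c => ?_
  rw [Function.update_of_ne hj', sum_congr rfl fun k hk => by
    rw [Function.update_of_ne (ne_of_mem_of_not_mem hk hj)]]

theorem many_prob {ν : Fin m → Measure (Row n)} [∀ i, IsProbabilityMeasure (ν i)] {U h : ℝ}
    (hν : ∀ i, FP.RowOK (ν i) U) (hh : 0 ≤ h) {K : Finset (Fin m)} (hK : K.card + 1 ≤ n)
    (T : Finset (Fin m)) (hT : ∀ j ∈ T, j ∉ K) :
    Measure.pi ν {r | ∀ j ∈ T, ManyClose h r K j} ≤ ENNReal.ofReal (U * h) ^ T.card := by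
  classical
  induction T using Finset.induction_on with
  | empty => simp
  | insert j T hj ih =>
    have hjK := hT j (mem_insert_self _ _)
    rw [card_insert_of_notMem hj, pow_succ']
    refine (pi_le_of_update ν j (many_meas h K _) (many_meas h K T) fun r => ?_).trans
      (mul_le_mul_right (ih fun i hi => hT i (mem_insert_of_mem hi)) _)
    simp only [Set.mem_ofPred_eq]
    by_cases hr : ∀ i ∈ T, ManyClose h r K i
    · rw [Set.eq_univ_of_forall (s := {ρ | ∀ i ∈ T, ManyClose h (Function.update r j ρ) K i})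
        fun ρ i hi => (many_update ρ hjK (ne_of_mem_of_not_mem hi hj)).2 (hr i hi), measure_univ,
        mul_one]
      have h1 := (hν j).dist 1 (Submodule.span ℝ (K.image fun l => (r l).1)) h hh (by
        have h2 := finrank_span_finset_le_card (R := ℝ) (K.image fun l => (r l).1)
        have h3 := card_image_le (s := K) (f := fun l => (r l).1)
        rw [Set.finrank] at h2
        omega)
      rw [pow_one] at h1
      refine le_trans (measure_mono fun ρ hρ => ?_) h1
      obtain ⟨c, hc⟩ := hρ j (mem_insert_self _ _)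
      rw [Function.update_self] at hc
      refine ⟨_, Submodule.sum_mem _ fun l hl => Submodule.smul_mem _ _ ?_, hc⟩
      rw [Function.update_of_ne (ne_of_mem_of_not_mem hl hjK)]
      exact Submodule.subset_span (mem_coe.2 (mem_image_of_mem _ hl))
    · refine le_of_eq_of_le (measure_mono_null (fun ρ hρ => hr fun i hi => ?_) measure_empty)
        zero_le
      exact (many_update ρ hjK (ne_of_mem_of_not_mem hi hj)).1 (hρ i (mem_insert_of_mem hi))

theorem many_heavy {ν : Measure (Row n)} {U : ℝ} (hν : FP.RowOK ν U) (hU : 0 < U) :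
    ν {ρ | U ^ 10 ≤ ‖ρ‖} ≤ ENNReal.ofReal (1 / U ^ 9) := by
  have h1 := meas_ge_le_lintegral_div (μ := ν) (f := fun ρ => ENNReal.ofReal ‖ρ‖) (by fun_prop)
    (ε := ENNReal.ofReal (U ^ 10)) (by simp; positivity) ENNReal.ofReal_ne_top
  refine le_trans (measure_mono fun ρ hρ => ENNReal.ofReal_le_ofReal hρ) (h1.trans ?_)
  refine (ENNReal.div_le_div_right hν.mom _).trans (le_of_eq ?_)
  rw [← ENNReal.ofReal_div_of_pos (by positivity)]
  congr 1
  field_simp

theorem many_pow {a c : ℝ} (hc : 1 ≤ c) {e k N : ℕ} (ha : 0 ≤ a) (h : a ≤ (1 / c) ^ e)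
    (hk : N ≤ e * k) : c ^ N * a ^ k ≤ 1 := by
  have := FP.pow_aux (n := N) (m := 1) hc le_rfl ha (by simpa using h) hk
  simpa using this

theorem many_one {c : ℕ} {p : ℝ≥0∞} {x : ℝ} (h : p ≤ ENNReal.ofReal x) (hx : c * x ≤ 1) :
    (c : ℝ≥0∞) * p ≤ 1 := by
  refine (mul_le_mul_right h _).trans ?_
  rw [← ENNReal.ofReal_natCast, ← ENNReal.ofReal_mul (by positivity)]
  exact ENNReal.ofReal_le_one.2 hx

theorem many_coef {κ : ℝ} (hκ : 0 ≤ κ) (hn : 1 ≤ n) {r : Fin m → Row n} {I : Sub m n}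
    (h : ¬ Sm κ r I) : ∃ c : Fin m → ℝ, ∃ i ∈ I.1, c i = 1 ∧ ‖∑ k ∈ I.1, c k • (r k).1‖ ≤ κ := by
  classical
  simp only [Sm, not_forall, not_le] at h
  obtain ⟨u, hu⟩ := h
  have : Nonempty (Fin n) := ⟨⟨0, hn⟩⟩
  obtain ⟨l, hl⟩ := Finite.exists_max fun l => |u l|
  have h1 : ‖u‖ ≤ |u l| := (pi_norm_le_iff_of_nonneg (abs_nonneg _)).2 hl
  have h2 : ‖comb r I u‖ < κ * |u l| := hu.trans_le (by gcongr)
  have h3 : 0 < |u l| := by
    by_contra h4
    have := norm_nonneg (comb r I u)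
    nlinarith [abs_nonneg (u l)]
  have hi := (I.1.orderEmbOfFin I.2).injective
  refine ⟨Function.extend (I.1.orderEmbOfFin I.2) (fun k => (u l)⁻¹ * u k) 0,
    I.1.orderEmbOfFin I.2 l, orderEmbOfFin_mem _ _ _, ?_, ?_⟩
  · rw [hi.extend_apply, inv_mul_cancel₀ (abs_pos.1 h3)]
  · have h4 : ∑ k ∈ I.1, Function.extend (I.1.orderEmbOfFin I.2) (fun k => (u l)⁻¹ * u k) 0 k •
        (r k).1 = (u l)⁻¹ • comb r I u := by
      refine (sum_congr (image_orderEmbOfFin_univ I.1 I.2).symm fun _ _ => rfl).trans ?_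
      rw [sum_image fun _ _ _ _ h => hi h, comb, smul_sum]
      exact sum_congr rfl fun k _ => by rw [hi.extend_apply, mul_smul]
    rw [h4, norm_smul, norm_inv, Real.norm_eq_abs, inv_mul_le_iff₀ h3, mul_comm]
    exact h2.le

theorem many_close {κ θ h : ℝ} (hθ : 0 < θ) (hh : 0 ≤ h) (hκ : κ ≤ θ * h) {r : Fin m → Row n}
    {B : Finset (Fin m)} {c : Fin m → ℝ} (hc : ‖∑ k ∈ B, c k • (r k).1‖ ≤ κ) {i : Fin m}
    (hi : i ∈ B) (h1 : θ ≤ |c i|) : ManyClose h r (B.erase i) i := by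
  have h2 : 0 < |c i| := hθ.trans_le h1
  refine ⟨fun k => -((c i)⁻¹ * c k), ?_⟩
  have h3 : (r i).1 - ∑ k ∈ B.erase i, -((c i)⁻¹ * c k) • (r k).1 =
      (c i)⁻¹ • ∑ k ∈ B, c k • (r k).1 := by
    rw [← add_sum_erase B _ hi, smul_add, smul_smul, inv_mul_cancel₀ (abs_pos.1 h2), one_smul,
      smul_sum, sub_eq_add_neg, ← sum_neg_distrib]
    congr 1
    exact sum_congr rfl fun k _ => by rw [neg_smul, neg_neg, mul_smul]
  rw [h3, norm_smul, norm_inv, Real.norm_eq_abs, inv_mul_le_iff₀ h2]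
  exact hc.trans (hκ.trans (by gcongr))

theorem many_near {κ θ M ε : ℝ} (hθ : 0 ≤ θ) {r : Fin m → Row n} {B Z : Finset (Fin m)}
    {c : Fin m → ℝ} (hc : ‖∑ k ∈ B, c k • (r k).1‖ ≤ κ) {i : Fin m} (hi : i ∈ B) (h1 : c i = 1)
    (hZ : Z ⊆ B.erase i) (h2 : ∀ k ∈ Z, |c k| ≤ θ ∧ ‖r k‖ ≤ M) (hε : κ + Z.card * (θ * M) ≤ ε) :
    FP.Near ε r 0 0 B i Z := by
  refine ⟨fun k => -c k, 0, 0, ?_⟩
  have h3 : (r i).1 - ((0 : ℝ) • (0 : Fin n → ℝ) + (0 : ℝ) • 0 +
      ∑ k ∈ B.erase i \ Z, -c k • (r k).1) =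
      ∑ k ∈ B, c k • (r k).1 - ∑ k ∈ Z, c k • (r k).1 := by
    rw [← add_sum_erase B _ hi, h1, one_smul, ← sum_sdiff hZ]
    simp only [neg_smul, sum_neg_distrib, smul_zero]
    abel
  rw [h3]
  refine (norm_sub_le _ _).trans (le_trans (add_le_add hc ((norm_sum_le _ _).trans ?_)) hε)
  rw [← nsmul_eq_mul]
  refine sum_le_card_nsmul _ _ _ fun k hk => ?_
  rw [norm_smul, Real.norm_eq_abs]
  exact mul_le_mul (h2 k hk).1 ((norm_fst_le _).trans (h2 k hk).2) (norm_nonneg _) hθ

open Classical in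
theorem many_pairs {U : ℝ} (hn : 24 ≤ n) (hU : (n : ℝ) + 1 ≤ U) {r : Fin m → Row n}
    (h1 : ∀ J : Finset (Fin m), J.card = n / 8 + 1 → ¬ ∀ i ∈ J, U ^ 10 ≤ ‖r i‖) {I : Sub m n}
    (h2 : ∀ i ∈ I.1, ∀ Z ⊆ I.1.erase i, Z.card = n / 8 + 2 → ¬ FP.Near (1 / U ^ 17) r 0 0 I.1 i Z)
    (h : ¬ Sm (1 / U ^ 35) r I) :
    n - n / 3 ≤ (I.1.filter fun i => ManyClose (1 / U ^ 6) r (I.1.erase i) i).card := by
  have hn1 : (24 : ℝ) ≤ n := by exact_mod_cast hn
  have hU1 : 25 ≤ U := by linarith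
  have hU2 : ∀ k, 1 ≤ U ^ k := fun k => one_le_pow₀ (by linarith)
  obtain ⟨c, i, hi, hc1, hc⟩ := many_coef (by positivity) (by omega) h
  have h3 : (I.1.filter fun k => 1 / U ^ 29 ≤ |c k|).card ≤
      (I.1.filter fun i => ManyClose (1 / U ^ 6) r (I.1.erase i) i).card :=
    card_le_card fun k hk => mem_filter.2 ⟨(mem_filter.1 hk).1, many_close (θ := 1 / U ^ 29)
      (by positivity) (by positivity) (le_of_eq (by field_simp)) hc (mem_filter.1 hk).1
      (mem_filter.1 hk).2⟩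
  have h4 := card_filter_add_card_filter_not (s := I.1) fun k => 1 / U ^ 29 ≤ |c k|
  set S := I.1.filter fun k => ¬ 1 / U ^ 29 ≤ |c k| with hS
  have h5 := card_filter_add_card_filter_not (s := S) fun k => U ^ 10 ≤ ‖r k‖
  have h6 : (S.filter fun k => U ^ 10 ≤ ‖r k‖).card ≤ n / 8 := by
    by_contra h7
    obtain ⟨J, hJ, hJc⟩ := exists_subset_card_eq (s := S.filter fun k => U ^ 10 ≤ ‖r k‖)
      (n := n / 8 + 1) (by omega)
    exact h1 J hJc fun k hk => (mem_filter.1 (hJ hk)).2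
  have h7 : (S.filter fun k => ¬ U ^ 10 ≤ ‖r k‖).card ≤ n / 8 + 1 := by
    by_contra h8
    obtain ⟨Z, hZ, hZc⟩ := exists_subset_card_eq (s := S.filter fun k => ¬ U ^ 10 ≤ ‖r k‖)
      (n := n / 8 + 2) (by omega)
    have h9 : Z ⊆ I.1.erase i := fun k hk => by
      have h10 := mem_filter.1 (mem_filter.1 (hZ hk)).1
      refine mem_erase.2 ⟨?_, h10.1⟩
      rintro rfl
      exact h10.2 (by rw [hc1, abs_one]; exact (div_le_one (by positivity)).2 (hU2 _))
    refine h2 i hi Z h9 hZc (many_near (θ := 1 / U ^ 29) (M := U ^ 10) (by positivity) hc hi hc1 h9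
      (fun k hk => ⟨(not_le.1 (mem_filter.1 (mem_filter.1 (hZ hk)).1).2).le,
        (not_le.1 (mem_filter.1 (hZ hk)).2).le⟩) ?_)
    have h10 : (Z.card : ℝ) ≤ n := by exact_mod_cast (by omega : Z.card ≤ n)
    calc _ ≤ 1 / U ^ 19 + n * (1 / U ^ 29 * U ^ 10) := by
          gcongr
          · linarith
          · norm_num
      _ = (n + 1) * (1 / U ^ 19) := by field_simp; ring
      _ ≤ U ^ 2 * (1 / U ^ 19) := by gcongr; nlinarith
      _ = _ := by field_simp
  have := I.2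
  omega

open Classical in
theorem many_count {h : ℝ} (hn : 1 ≤ n) {r : Fin m → Row n} {D : Finset (Sub m n)}
    (h1 : ∀ I ∈ D, n - n / 3 ≤ (I.1.filter fun i => ManyClose h r (I.1.erase i) i).card)
    (h2 : ∀ K : Finset (Fin m), K.card = n - 1 → ∀ T ⊆ Kᶜ, T.card = (m - (n - 1)) / 2 + 1 →
      ¬ ∀ j ∈ T, ManyClose h r K j) : 4 * D.card ≤ 3 * m.choose n := by
  have h3 : (D.sigma fun I => I.1.filter fun i => ManyClose h r (I.1.erase i) i).card ≤
      ((univ.powersetCard (n - 1)).sigma fun K : Finset (Fin m) =>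
        Kᶜ.filter fun j => ManyClose h r K j).card := by
    refine card_le_card_of_injOn (fun p => ⟨p.1.1.erase p.2, p.2⟩) ?_ ?_
    · rintro ⟨I, i⟩ hp
      obtain ⟨-, h4⟩ := mem_sigma.1 hp
      obtain ⟨h4, h5⟩ := mem_filter.1 h4
      exact mem_sigma.2 ⟨mem_powersetCard.2 ⟨subset_univ _, by rw [card_erase_of_mem h4, I.2]⟩,
        mem_filter.2 ⟨mem_compl.2 (notMem_erase _ _), h5⟩⟩
    · rintro ⟨I, i⟩ hp ⟨I', i'⟩ hp' e
      have h4 := (mem_filter.1 (mem_sigma.1 hp).2).1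
      have h5 := (mem_filter.1 (mem_sigma.1 hp').2).1
      obtain ⟨e1, e2⟩ := Sigma.mk.inj e
      obtain rfl : i = i' := eq_of_heq e2
      obtain rfl : I = I' := Subtype.ext (by
        rw [← insert_erase h4, ← insert_erase h5]
        exact congrArg _ e1)
      rfl
  rw [card_sigma, card_sigma] at h3
  have h4 := card_nsmul_le_sum D _ _ h1
  have h5 := sum_le_card_nsmul (univ.powersetCard (n - 1))
    (fun K : Finset (Fin m) => (Kᶜ.filter fun j => ManyClose h r K j).card) ((m - (n - 1)) / 2)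
    fun K hK => by
      by_contra h6
      obtain ⟨T, hT, hTc⟩ := exists_subset_card_eq (s := Kᶜ.filter fun j => ManyClose h r K j)
        (n := (m - (n - 1)) / 2 + 1) (by omega)
      exact h2 K (mem_powersetCard.1 hK).2 T (hT.trans (filter_subset _ _)) hTc
        fun j hj => (mem_filter.1 (hT hj)).2
  rw [card_powersetCard, card_univ, Fintype.card_fin] at h5
  have h6 := Nat.choose_succ_right_eq m (n - 1)
  rw [Nat.sub_add_cancel hn] at h6
  have h7 := (h4.trans h3).trans h5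
  simp only [smul_eq_mul] at h7
  have h8 : 2 * n ≤ 3 * (n - n / 3) := by omega
  have h9 : 2 * ((m - (n - 1)) / 2) ≤ m - (n - 1) := by omega
  refine Nat.le_of_mul_le_mul_right ?_ hn
  calc 4 * D.card * n = 2 * D.card * (2 * n) := by ring
    _ ≤ 2 * D.card * (3 * (n - n / 3)) := by gcongr
    _ = 6 * (D.card * (n - n / 3)) := by ring
    _ ≤ 6 * (m.choose (n - 1) * ((m - (n - 1)) / 2)) := by gcongr
    _ = 3 * (m.choose (n - 1) * (2 * ((m - (n - 1)) / 2))) := by ring
    _ ≤ 3 * (m.choose (n - 1) * (m - (n - 1))) := by gcongr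
    _ = _ := by rw [← h6]; ring

theorem many_card (k l : ℕ) (h : m.choose k = m.choose l) :
    (((univ : Finset (Fin m)).powersetCard k).card : ℝ) ≤ m ^ l := by
  rw [card_powersetCard, card_univ, Fintype.card_fin, h]
  exact_mod_cast Nat.choose_le_pow m l

open Classical in
theorem many {ν : Fin m → Measure (Row n)} [∀ i, IsProbabilityMeasure (ν i)] {U : ℝ}
    (hν : ∀ i, FP.RowOK (ν i) U) (hn : 24 ≤ n) (hm : n ≤ m) (hU : 8 * (m : ℝ) ≤ U) :
    ∃ X : Set (Fin m → Row n), MeasurableSet X ∧ (m.choose n : ℝ≥0∞) * Measure.pi ν X ≤ 3 ∧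
      ∀ r ∉ X, 4 * (univ.filter fun I : Sub m n => ¬ Sm (1 / U ^ 35) r I).card ≤
        3 * m.choose n := by
  have hn1 : (24 : ℝ) ≤ n := by exact_mod_cast hn
  have hm1 : (n : ℝ) ≤ m := by exact_mod_cast hm
  have hm2 : (1 : ℝ) ≤ m := by linarith
  have hU1 : 1 ≤ U := by linarith
  have hU2 : 1 / U ≤ 1 / (2 * m) := by gcongr; linarith
  have hc : (m.choose n : ℝ) ≤ m ^ n := by exact_mod_cast Nat.choose_le_pow m n
  set q := m - (n - 1) with hq
  refine ⟨(⋃ J ∈ univ.powersetCard (n / 8 + 1), {r | ∀ i ∈ J, r i ∈ {ρ | U ^ 10 ≤ ‖ρ‖}}) ∪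
    ((⋃ B ∈ univ.powersetCard n, ⋃ i ∈ B, ⋃ Z ∈ (B.erase i).powersetCard (n / 8 + 2),
      {r | FP.Near (1 / U ^ 17) r 0 0 B i Z}) ∪
    ⋃ K ∈ univ.powersetCard (n - 1), ⋃ T ∈ Kᶜ.powersetCard (q / 2 + 1),
      {r | ∀ j ∈ T, ManyClose (1 / U ^ 6) r K j}), ?_, ?_, fun r hr => ?_⟩
  · refine (Finset.measurableSet_biUnion _ fun J _ => ?_).union
      ((Finset.measurableSet_biUnion _ fun B _ => Finset.measurableSet_biUnion _ fun i _ =>
        Finset.measurableSet_biUnion _ fun Z _ => FP.meas_near _ _ _ _ _ _).union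
      (Finset.measurableSet_biUnion _ fun K _ => Finset.measurableSet_biUnion _ fun T _ =>
        many_meas _ _ _))
    exact (isClosed_ball fun i => isClosed_le (f := fun _ => U ^ 10)
      (g := fun r : Fin m → Row n => ‖r i‖) (by fun_prop) (by fun_prop)).measurableSet
  · refine (mul_le_mul_right ((measure_union_le _ _).trans (add_le_add_right
      (measure_union_le _ _) _)) _).trans ?_
    rw [mul_add, mul_add, show (3 : ℝ≥0∞) = 1 + (1 + 1) by norm_num]
    refine add_le_add (many_one (FP.biUnion_le _ _ (x := (1 / U ^ 9) ^ (n / 8 + 1)) (by positivity)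
      (many_card _ _ rfl) fun J hJ => ?_) ?_) (add_le_add (many_one (FP.biUnion_le _ _
        (by positivity) (many_card _ _ rfl) fun B hB => FP.biUnion_le _ _ (c := 2 ^ n)
        (by positivity) ?_ fun i hi => FP.biUnion_le _ _ (by positivity)
        (FP.card_pc (n := n) (card_erase_le.trans (mem_powersetCard.1 hB).2.le) _) fun Z hZ =>
        FP.prob_near hν (k := n / 8 + 1) (ε := 1 / U ^ 17) (by positivity) 0 0
          (mem_powersetCard.1 hB).2 hi (mem_powersetCard.1 hZ).1 (mem_powersetCard.1 hZ).2) ?_)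
      (many_one (FP.biUnion_le _ _ (by positivity)
        (many_card _ q (Nat.choose_symm (by omega)).symm) fun K hK => FP.biUnion_le _ _
        (x := (U * (1 / U ^ 6)) ^ (q / 2 + 1)) (by positivity) (FP.card_pc (n := q) ?_ _)
        fun T hT => ?_) ?_))
    · rw [ENNReal.ofReal_pow (by positivity), ← (mem_powersetCard.1 hJ).2]
      exact FP.pi_forall_le ν J _ fun i _ => many_heavy (hν i) (by linarith)
    · rw [← mul_pow]
      refine (mul_le_mul_of_nonneg_right hc (by positivity)).trans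
        (many_pow (e := 8) hm2 (by positivity) ?_ (by omega))
      calc _ ≤ U * (1 / U ^ 9) := by gcongr; linarith
        _ = (1 / U) ^ 8 := by field_simp
        _ ≤ _ := by gcongr; linarith
    · rw [(mem_powersetCard.1 hB).2]
      exact_mod_cast Nat.lt_two_pow_self.le
    · refine (mul_le_mul_of_nonneg_right hc (by positivity)).trans ?_
      rw [← mul_assoc, ← mul_assoc, ← mul_assoc, ← mul_pow, ← mul_pow, ← mul_pow]
      refine many_pow (e := 8) (by nlinarith) (by positivity) ?_ (by omega)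
      calc _ = ((1 / U) ^ 2) ^ 8 := by field_simp
        _ ≤ ((1 / (2 * m)) ^ 2) ^ 8 := by gcongr
        _ = _ := by congr 1; field_simp
    · rw [card_compl, Fintype.card_fin, (mem_powersetCard.1 hK).2]
    · rw [ENNReal.ofReal_pow (by positivity), ← (mem_powersetCard.1 hT).2]
      exact many_prob hν (by positivity) (by rw [(mem_powersetCard.1 hK).2]; omega) T
        fun j hj => mem_compl.1 ((mem_powersetCard.1 hT).1 hj)
    · have hc' : (m.choose n : ℝ) ≤ m ^ q := by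
        rw [← Nat.choose_symm hm]
        exact le_trans (by exact_mod_cast Nat.choose_le_pow m (m - n))
          (pow_le_pow_right₀ hm2 (by omega))
      refine (mul_le_mul_of_nonneg_right hc' (by positivity)).trans ?_
      rw [← mul_assoc, ← mul_assoc, ← mul_pow, ← mul_pow]
      refine many_pow (e := 2) (by nlinarith) (by positivity) ?_ (by omega)
      calc _ = 1 / U * ((1 / U) ^ 2) ^ 2 := by field_simp
        _ ≤ 1 * ((1 / (2 * m)) ^ 2) ^ 2 := by
          gcongr
          exact (div_le_one (by linarith)).2 hU1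
        _ = (1 / (m * m * 4)) ^ 2 := by field_simp; ring
        _ ≤ _ := by gcongr; norm_num
  · simp only [Set.mem_union, Set.mem_iUnion, not_or, not_exists, Set.mem_ofPred_eq,
      mem_powersetCard] at hr
    obtain ⟨h1, h2, h3⟩ := hr
    exact many_count (h := 1 / U ^ 6) (by omega) (fun I hI => many_pairs hn (by linarith)
      (fun J hJ => h1 J ⟨subset_univ _, hJ⟩)
      (fun i hi Z hZ hZc => h2 I.1 ⟨subset_univ _, I.2⟩ i hi Z ⟨hZ, hZc⟩) (mem_filter.1 hI).2)
      fun K hK T hT hTc => h3 K ⟨subset_univ _, hK⟩ T ⟨hT, hTc⟩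

end Pool.Agent.Lib.MP_3b7f8d_lc.ST
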