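import Mathlib
import Pool.Agent.Lib.MP_3b7f8d_lc.Limit
import Pool.Agent.Lib.MP_3b7f8d_lc.ST.Ev
import Pool.Agent.Lib.MP_3b7f8d_lc.ST.Many

/-! Measurability and crude bounds of the counts; the exceptional event. -/

namespace Pool.Agent.Lib.MP_3b7f8d_lc.ST

open Finset MeasureTheory
open scoped ENNReal

variable {n m : ℕ}

theorem cnt_meas_ncard {Ω β : Type} [MeasurableSpace Ω] [Fintype β] {F : β → Set Ω}
    (hF : ∀ B, MeasurableSet (F B)) : Measurable fun p => {B | p ∈ F B}.ncard := by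
  simp only [ncard_eq_sum F]
  exact Finset.measurable_sum _ fun B _ => measurable_one.indicator (hF B)

theorem cnt_cast_ncard {Ω β : Type} [Fintype β] (F : β → Set Ω) (p : Ω) :
    (({B | p ∈ F B}.ncard : ℕ) : ℝ≥0∞) = ∑ B, (F B).indicator 1 p := by
  rw [ncard_eq_sum F]
  push_cast
  refine sum_congr rfl fun B _ => ?_
  by_cases h : p ∈ F B <;> simp [h]

theorem cnt_lintegral_ncard {Ω β : Type} [MeasurableSpace Ω] [Fintype β] (P : Measure Ω)
    {F : β → Set Ω} (hF : ∀ B, MeasurableSet (F B)) :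
    ∫⁻ p, (({B | p ∈ F B}.ncard : ℕ) : ℝ≥0∞) ∂P = ∑ B, P (F B) := by
  simp only [cnt_cast_ncard F, ← lintegral_indicator_one (hF _)]
  exact lintegral_finsetSum _ fun B _ => measurable_one.indicator (hF B)

theorem cnt_meas_sys1 (I : Sub m n) (η : ℝ) : Measurable (sys1 I η) :=
  measurable_pi_iff.2 fun i => (measurable_fst.comp (measurable_pi_apply i)).prodMk measurable_const

theorem cnt_meas_sys2 (I : Sub m n) (η : ℝ) : Measurable (sys2 I η) := by
  refine measurable_pi_iff.2 fun i => Measurable.prodMk (measurable_pi_iff.2 fun l => ?_)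
    measurable_const
  refine Fin.cases ?_ (fun l => ?_) l
  · exact measurable_snd.comp (measurable_pi_apply i)
  · exact (measurable_pi_apply l).comp (measurable_fst.comp (measurable_pi_apply i))

theorem meas_cnt1 (I : Sub m n) (η : ℝ) (c : Fin n → ℝ) :
    Measurable fun p : (Fin m → Row n) × (Fin n → ℝ) => cnt1 I η c p.1 p.2 := by
  have h1 : Measurable fun p : (Fin m → Row n) × (Fin n → ℝ) => (sys1 I η p.1, p.2) :=
    ((cnt_meas_sys1 I η).comp measurable_fst).prodMk measurable_snd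
  exact cnt_meas_ncard (F := fun B => {p : (Fin m → Row n) × (Fin n → ℝ) |
    OnPath (sys1 I η p.1) univ (comb p.1 I p.2) c B}) fun B => h1 (meas_path I c univ B)

theorem meas_cnt2 (I : Sub m n) (η : ℝ) (c : Fin n → ℝ) : Measurable (cnt2 I η c) :=
  (cnt_meas_ncard fun B => FP.meas_shadow (Fin.cons 1 0) (Fin.cons 0 c) B).comp (cnt_meas_sys2 I η)

theorem cnt_ncard_le {k : ℕ} {S : Set (Finset (Fin m))} (h : ∀ B ∈ S, B.card = k) :
    S.ncard ≤ m.choose k := by
  have h1 : S ⊆ ↑(powersetCard k (univ : Finset (Fin m))) := fun B hB =>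
    mem_coe.2 (mem_powersetCard.2 ⟨subset_univ _, h B hB⟩)
  have h2 := Set.ncard_le_ncard h1 (finite_toSet _)
  rwa [Set.ncard_coe_finset, card_powersetCard, card_univ, Fintype.card_fin] at h2

theorem cnt_le (I : Sub m n) (η : ℝ) (c : Fin n → ℝ) (r : Fin m → Row n) (α : Fin n → ℝ) :
    2 * cnt1 I η c r α + cnt2 I η c r + 2 ≤ (m + 4) * m.choose n := by
  have h1 : cnt1 I η c r α ≤ m.choose n := cnt_ncard_le fun B ⟨⟨_, hx⟩, _⟩ => hx.2.1
  have h2 : cnt2 I η c r ≤ m.choose (n + 1) := cnt_ncard_le fun B ⟨⟨_, hx⟩, _⟩ => hx.2.1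
  have h3 : 0 < m.choose n := Nat.choose_pos (by
    have := card_le_univ I.1
    rwa [I.2, Fintype.card_fin] at this)
  have h4 : m.choose (n + 1) ≤ m * m.choose n := by
    calc m.choose (n + 1) ≤ m.choose (n + 1) * (n + 1) := Nat.le_mul_of_pos_right _ n.succ_pos
      _ = m.choose n * (m - n) := Nat.choose_succ_right_eq m n
      _ ≤ m.choose n * m := Nat.mul_le_mul_left _ (Nat.sub_le _ _)
      _ = _ := mul_comm _ _
  rw [add_mul]
  omega

theorem cnt_pow_le (hn : 24 ≤ n) (hm : n ≤ m) {N b : ℕ} (hN : 3 * m * n * Real.log m ≤ N)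
    (hb : 4 * b ≤ 3 * m.choose n) : m.choose n * b ^ N ≤ m.choose n ^ N := by
  have hm1 : (24 : ℝ) ≤ m := by exact_mod_cast hn.trans hm
  have hm0 : (0 : ℝ) < m := by linarith
  have hl : 0 ≤ (n : ℝ) * Real.log m := mul_nonneg n.cast_nonneg (Real.log_nonneg (by linarith))
  have h1 : (m.choose n : ℝ) ≤ Real.exp (n * Real.log m) := by
    rw [Real.exp_nat_mul, Real.exp_log hm0]
    exact_mod_cast Nat.choose_le_pow m n
  have h2 : (3 / 4 : ℝ) ^ N ≤ Real.exp (N * (-(1 / 4))) := by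
    rw [Real.exp_nat_mul]
    exact pow_le_pow_left₀ (by norm_num) (by linarith [Real.add_one_le_exp (-(1 / 4) : ℝ)]) N
  have h3 : (m.choose n : ℝ) * (3 / 4) ^ N ≤ 1 := by
    refine (mul_le_mul h1 h2 (by positivity) (Real.exp_pos _).le).trans ?_
    rw [← Real.exp_add, Real.exp_le_one_iff]
    nlinarith
  have h4 : (b : ℝ) ≤ 3 / 4 * m.choose n := by
    have : (4 : ℝ) * b ≤ 3 * m.choose n := by exact_mod_cast hb
    linarith
  have h5 : (b : ℝ) ^ N ≤ (3 / 4) ^ N * (m.choose n : ℝ) ^ N := by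
    rw [← mul_pow]
    exact pow_le_pow_left₀ b.cast_nonneg h4 N
  have h6 : (m.choose n : ℝ) * (b : ℝ) ^ N ≤ (m.choose n : ℝ) ^ N := by
    refine (mul_le_mul_of_nonneg_left h5 (by positivity)).trans ?_
    rw [← mul_assoc]
    exact mul_le_of_le_one_left (by positivity) h3
  exact_mod_cast h6

theorem cnt_big {ν : Fin m → Measure (Row n)} [∀ i, IsProbabilityMeasure (ν i)] {U : ℝ}
    (hν : ∀ i, FP.RowOK (ν i) U) (hU1 : 1 ≤ U) (hU : (m : ℝ) ≤ U) :
    (m.choose n : ℝ≥0∞) * Measure.pi ν {r | 2 * U ^ 2 * 2 ^ m ≤ FP.al r} ≤ 1 := by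
  have h0 : (0 : ℝ) < 2 * U ^ 2 := by positivity
  have hal : Measurable fun r : Fin m → Row n => ENNReal.ofReal (FP.al r) := by
    unfold FP.al
    fun_prop
  have h1 := (mul_meas_ge_le_lintegral₀ (μ := Measure.pi ν) hal.aemeasurable
    (ENNReal.ofReal (2 * U ^ 2 * 2 ^ m))).trans (FP.lintegral_al hν hU1 hU)
  have h2 : {r : Fin m → Row n | 2 * U ^ 2 * 2 ^ m ≤ FP.al r} ⊆
      {r | ENNReal.ofReal (2 * U ^ 2 * 2 ^ m) ≤ ENNReal.ofReal (FP.al r)} :=
    fun r hr => ENNReal.ofReal_le_ofReal hr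
  have h3 : (m.choose n : ℝ≥0∞) ≤ ENNReal.ofReal (2 ^ m) := by
    rw [← ENNReal.ofReal_natCast]
    exact ENNReal.ofReal_le_ofReal (by exact_mod_cast Nat.choose_le_two_pow m n)
  refine (mul_le_mul' h3 (measure_mono h2)).trans ?_
  nth_rewrite 1 [ENNReal.ofReal_mul h0.le] at h1
  rw [mul_assoc] at h1
  refine (ENNReal.mul_le_mul_iff_right (a := ENNReal.ofReal (2 * U ^ 2))
    (ENNReal.ofReal_pos.2 h0).ne' ENNReal.ofReal_ne_top).1 ?_
  rwa [mul_one]

theorem exc_bound {ν : Fin m → Measure (Row n)} [∀ i, IsProbabilityMeasure (ν i)] {U : ℝ}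
    (hν : ∀ i, FP.RowOK (ν i) U) (hn : 24 ≤ n) (hm : n ≤ m) (hU : 8 * (m : ℝ) ≤ U) {N : ℕ}
    (hN : 3 * m * n * Real.log m ≤ N) :
    ∑ J : Fin N → Sub m n, (m.choose n : ℝ≥0∞) * Measure.pi ν
      {r | (∀ j, ¬ Sm (1 / U ^ 35) r (J j)) ∨ 2 * U ^ 2 * 2 ^ m ≤ FP.al r} ≤
      5 * Fintype.card (Fin N → Sub m n) := by
  classical
  obtain ⟨X, hX, hX3, hXb⟩ := many hν hn hm hU
  have hm1 : (24 : ℝ) ≤ m := by exact_mod_cast hn.trans hm
  have hbig := cnt_big (n := n) hν (by linarith) (by linarith)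
  let E : (Fin N → Sub m n) → Set (Fin m → Row n) := fun J =>
    (⋂ j, {r | Sm (1 / U ^ 35) r (J j)}ᶜ) \ X
  have hE : ∀ J, MeasurableSet (E J) := fun J =>
    (MeasurableSet.iInter fun j => (isClosed_sm _ _).measurableSet.compl).diff hX
  have hcard : Fintype.card (Fin N → Sub m n) = m.choose n ^ N := by
    rw [Fintype.card_fun, Fintype.card_finset_len, Fintype.card_fin, Fintype.card_fin]
  have h1 : ∀ r, m.choose n * {J | r ∈ E J}.ncard ≤ m.choose n ^ N := by
    intro r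
    by_cases hr : r ∈ X
    · have : {J | r ∈ E J} = ∅ := Set.eq_empty_of_forall_notMem fun J hJ => hJ.2 hr
      rw [this, Set.ncard_empty, mul_zero]
      exact Nat.zero_le _
    · refine le_trans (Nat.mul_le_mul_left _ ?_) (cnt_pow_le hn hm hN (hXb r hr))
      have h2 : {J | r ∈ E J} ⊆ ↑(Fintype.piFinset fun _ : Fin N =>
          univ.filter fun I : Sub m n => ¬ Sm (1 / U ^ 35) r I) := fun J hJ =>
        mem_coe.2 (Fintype.mem_piFinset.2 fun j =>
          mem_filter.2 ⟨mem_univ _, Set.mem_iInter.1 hJ.1 j⟩)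
      have h3 := Set.ncard_le_ncard h2 (finite_toSet _)
      rwa [Set.ncard_coe_finset, Fintype.card_piFinset_const] at h3
  have h2 : (m.choose n : ℝ≥0∞) * ∑ J, Measure.pi ν (E J) ≤ Fintype.card (Fin N → Sub m n) := by
    rw [← cnt_lintegral_ncard _ hE, ← lintegral_const_mul' _ _ (ENNReal.natCast_ne_top _), hcard]
    refine (lintegral_mono (g := fun _ => ((m.choose n ^ N : ℕ) : ℝ≥0∞)) fun r => ?_).trans (by simp)
    exact (Nat.cast_mul _ _).symm.le.trans (Nat.cast_le.2 (h1 r))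
  calc _ ≤ ∑ J : Fin N → Sub m n, (3 + 1 + (m.choose n : ℝ≥0∞) * Measure.pi ν (E J)) := by
        refine sum_le_sum fun J _ => ?_
        have h3 : {r | (∀ j, ¬ Sm (1 / U ^ 35) r (J j)) ∨ 2 * U ^ 2 * 2 ^ m ≤ FP.al r} ⊆
            X ∪ {r | 2 * U ^ 2 * 2 ^ m ≤ FP.al r} ∪ E J := by
          rintro r (hr | hr)
          · by_cases h : r ∈ X
            · exact .inl (.inl h)
            · exact .inr ⟨Set.mem_iInter.2 hr, h⟩
          · exact .inl (.inr hr)
        refine (mul_le_mul' le_rfl ((measure_mono h3).trans ((measure_union_le _ _).trans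
          (add_le_add (measure_union_le _ _) le_rfl)))).trans ?_
        rw [mul_add, mul_add]
        exact add_le_add (add_le_add hX3 hbig) le_rfl
    _ ≤ _ := by
        rw [sum_add_distrib, ← mul_sum, sum_const, card_univ, nsmul_eq_mul]
        refine (add_le_add le_rfl h2).trans (le_of_eq ?_)
        ring

end Pool.Agent.Lib.MP_3b7f8d_lc.ST
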