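import Mathlib
import Pool.Agent.Lib.MP_3b7f8d_lc.ST.Base

/-! The laws of the auxiliary objective and of the normalised programs. -/

namespace Pool.Agent.Lib.MP_3b7f8d_lc.ST

open Finset MeasureTheory
open scoped ENNReal

variable {n m : ℕ}

theorem law_sum_nonneg (hn : 2 ≤ n) {a : Fin n → ℝ} (ha : a ∈ pyr n) : 0 ≤ ∑ l, a l := by
  have h1 := sum_le_sum (s := univ) fun l _ => ha.1 l
  rw [sum_const, card_univ, Fintype.card_fin, nsmul_eq_mul] at h1
  have h2 : (2 : ℝ) ≤ n := by exact_mod_cast hn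
  have h3 : (n : ℝ) * ((∑ l, a l) / n ^ 2) = (∑ l, a l) / n := by
    field_simp
  rw [h3, div_le_iff₀ (by linarith)] at h1
  nlinarith

theorem law_nonneg (hn : 2 ≤ n) {a : Fin n → ℝ} (ha : a ∈ pyr n) (l : Fin n) : 0 ≤ a l :=
  (div_nonneg (law_sum_nonneg hn ha) (by positivity)).trans (ha.1 l)

theorem law_meas_pyr : MeasurableSet (pyr n) := by
  refine IsClosed.measurableSet ?_
  simp only [pyr, Set.ofPred_and, Set.ofPred_forall]
  exact (isClosed_iInter fun l => isClosed_le (by fun_prop) (by fun_prop)).inter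
    (isClosed_le (by fun_prop) (by fun_prop))

theorem law_vol_top (hn : 2 ≤ n) : volume (pyr n) ≠ ⊤ := by
  refine ((measure_mono (t := Set.Icc 0 1) fun a ha => ⟨fun l => law_nonneg hn ha l, fun l => ?_⟩).trans_lt
    isCompact_Icc.measure_lt_top).ne
  exact (single_le_sum (fun l _ => law_nonneg hn ha l) (mem_univ l)).trans ha.2

theorem law_vol_zero (hn : 2 ≤ n) : volume (pyr n) ≠ 0 := by
  have h2 : (2 : ℝ) ≤ n := by exact_mod_cast hn
  have h0 : (0 : ℝ) < n := by linarith
  have hs : Set.Icc (fun _ : Fin n => 1 / (2 * (n : ℝ))) (fun _ => 1 / (n : ℝ)) ⊆ pyr n := by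
    intro a ha
    have h1 : ∑ l, a l ≤ 1 := by
      refine (sum_le_sum (s := univ) fun l _ => ha.2 l).trans_eq ?_
      rw [sum_const, card_univ, Fintype.card_fin, nsmul_eq_mul]
      field_simp
    refine ⟨fun l => le_trans ?_ (ha.1 l), h1⟩
    refine (div_le_div_of_nonneg_right h1 (by positivity)).trans ?_
    exact one_div_le_one_div_of_le (by positivity) (by nlinarith)
  refine fun h => (?_ : volume (Set.Icc (fun _ : Fin n => 1 / (2 * (n : ℝ)))
    (fun _ => 1 / (n : ℝ))) ≠ 0) (measure_mono_null hs h)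
  rw [Real.volume_Icc_pi]
  refine prod_ne_zero_iff.2 fun l _ => (ENNReal.ofReal_pos.2 ?_).ne'
  exact sub_pos.2 (one_div_lt_one_div_of_lt h0 (by linarith))

theorem law_meas_rad : Measurable fun a : Fin n → ℝ => (∑ l, a l)⁻¹ • a := by
  fun_prop

theorem law_ae_notMem {W : Submodule ℝ (Fin n → ℝ)} (hW : W ≠ ⊤) :
    ∀ᵐ a ∂(volume : Measure (Fin n → ℝ)), a ∉ W :=
  measure_eq_zero_iff_ae_notMem.1 (Measure.addHaar_submodule volume W hW)

theorem law_ae_sum (hn : 2 ≤ n) : ∀ᵐ a ∂(volume : Measure (Fin n → ℝ)), ∑ l, a l ≠ 0 := by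
  have h : LinearMap.ker (∑ l : Fin n, LinearMap.proj (R := ℝ) (φ := fun _ : Fin n => ℝ) l) ≠ ⊤ := by
    intro h
    have h1 : (fun _ : Fin n => (1 : ℝ)) ∈ LinearMap.ker
      (∑ l : Fin n, LinearMap.proj (R := ℝ) (φ := fun _ : Fin n => ℝ) l) := h ▸ Submodule.mem_top
    simp at h1
    omega
  filter_upwards [law_ae_notMem h] with a ha
  simpa using ha

/-- The combination of the rows as a linear map. -/
noncomputable def lawL (r : Fin m → Row n) (I : Sub m n) : (Fin n → ℝ) →ₗ[ℝ] (Fin n → ℝ) where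
  toFun := comb r I
  map_add' u v := by simp only [comb, Pi.add_apply, add_smul, sum_add_distrib]
  map_smul' t u := by simp only [comb, Pi.smul_apply, smul_eq_mul, mul_smul, smul_sum, RingHom.id_apply]

theorem lawL_inj {r : Fin m → Row n} (hG : DD.Gen r ⊥) (I : Sub m n) :
    Function.Injective (lawL r I) := by
  classical
  refine (injective_iff_map_eq_zero _).2 fun u hu => funext fun l => ?_
  by_contra h1
  set e := I.1.orderEmbOfFin I.2 with he
  have hi : e l ∈ univ.map e.toEmbedding := mem_map_of_mem _ (mem_univ l)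
  have hy : ∀ l', Function.extend e u 0 (e l') = u l' := fun l' => e.injective.extend_apply _ _ _
  have h2 : ∑ i ∈ univ.map e.toEmbedding, Function.extend e u 0 i • (r i).1 = 0 := by
    rw [sum_map]
    exact (sum_congr rfl fun l' _ => congrArg (· • _) (hy l')).trans hu
  refine hG (e l) ((univ.map e.toEmbedding).erase (e l)) (notMem_erase _ _) ?_
    ⟨0, Submodule.zero_mem _, fun i => -(u l)⁻¹ * Function.extend e u 0 i, ?_⟩
  · have h3 := card_erase_add_one hi
    rw [card_map, card_univ, Fintype.card_fin] at h3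
    rw [finrank_bot]
    omega
  · simp only [mul_smul, ← smul_sum]
    rw [← add_sum_erase _ _ hi, hy] at h2
    rw [eq_neg_of_add_eq_zero_right h2, zero_add, neg_smul, smul_neg, neg_neg,
      inv_smul_smul₀ h1]

theorem ae_alpha (hn : 2 ≤ n) {r : Fin m → Row n} (hG : DD.Gen r ⊥) (I : Sub m n) (c : Fin n → ℝ) :
    ∀ᵐ α ∂simplexLaw n, (∀ l, 0 ≤ α l) ∧ Nondeg r (comb r I α) c := by
  classical
  let W : Finset (Fin m) → Submodule ℝ (Fin n → ℝ) := fun T =>
    (Submodule.span ℝ (insert c (T.image fun l => (r l).1) : Finset _)).comap (lawL r I)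
  have hW : ∀ T : Finset (Fin m), T.card + 2 = n → W T ≠ ⊤ := by
    intro T hT h
    have h1 : LinearMap.range (lawL r I) = ⊤ :=
      LinearMap.range_eq_top.2 (LinearMap.injective_iff_surjective.1 (lawL_inj hG I))
    have h2 := LinearMap.range_le_iff_comap.2 h
    rw [h1, top_le_iff] at h2
    have h3 := finrank_span_finset_le_card (R := ℝ) (insert c (T.image fun l => (r l).1))
    have h4 := card_insert_le c (T.image fun l => (r l).1)
    have h5 := card_image_le (s := T) (f := fun l => (r l).1)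
    rw [Set.finrank, h2, finrank_top, Module.finrank_fin_fun] at h3
    omega
  have hM : MeasurableSet {α : Fin n → ℝ | (∀ l, 0 ≤ α l) ∧
      ∀ T : Finset (Fin m), T.card + 2 = n → α ∉ W T} := by
    simp only [Set.ofPred_and, Set.ofPred_forall]
    exact (MeasurableSet.iInter fun l => (isClosed_le (by fun_prop) (by fun_prop)).measurableSet).inter
      (MeasurableSet.iInter fun T => MeasurableSet.iInter fun _ =>
        (W T).closed_of_finiteDimensional.measurableSet.compl)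
  have key : ∀ᵐ α ∂simplexLaw n, (∀ l, 0 ≤ α l) ∧
      ∀ T : Finset (Fin m), T.card + 2 = n → α ∉ W T := by
    refine (ae_map_iff law_meas_rad.aemeasurable hM).2 ?_
    have h1 : ∀ᵐ a ∂(volume : Measure (Fin n → ℝ)),
        ∀ T : Finset (Fin m), T.card + 2 = n → a ∉ W T := by
      refine ae_all_iff.2 fun T => ?_
      by_cases h : T.card + 2 = n
      · filter_upwards [law_ae_notMem (hW T h)] with a ha _ using ha
      · exact Filter.Eventually.of_forall fun a h' => absurd h' h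
    filter_upwards [ProbabilityTheory.ae_cond_mem (μ := volume) law_meas_pyr,
      ProbabilityTheory.cond_absolutelyContinuous.ae_le h1,
      ProbabilityTheory.cond_absolutelyContinuous.ae_le (law_ae_sum hn)] with a h2 h3 h4
    refine ⟨fun l => mul_nonneg (inv_nonneg.2 (law_sum_nonneg hn h2)) (law_nonneg hn h2 l),
      fun T hT h => h3 T hT ?_⟩
    exact ((W T).smul_mem_iff (inv_ne_zero h4)).1 h
  filter_upwards [key] with α hα
  refine ⟨hα.1, fun B hB t y hy i hi j hj hyi hyj => ?_⟩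
  have h1 := card_erase_add_one hi
  have h2 := card_erase_add_one hj
  rw [← add_sum_erase _ _ hi, ← add_sum_erase _ _ hj, hyi, hyj, zero_smul, zero_smul, zero_add,
    zero_add] at hy
  refine hα.2 ((B.erase i).erase j) (by omega) ?_
  show comb r I α ∈ Submodule.span ℝ _
  rw [eq_sub_of_add_eq hy]
  refine Submodule.sub_mem _ (Submodule.sum_mem _ fun l hl => Submodule.smul_mem _ _
    (Submodule.subset_span ?_)) (Submodule.smul_mem _ _ (Submodule.subset_span ?_))
  · exact mem_coe.2 (mem_insert_of_mem (mem_image_of_mem _ hl))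
  · exact mem_coe.2 (mem_insert_self _ _)

theorem lintegral_simplex (hn : 2 ≤ n) {F : (Fin n → ℝ) → ℝ≥0∞} (hF : Measurable F)
    (h : ∀ (t : ℝ) a, 0 < t → F (t • a) = F a) :
    ∫⁻ α, F α ∂simplexLaw n = (volume (pyr n))⁻¹ * ∫⁻ a in pyr n, F a := by
  rw [simplexLaw, lintegral_map hF law_meas_rad, ProbabilityTheory.cond, lintegral_smul_measure,
    smul_eq_mul]
  refine congrArg _ (lintegral_congr_ae ?_)
  filter_upwards [ae_restrict_mem law_meas_pyr, ae_restrict_of_ae (law_ae_sum hn)] with a h1 h2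
  exact h _ a (inv_pos.2 ((law_sum_nonneg hn h1).lt_of_ne' h2))

theorem prob_simplex (hn : 2 ≤ n) : IsProbabilityMeasure (simplexLaw n) := by
  have := ProbabilityTheory.cond_isProbabilityMeasure_of_finite (law_vol_zero hn) (law_vol_top hn)
  exact Measure.isProbabilityMeasure_map law_meas_rad.aemeasurable

theorem law_dirac {k : ℕ} (P : Measure (Fin k → ℝ)) [IsProbabilityMeasure P] (β : ℝ) :
    MeasurePreserving (fun a => (a, β)) P (P.prod (Measure.dirac β)) :=
  ⟨by fun_prop, (Measure.prod_dirac β).symm⟩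

theorem law_cons (μ : Fin (n + 1) → Measure ℝ) [∀ i, IsProbabilityMeasure (μ i)] :
    MeasurePreserving (fun ρ : Row n => (Fin.cons ρ.2 ρ.1 : Fin (n + 1) → ℝ))
      ((Measure.pi fun l => μ l.succ).prod (μ 0)) (Measure.pi μ) := by
  have hm : Measurable fun ρ : Row n => (Fin.cons ρ.2 ρ.1 : Fin (n + 1) → ℝ) :=
    measurable_pi_iff.2 fun o => by
      refine Fin.cases ?_ (fun j => ?_) o
      · simp only [Fin.cons_zero]
        fun_prop
      · simp only [Fin.cons_succ]
        fun_prop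
  refine ⟨hm, (Measure.pi_eq fun s hs => ?_).symm⟩
  rw [Measure.map_apply hm (MeasurableSet.univ_pi hs)]
  have h : (fun ρ : Row n => (Fin.cons ρ.2 ρ.1 : Fin (n + 1) → ℝ)) ⁻¹' Set.univ.pi s =
      Set.univ.pi (fun l => s l.succ) ×ˢ s 0 := by
    ext p
    simp only [Set.mem_preimage, Set.mem_pi, Set.mem_univ, true_imp_iff, Set.mem_prod,
      Fin.forall_fin_succ, Fin.cons_zero, Fin.cons_succ]
    exact and_comm
  rw [h, Measure.prod_prod, Measure.pi_pi, Fin.prod_univ_succ, mul_comm]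

theorem law_one {f : ℝ → ℝ} {κ σ : ℝ} (hf : FP.Den f κ) (hσ : 0 < σ) (hσ1 : σ ≤ 1)
    (A : Fin m → Fin n → ℝ) (b β : Fin m → ℝ) :
    MeasurePreserving (fun (r : Fin m → Row n) i => (((r i).1, β i) : Row n)) (inputLaw f σ A b)
      (FP.sysLaw f σ A fun i => Measure.dirac (β i)) := by
  have hp : ∀ u, IsProbabilityMeasure (pert f σ u) := fun u => (hf.nice hσ hσ1 (le_refl |u|)).prob
  exact measurePreserving_pi _ _ fun i => (law_dirac _ (β i)).comp
    (measurePreserving_fst (μ := Measure.pi fun j => pert f σ (A i j)) (ν := pert f σ (b i)))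

theorem law_two {f : ℝ → ℝ} {κ σ : ℝ} (hf : FP.Den f κ) (hσ : 0 < σ) (hσ1 : σ ≤ 1)
    (A : Fin m → Fin n → ℝ) (b β : Fin m → ℝ) :
    MeasurePreserving (fun (r : Fin m → Row n) i => ((Fin.cons (r i).2 (r i).1, β i) : Row (n + 1)))
      (inputLaw f σ A b)
      (FP.sysLaw f σ (fun i => Fin.cons (b i) (A i)) fun i => Measure.dirac (β i)) := by
  have hp : ∀ u, IsProbabilityMeasure (pert f σ u) := fun u => (hf.nice hσ hσ1 (le_refl |u|)).prob
  exact measurePreserving_pi _ _ fun i => (law_dirac _ (β i)).comp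
    (law_cons fun j => pert f σ ((Fin.cons (b i) (A i) : Fin (n + 1) → ℝ) j))

theorem law_sys1 {f : ℝ → ℝ} {κ σ : ℝ} (hf : FP.Den f κ) (hσ : 0 < σ) (hσ1 : σ ≤ 1)
    (A : Fin m → Fin n → ℝ) (b : Fin m → ℝ) (I : Sub m n) (η : ℝ) :
    MeasurePreserving (sys1 I η) (inputLaw f σ A b)
      (FP.sysLaw f σ A fun i => Measure.dirac (bet I η i)) :=
  law_one hf hσ hσ1 A b _

theorem law_sys2 {f : ℝ → ℝ} {κ σ : ℝ} (hf : FP.Den f κ) (hσ : 0 < σ) (hσ1 : σ ≤ 1)
    (A : Fin m → Fin n → ℝ) (b : Fin m → ℝ) (I : Sub m n) (η : ℝ) :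
    MeasurePreserving (sys2 I η) (inputLaw f σ A b)
      (FP.sysLaw f σ (fun i => Fin.cons (b i) (A i)) fun i => Measure.dirac (bet I η i)) :=
  law_two hf hσ hσ1 A b _

theorem law_gen {f : ℝ → ℝ} {κ σ : ℝ} (hf : FP.Den f κ) (hσ : 0 < σ) (hσ1 : σ ≤ 1)
    (A : Fin m → Fin n → ℝ) (V : Submodule ℝ (Fin n → ℝ)) :
    ∀ᵐ r ∂FP.sysLaw f σ A fun _ => Measure.dirac 1, DD.Gen r V := by
  have hp : ∀ u, IsProbabilityMeasure (pert f σ u) := fun u => (hf.nice hσ hσ1 (le_refl |u|)).prob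
  have hκ := hf.kappa
  have hA : ∀ i j, |A i j| ≤ ‖A‖ := fun i j =>
    (norm_le_pi_norm (A i) j).trans (norm_le_pi_norm A i)
  refine DD.ae_gen (U := 2 * (n + 1) * (1 / σ) + (n * (‖A‖ + κ) + 1)) (fun i => FP.rowOK (R := 1)
    (fun j => hf.nice hσ hσ1 (hA i j)) (by positivity) (by positivity) zero_le_one
    (fun ε hε => ?_) ?_ (le_add_of_nonneg_right (by positivity))
    (le_add_of_nonneg_left (by positivity))) V
  · by_cases h : 1 ≤ ε
    · exact prob_le_one.trans (ENNReal.one_le_ofReal.2 (by linarith))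
    · rw [Measure.dirac_apply, Set.indicator_of_notMem (by simpa using h)]
      exact zero_le
  · rw [lintegral_dirac, abs_one]

theorem ae_generic {f : ℝ → ℝ} {κ σ : ℝ} (hf : FP.Den f κ) (hσ : 0 < σ) (hσ1 : σ ≤ 1)
    (A : Fin m → Fin n → ℝ) (b : Fin m → ℝ) (c : Fin n → ℝ) :
    ∀ᵐ r ∂inputLaw f σ A b, DD.Gen r ⊥ ∧ DD.Gen r (Submodule.span ℝ {c}) ∧
      ∀ I : Sub m n, DD.Gen (sys2 I 1 r) ⊥ := by
  have h1 := (law_one hf hσ hσ1 A b fun _ => 1).quasiMeasurePreserving
  have h2 := (law_two hf hσ hσ1 A b fun _ => 1).quasiMeasurePreserving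
  filter_upwards [h1.ae (law_gen hf hσ hσ1 A ⊥), h1.ae (law_gen hf hσ hσ1 A (Submodule.span ℝ {c})),
    h2.ae (law_gen hf hσ hσ1 _ ⊥)] with r g1 g2 g3
  exact ⟨g1, g2, fun _ => g3⟩

end Pool.Agent.Lib.MP_3b7f8d_lc.ST
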