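import Mathlib
import Pool.Agent.Lib.MP_3b7f8d_lc.ST.Cnt0
import Pool.Agent.Lib.MP_3b7f8d_lc.ST.Law
import Pool.Agent.Lib.MP_3b7f8d_lc.FQ.Plane

/-! The expected size of the shadow of phase two. -/

namespace Pool.Agent.Lib.MP_3b7f8d_lc.ST

open Finset MeasureTheory
open scoped ENNReal

theorem two_bound {f : ℝ → ℝ} {κ : ℝ} (hf : FP.Den f κ) (hc : ∀ᵐ x, ContinuousAt f x) :
    ∃ C : ℝ, ∃ k : ℕ, 1 ≤ C ∧ ∀ σ : ℝ, 0 < σ → σ ≤ 1 → ∀ (m n : ℕ) (v η : ℝ)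
      (A : Fin m → Fin n → ℝ) (b : Fin m → ℝ) (I : Sub m n) (c : Fin n → ℝ),
      (∀ i l, |A i l| ≤ 1) → (∀ i, |b i| ≤ 1) → 0 < η → η ≤ 1 → m + n + 1 / σ ≤ v →
      ∫⁻ r, (cnt2 I η c r : ℝ≥0∞) ∂inputLaw f σ A b ≤ ENNReal.ofReal (C * v ^ k) := by
  obtain ⟨C, k, hC, H⟩ := FQ.plane_bound hf hc
  refine ⟨C * 3 ^ k, k, one_le_mul_of_one_le_of_one_le hC (one_le_pow₀ (by norm_num)), ?_⟩
  intro σ hσ hσ1 m n v η A b I c hA hb hη hη1 hv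
  have hF := fun B : Finset (Fin m) =>
    FP.meas_shadow (n := n + 1) (Fin.cons 1 0) (Fin.cons 0 c) B
  have h1 := (law_sys2 hf hσ hσ1 A b I η).lintegral_comp
    ((measurable_from_top (f := fun j : ℕ => (j : ℝ≥0∞))).comp (cnt_meas_ncard hF))
  have h2 : 1 ≤ 1 / σ := one_le_one_div hσ hσ1
  have hm : (0 : ℝ) ≤ m := m.cast_nonneg
  have hn : (0 : ℝ) ≤ n := n.cast_nonneg
  have h3 := H σ hσ hσ1 m (n + 1) (3 * v) (fun i => Fin.cons (b i) (A i)) I.1 (bet I η)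
    (Fin.cons 1 0) (Fin.cons 0 c) (by rw [I.2]; exact n.lt_succ_self)
    (fun i l => Fin.cases (hb i) (fun l => hA i l) l)
    (fun i => by
      unfold bet
      split_ifs
      · exact ⟨hη.ne', by rwa [abs_of_pos hη]⟩
      · simp)
    (fun i hi => if_neg hi) (by push_cast; linarith)
  rw [← cnt_lintegral_ncard _ hF, mul_pow, ← mul_assoc] at h3
  exact h1.le.trans h3

end Pool.Agent.Lib.MP_3b7f8d_lc.ST
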