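import Mathlib
import Pool.Agent.Lib.MP_3b7f8d_lc.ST.Base

/-! The numbers `κ`, `M` and the starting basis of the method of Spielman and Teng. -/

namespace Pool.Agent.Lib.MP_3b7f8d_lc.ST

open Finset MeasureTheory
open scoped ENNReal

variable {n m : ℕ}

theorem eta_dot_nonneg (v : Fin n → ℝ) : 0 ≤ v ⬝ᵥ v := sum_nonneg fun _ _ => mul_self_nonneg _

theorem eta_sup_le (v : Fin n → ℝ) : ‖v‖ ≤ √(v ⬝ᵥ v) := by
  refine (pi_norm_le_iff_of_nonneg (Real.sqrt_nonneg _)).2 fun l => ?_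
  refine Real.le_sqrt_of_sq_le ?_
  rw [Real.norm_eq_abs, sq_abs, sq]
  exact single_le_sum (f := fun l => v l * v l) (fun _ _ => mul_self_nonneg _) (mem_univ l)

theorem eta_dot_le (v : Fin n → ℝ) : v ⬝ᵥ v ≤ n * ‖v‖ ^ 2 := by
  calc v ⬝ᵥ v ≤ ∑ _l : Fin n, ‖v‖ ^ 2 := sum_le_sum fun l _ => by
        have h : |v l| ≤ ‖v‖ := norm_le_pi_norm v l
        rw [← sq, ← sq_abs]
        exact pow_le_pow_left₀ (abs_nonneg _) h 2
    _ = _ := by simp

theorem eta_euc_le (v : Fin n → ℝ) : √(v ⬝ᵥ v) ≤ n * ‖v‖ := by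
  refine Real.sqrt_le_iff.2 ⟨by positivity, (eta_dot_le v).trans ?_⟩
  have h : (n : ℝ) ≤ n ^ 2 := by exact_mod_cast Nat.le_self_pow two_ne_zero n
  rw [mul_pow]
  exact mul_le_mul_of_nonneg_right h (sq_nonneg _)

theorem eta_cs (u v : Fin n → ℝ) : u ⬝ᵥ v ≤ √(u ⬝ᵥ u) * √(v ⬝ᵥ v) := by
  have h := Real.sum_mul_le_sqrt_mul_sqrt univ u v
  simp only [sq] at h
  exact h

theorem eta_euc_smul (t : ℝ) (ht : 0 ≤ t) (v : Fin n → ℝ) :
    √((t • v) ⬝ᵥ (t • v)) = t * √(v ⬝ᵥ v) := by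
  rw [smul_dotProduct, dotProduct_smul, smul_eq_mul, smul_eq_mul, ← mul_assoc,
    Real.sqrt_mul (mul_self_nonneg t), Real.sqrt_mul_self ht]

theorem eta_comb_smul (r : Fin m → Row n) (I : Sub m n) (t : ℝ) (u : Fin n → ℝ) :
    comb r I (t • u) = t • comb r I u := by
  simp only [comb, smul_sum, Pi.smul_apply, smul_eq_mul, mul_smul]

theorem eta_smin_le (r : Fin m → Row n) (I : Sub m n) {u : Fin n → ℝ} (hu : u ⬝ᵥ u = 1) :
    smin r I ≤ √(comb r I u ⬝ᵥ comb r I u) :=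
  ciInf_le (f := fun u : {u : Fin n → ℝ // u ⬝ᵥ u = 1} => √(comb r I u ⬝ᵥ comb r I u))
    ⟨0, by rintro _ ⟨u, rfl⟩; exact Real.sqrt_nonneg _⟩ ⟨u, hu⟩

theorem eta_smin_mul (r : Fin m → Row n) (I : Sub m n) (u : Fin n → ℝ) :
    smin r I * √(u ⬝ᵥ u) ≤ √(comb r I u ⬝ᵥ comb r I u) := by
  rcases (Real.sqrt_nonneg (u ⬝ᵥ u)).eq_or_lt with h | h
  · rw [← h, mul_zero]; exact Real.sqrt_nonneg _
  · have h1 : ((√(u ⬝ᵥ u))⁻¹ • u) ⬝ᵥ ((√(u ⬝ᵥ u))⁻¹ • u) = 1 := by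
      rw [← Real.sqrt_eq_one, eta_euc_smul _ (inv_nonneg.2 h.le), inv_mul_cancel₀ h.ne']
    have h2 := eta_smin_le r I h1
    rw [eta_comb_smul, eta_euc_smul _ (inv_nonneg.2 h.le), inv_mul_eq_div, le_div_iff₀ h] at h2
    exact h2

theorem sm_of_smin {r : Fin m → Row n} {I : Sub m n} {κ : ℝ} (hκ : 0 ≤ κ) (h : κ ≤ smin r I) :
    Sm (κ / n) r I := by
  intro u
  rcases Nat.eq_zero_or_pos n with h0 | h0
  · have : (n : ℝ) = 0 := by exact_mod_cast h0
    rw [this, div_zero, zero_mul]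
    exact norm_nonneg _
  · have hn : (0 : ℝ) < n := by exact_mod_cast h0
    rw [div_mul_eq_mul_div, div_le_iff₀ hn, mul_comm _ (n : ℝ)]
    calc κ * ‖u‖ ≤ smin r I * √(u ⬝ᵥ u) :=
          mul_le_mul h (eta_sup_le u) (norm_nonneg _) (hκ.trans h)
      _ ≤ _ := (eta_smin_mul r I u).trans (eta_euc_le _)

theorem eta_single (l : Fin n) :
    (Pi.single l 1 : Fin n → ℝ) ⬝ᵥ (Pi.single l 1 : Fin n → ℝ) = 1 := by simp

theorem smin_of_sm {r : Fin m → Row n} {I : Sub m n} {κ : ℝ} (hn : 1 ≤ n) (hκ : 0 ≤ κ)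
    (h : Sm κ r I) : κ / n ≤ smin r I := by
  have hn0 : (0 : ℝ) < n := by exact_mod_cast hn
  have : Nonempty {u : Fin n → ℝ // u ⬝ᵥ u = 1} := ⟨⟨_, eta_single ⟨0, hn⟩⟩⟩
  refine le_ciInf fun u => ?_
  have h1 := eta_euc_le u.1
  rw [u.2, Real.sqrt_one] at h1
  refine le_trans ?_ ((h u.1).trans (eta_sup_le _))
  rw [div_le_iff₀ hn0]
  nlinarith

theorem eta_li {r : Fin m → Row n} (hG : DD.Gen r ⊥) (I : Sub m n) :
    LinearIndependent ℝ (fun i : I.1 => (r i).1) := by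
  refine FP.li_of_mult fun y hy i hi => ?_
  by_contra h0
  rw [← add_sum_erase _ _ hi] at hy
  refine hG i (I.1.erase i) (notMem_erase _ _)
    (by have := card_erase_add_one hi; have := I.2; rw [finrank_bot]; omega)
    ⟨0, Submodule.zero_mem _, fun l => -(y i)⁻¹ * y l, ?_⟩
  simp only [mul_smul, ← smul_sum]
  rw [zero_add, eq_neg_of_add_eq_zero_right hy, neg_smul_neg, inv_smul_smul₀ h0]

theorem eta_comb_eq (r : Fin m → Row n) (I : Sub m n) (y : Fin m → ℝ) :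
    comb r I (fun l => y (I.1.orderEmbOfFin I.2 l)) = ∑ i ∈ I.1, y i • (r i).1 := by
  rw [comb, ← sum_coe_sort I.1]
  exact Equiv.sum_comp (I.1.orderIsoOfFin I.2).toEquiv fun i : I.1 => y i • (r i).1

theorem smin_pos {r : Fin m → Row n} (hn : 1 ≤ n) (hG : DD.Gen r ⊥) (I : Sub m n) :
    0 < smin r I := by
  let L : (Fin n → ℝ) →ₗ[ℝ] (Fin n → ℝ) :=
    { toFun := comb r I
      map_add' := fun u v => by simp only [comb, Pi.add_apply, add_smul, sum_add_distrib]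
      map_smul' := fun t u => eta_comb_smul r I t u }
  have hker : LinearMap.ker L = ⊥ := by
    refine LinearMap.ker_eq_bot'.2 fun u hu => ?_
    have h1 := (eta_li hG I).comp _ (I.1.orderIsoOfFin I.2).injective
    exact funext (Fintype.linearIndependent_iff.1 h1 u hu)
  obtain ⟨K, hK, h⟩ := L.exists_antilipschitzWith hker
  have hK0 : (0 : ℝ) < K := hK
  have h1 : Sm (K : ℝ)⁻¹ r I := fun u => by
    have := h.le_mul_dist u 0
    rw [map_zero, dist_zero_right, dist_zero_right] at this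
    rw [inv_mul_le_iff₀ hK0]
    exact this
  have hn0 : (0 : ℝ) < n := by exact_mod_cast hn
  exact lt_of_lt_of_le (by positivity) (smin_of_sm hn (by positivity) h1)

/-- The largest Euclidean norm of a row with its right-hand side. -/
noncomputable def etaX (r : Fin m → Row n) : ℝ := ⨆ i, √((r i).1 ⬝ᵥ (r i).1 + (r i).2 ^ 2)

theorem eta_le_X (r : Fin m → Row n) (i : Fin m) :
    √((r i).1 ⬝ᵥ (r i).1 + (r i).2 ^ 2) ≤ etaX r :=
  le_ciSup (f := fun i => √((r i).1 ⬝ᵥ (r i).1 + (r i).2 ^ 2)) (Set.finite_range _).bddAbove i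

theorem eta_row_le (r : Fin m → Row n) (i : Fin m) : √((r i).1 ⬝ᵥ (r i).1) ≤ etaX r :=
  (Real.sqrt_le_sqrt (le_add_of_nonneg_right (sq_nonneg _))).trans (eta_le_X r i)

theorem eta_rhs_le (r : Fin m → Row n) (i : Fin m) : (r i).2 ≤ etaX r :=
  (Real.le_sqrt_of_sq_le (le_add_of_nonneg_left (eta_dot_nonneg _))).trans (eta_le_X r i)

theorem eta_X_le (r : Fin m → Row n) : etaX r ≤ (n + 1) * FP.al r := by
  have h0 : 0 ≤ ∑ i, ‖r i‖ := sum_nonneg fun _ _ => norm_nonneg _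
  refine Real.iSup_le (fun i => ?_) (by unfold FP.al; positivity)
  have h1 : ‖r i‖ ≤ FP.al r := by
    have := single_le_sum (f := fun i => ‖r i‖) (fun _ _ => norm_nonneg _) (mem_univ i)
    unfold FP.al
    linarith
  refine le_trans ?_ (mul_le_mul_of_nonneg_left h1 (by positivity))
  refine Real.sqrt_le_iff.2 ⟨by positivity, ?_⟩
  have h2 : ‖(r i).1‖ ^ 2 ≤ ‖r i‖ ^ 2 := pow_le_pow_left₀ (norm_nonneg _) (norm_fst_le _) 2
  have h3 : (r i).2 ^ 2 ≤ ‖r i‖ ^ 2 := by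
    rw [← sq_abs]
    exact pow_le_pow_left₀ (abs_nonneg _) (norm_snd_le (r i)) 2
  have h4 := eta_dot_le (r i).1
  have h5 : (0 : ℝ) ≤ n := n.cast_nonneg
  have h6 := mul_le_mul_of_nonneg_left h2 h5
  have h7 : 0 ≤ (n : ℝ) * (n + 1) * ‖r i‖ ^ 2 := by positivity
  nlinarith

theorem eta_smin_le_X (hn : 1 ≤ n) (r : Fin m → Row n) (I : Sub m n) : smin r I ≤ etaX r := by
  have h := eta_smin_le r I (eta_single ⟨0, hn⟩)
  have h1 : comb r I (Pi.single ⟨0, hn⟩ 1) = (r (I.1.orderEmbOfFin I.2 ⟨0, hn⟩)).1 := by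
    simp [comb, Pi.single_apply]
  rw [h1] at h
  exact h.trans (eta_row_le r _)

theorem eta_floor {s : ℝ} (hs : 0 < s) :
    (2 : ℝ) ^ ⌊Real.logb 2 s⌋ ≤ s ∧ s ≤ 2 * 2 ^ ⌊Real.logb 2 s⌋ := by
  have h := Real.rpow_logb two_pos (by norm_num) hs
  constructor
  · rw [← Real.rpow_intCast]
    exact (Real.rpow_le_rpow_of_exponent_le one_le_two (Int.floor_le _)).trans h.le
  · rw [← zpow_one_add₀ two_ne_zero, ← Real.rpow_intCast]
    refine h.ge.trans (Real.rpow_le_rpow_of_exponent_le one_le_two ?_)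
    push_cast
    linarith [Int.lt_floor_add_one (Real.logb 2 s)]

theorem eta_ceil {s : ℝ} (hs : 0 < s) :
    s ≤ (2 : ℝ) ^ ⌈Real.logb 2 s⌉ ∧ (2 : ℝ) ^ ⌈Real.logb 2 s⌉ ≤ 2 * s := by
  have h := Real.rpow_logb two_pos (by norm_num) hs
  constructor
  · rw [← Real.rpow_intCast]
    exact h.ge.trans (Real.rpow_le_rpow_of_exponent_le one_le_two (Int.le_ceil _))
  · rw [← Real.rpow_intCast]
    refine (Real.rpow_le_rpow_of_exponent_le one_le_two
      (Int.ceil_lt_add_one (Real.logb 2 s)).le).trans ?_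
    rw [Real.rpow_add two_pos, h, Real.rpow_one, mul_comm]

theorem eta_bigM (r : Fin m → Row n) : bigM r = 4 * 2 ^ ⌈Real.logb 2 (etaX r)⌉ := by
  rw [bigM, zpow_add₀ two_ne_zero, mul_comm]
  norm_num [etaX]

theorem eta_bigM_pos (r : Fin m → Row n) : 0 < bigM r := by unfold bigM; positivity

theorem eta_kap_pos (r : Fin m → Row n) (I : Sub m n) : 0 < kap r I := by unfold kap; positivity

theorem eta_eq {r : Fin m → Row n} (hn : 1 ≤ n) (hG : DD.Gen r ⊥) (I : Sub m n) :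
    ∃ p : ℕ, eta r I = 1 / (2 ^ p * √n) ∧ 2 ^ p * smin r I ≤ 4 * (n + 1) * FP.al r := by
  have hs := smin_pos hn hG I
  have hX := eta_smin_le_X hn r I
  have hab : ⌊Real.logb 2 (smin r I)⌋ ≤ ⌈Real.logb 2 (etaX r)⌉ := by
    have h := ((Int.floor_le _).trans (Real.logb_le_logb_of_le one_lt_two hs hX)).trans
      (Int.le_ceil _)
    exact_mod_cast h
  obtain ⟨p, hp⟩ := Int.le.dest hab
  have h1 : (2 : ℝ) ^ ⌈Real.logb 2 (etaX r)⌉ = kap r I * 2 ^ p := by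
    rw [← hp, zpow_add₀ two_ne_zero, zpow_natCast, kap]
  have hk := eta_kap_pos r I
  have hn0 : (0 : ℝ) < √n := Real.sqrt_pos.2 (by exact_mod_cast hn)
  refine ⟨p, ?_, ?_⟩
  · rw [eta, eta_bigM, h1]
    field_simp
  · have h2 : smin r I ≤ 2 * kap r I := (eta_floor hs).2
    have h3 := (eta_ceil (hs.trans_le hX)).2
    have h4 := eta_X_le r
    have h5 := mul_le_mul_of_nonneg_left h2 (show (0 : ℝ) ≤ 2 ^ p by positivity)
    rw [h1] at h3
    nlinarith

theorem eta_Y {r : Fin m → Row n} (hn : 1 ≤ n) (I : Sub m n) :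
    √n * bigM r ^ 2 / (4 * kap r I) * eta r I = bigM r := by
  have hk := eta_kap_pos r I
  have hM := eta_bigM_pos r
  have hn0 : (0 : ℝ) < √n := Real.sqrt_pos.2 (by exact_mod_cast hn)
  rw [eta]
  field_simp

theorem yp_eq {r : Fin m → Row n} (hn : 1 ≤ n) (I : Sub m n) :
    ∃ Y : ℝ, 0 < Y ∧ ∀ i, yp r I i = Y * bet I (eta r I) i := by
  have hk := eta_kap_pos r I
  have hM := eta_bigM_pos r
  have hn0 : (0 : ℝ) < √n := Real.sqrt_pos.2 (by exact_mod_cast hn)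
  refine ⟨√n * bigM r ^ 2 / (4 * kap r I), by positivity, fun i => ?_⟩
  unfold yp bet
  split_ifs
  · exact (eta_Y hn I).symm
  · rw [mul_one]

theorem eta_X_le_M {r : Fin m → Row n} (hn : 1 ≤ n) (hG : DD.Gen r ⊥) (I : Sub m n) :
    4 * etaX r ≤ bigM r := by
  have h := (eta_ceil ((smin_pos hn hG I).trans_le (eta_smin_le_X hn r I))).1
  rw [eta_bigM]
  linarith

theorem lt_yp {r : Fin m → Row n} (hn : 1 ≤ n) (hG : DD.Gen r ⊥) (I : Sub m n) (i : Fin m) :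
    (r i).2 < yp r I i := by
  have hk := eta_kap_pos r I
  have hM := eta_bigM_pos r
  have h1 := eta_X_le_M hn hG I
  have h2 := eta_rhs_le r i
  refine lt_of_lt_of_le (show (r i).2 < bigM r by linarith) ?_
  unfold yp
  split_ifs
  · exact le_rfl
  · obtain ⟨p, hp, -⟩ := eta_eq hn hG I
    have h3 : (1 : ℝ) ≤ √n := Real.one_le_sqrt.2 (by exact_mod_cast hn)
    have h4 : eta r I ≤ 1 := by
      rw [hp]
      exact (div_le_one (by positivity)).2 (one_le_mul_of_one_le_of_one_le (one_le_pow₀ one_le_two) h3)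
    nth_rewrite 1 [← eta_Y (r := r) hn I]
    exact mul_le_of_le_one_right (by positivity) h4

theorem start_bfs {r : Fin m → Row n} (hn : 1 ≤ n) (hG : DD.Gen r ⊥) (I : Sub m n) :
    ∃ x, IsBFS (lp1 r I) univ I.1 x := by
  have hl := eta_li hG I
  obtain ⟨x, hx⟩ := exists_dot I.2 hl fun _ => bigM r
  obtain ⟨y, hy⟩ := span_top I.2 hl x
  have hk := eta_kap_pos r I
  have hM := eta_bigM_pos r
  have hs := smin_pos hn hG I
  have hks : kap r I ≤ smin r I := (eta_floor hs).1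
  have hn0 : (0 : ℝ) < √n := Real.sqrt_pos.2 (by exact_mod_cast hn)
  set u : Fin n → ℝ := fun l => y (I.1.orderEmbOfFin I.2 l) with hu
  have hxu : comb r I u = x := (eta_comb_eq r I y).trans hy.symm
  have h1 : x ⬝ᵥ x ≤ bigM r * (√n * √(u ⬝ᵥ u)) := by
    have h2 : x ⬝ᵥ x = bigM r * ((fun _ => 1) ⬝ᵥ u) := by
      nth_rewrite 1 [← hxu]
      rw [comb, sum_dotProduct, dotProduct, mul_sum]
      refine sum_congr rfl fun l _ => ?_
      rw [smul_dotProduct, hx _ (orderEmbOfFin_mem _ _ _), smul_eq_mul]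
      ring
    have h3 := eta_cs (fun _ => 1) u
    have h4 : (fun _ : Fin n => (1 : ℝ)) ⬝ᵥ (fun _ => 1) = n := by simp [dotProduct]
    rw [h4] at h3
    rw [h2]
    exact mul_le_mul_of_nonneg_left h3 hM.le
  have h5 : kap r I * √(u ⬝ᵥ u) ≤ √(x ⬝ᵥ x) := by
    have := eta_smin_mul r I u
    rw [hxu] at this
    exact (mul_le_mul_of_nonneg_right hks (Real.sqrt_nonneg _)).trans this
  have h6 : kap r I * √(x ⬝ᵥ x) ≤ bigM r * √n := by
    rcases (Real.sqrt_nonneg (x ⬝ᵥ x)).eq_or_lt with h | h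
    · rw [← h, mul_zero]; positivity
    · refine le_of_mul_le_mul_right ?_ h
      rw [mul_assoc, Real.mul_self_sqrt (eta_dot_nonneg x)]
      have h7 := mul_le_mul_of_nonneg_left h1 hk.le
      have h8 := mul_le_mul_of_nonneg_left h5 (mul_pos hM hn0).le
      nlinarith
  refine ⟨x, subset_univ _, I.2, hl, fun i hi => ?_, fun i _ => ?_⟩
  · simp only [lp1, yp, if_pos hi]
    exact hx i hi
  · simp only [lp1, yp]
    split_ifs with hi
    · exact (hx i hi).le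
    · have h7 := eta_cs (r i).1 x
      have h8 : 4 * √((r i).1 ⬝ᵥ (r i).1) ≤ bigM r := by
        linarith [eta_row_le r i, eta_X_le_M hn hG I]
      refine h7.trans ?_
      rw [le_div_iff₀ (by positivity)]
      have h9 := mul_le_mul h8 h6 (by positivity) hM.le
      nlinarith

end Pool.Agent.Lib.MP_3b7f8d_lc.ST
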