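import Mathlib
import Pool.Agent.Lib.MP_3b7f8d_lc.ST.Ev
import Pool.Agent.Lib.MP_3b7f8d_lc.FQ.Sum

/-! The expected number of good bases of phase one. -/

namespace Pool.Agent.Lib.MP_3b7f8d_lc.ST

open Finset MeasureTheory
open scoped ENNReal

variable {n m : ℕ}

theorem good_norm (hn : 2 ≤ n) {s : ℝ} (hs0 : 0 ≤ s) (hs : s ≤ 1 / (3 * n ^ 2)) {a : Fin n → ℝ}
    (ha : a ∈ pyrS n s) : ‖a‖ ≤ 2 := by
  obtain ⟨h1, h2⟩ := ha
  have hn' : (2 : ℝ) ≤ n := by exact_mod_cast hn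
  set T := ∑ l, a l with hT
  have h3 : n * (T / n ^ 2 - s) ≤ T := by
    have := sum_le_sum fun l (_ : l ∈ (univ : Finset (Fin n))) => h1 l
    rwa [sum_const, card_univ, Fintype.card_fin, nsmul_eq_mul] at this
  rw [le_div_iff₀ (by positivity)] at hs
  set q := T / n ^ 2 with hq
  have h4 : T = q * n ^ 2 := by rw [hq]; field_simp
  have h5 : -s ≤ q := by
    by_contra h
    push Not at h
    have h6 : q - s ≤ q * n := le_of_mul_le_mul_left (by nlinarith) (by positivity : (0 : ℝ) < n)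
    nlinarith
  have h6 : ∀ l, -(2 * s) ≤ a l := fun l => by linarith [h1 l]
  have h7 : n * s ≤ 1 / 6 := by nlinarith [mul_nonneg hs0 (by positivity : (0 : ℝ) ≤ n)]
  have h8 : s ≤ 1 / 12 := by nlinarith
  refine (pi_norm_le_iff_of_nonneg zero_le_two).2 fun l => ?_
  have h9 : a l + 2 * s ≤ ∑ l', (a l' + 2 * s) :=
    single_le_sum (f := fun l' => a l' + 2 * s) (fun l' _ => by linarith [h6 l']) (mem_univ l)
  rw [sum_add_distrib, sum_const, card_univ, Fintype.card_fin, nsmul_eq_mul, ← hT] at h9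
  rw [Real.norm_eq_abs, abs_le]
  exact ⟨by linarith [h6 l], by nlinarith⟩

theorem good_comb (r : Fin m → Row n) (I : Sub m n) {a : Fin n → ℝ} (ha : ‖a‖ ≤ 2) :
    ‖comb r I a‖ ≤ 2 * FP.al r := by
  have h1 := FP.le_al r (univ.map (I.1.orderEmbOfFin I.2).toEmbedding)
  rw [sum_map] at h1
  calc ‖comb r I a‖ ≤ ∑ l, 2 * ‖r (I.1.orderEmbOfFin I.2 l)‖ := by
        refine (norm_sum_le _ _).trans (sum_le_sum fun l _ => ?_)
        rw [norm_smul]
        exact mul_le_mul ((norm_le_pi_norm a l).trans ha) (norm_fst_le _) (norm_nonneg _)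
          zero_le_two
    _ ≤ _ := by
        rw [← mul_sum]
        have h2 : ∑ l, ‖r (I.1.orderEmbOfFin I.2 l)‖ ≤ FP.al r := by
          refine le_trans ?_ h1
          exact le_add_of_nonneg_left zero_le_one
        linarith

theorem good_sep {r : Fin m → Row n} {S B B' : Finset (Fin m)} {x x' z c : Fin n → ℝ}
    {y y' : Fin m → ℝ} {t t' η : ℝ} (h : IsBFS r S B x) (h' : IsBFS r S B' x') (hne : B ≠ B')
    (ht : 0 ≤ t) (htt : t ≤ t') (hη : 0 < η) (hy : IsDual r B (z + t • c) y)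
    (hy' : IsDual r B' (z + t' • c) y')
    (hs : ∀ i ∈ B \ B', η ≤ y i * ((r i).2 - (r i).1 ⬝ᵥ x')) : η ≤ z ⬝ᵥ x - z ⬝ᵥ x' := by
  obtain ⟨i, hi⟩ : (B \ B').Nonempty := by
    rw [sdiff_nonempty]
    exact fun hsub => hne (eq_of_subset_of_card_le hsub (by rw [h.2.1, h'.2.1]))
  have hiB := (mem_sdiff.1 hi).1
  have h1 : η ≤ (z + t • c) ⬝ᵥ (x - x') := by
    rw [hy.2, h.dot_sub]
    exact (hs i hi).trans (single_le_sum (f := fun i => y i * ((r i).2 - (r i).1 ⬝ᵥ x'))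
      (fun j hj => mul_nonneg (hy.1 j hj) (sub_nonneg.2 (h'.2.2.2.2 j (h.1 hj)))) hiB)
  have h2 := h'.optimal hy' (u := x) fun j hj => h.2.2.2.2 j (h'.1 hj)
  simp only [add_dotProduct, smul_dotProduct, dotProduct_sub, smul_eq_mul] at h1 h2
  by_cases h4 : 0 ≤ c ⬝ᵥ x - c ⬝ᵥ x'
  · nlinarith
  · nlinarith

theorem good_pos {μ y w : ℝ} (hμ : 0 < μ) (hw : 0 ≤ w) (h : μ ≤ y * (1 + w)) : 0 ≤ y := by
  by_contra h0
  nlinarith

theorem good_card {r : Fin m → Row n} {S : Finset (Fin m)} {z c : Fin n → ℝ} {μ g Z ρ₀ : ℝ}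
    {J : ℕ} (hz : ‖z‖ ≤ Z) (hZ : 0 < Z) (hμ : 0 < μ) (hg : 0 < g) (hρ : 0 < ρ₀)
    (G : Finset (Finset (Fin m)))
    (hG : ∀ B ∈ G, ∃ x : Fin n → ℝ, ∃ t : ℝ, ∃ y : Fin m → ℝ, IsBFS r S B x ∧ ρ₀ ≤ ‖x‖ ∧
      ‖x‖ ≤ 2 ^ J * ρ₀ ∧ 0 ≤ t ∧ (∀ i ∈ B, μ ≤ y i * (1 + ‖r i‖)) ∧
      z + t • c = ∑ i ∈ B, y i • (r i).1 ∧
      ∀ k ∈ S \ B, g * ‖x‖ * (1 + ‖r k‖) ≤ (r k).2 - (r k).1 ⬝ᵥ x) :
    (G.card : ℝ) ≤ (J + 1) * (4 * n * Z / (μ * g) + 1) := by
  classical
  choose! x t y hx using hG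
  have hd : ∀ B ∈ G, IsDual r B (z + t B • c) (y B) := fun B hB =>
    ⟨fun i hi => good_pos hμ (norm_nonneg _) ((hx B hB).2.2.2.2.1 i hi), (hx B hB).2.2.2.2.2.1⟩
  set Gj : ℕ → Finset (Finset (Fin m)) := fun j => G.filter fun B =>
    2 ^ j * ρ₀ ≤ ‖x B‖ ∧ ‖x B‖ ≤ 2 * (2 ^ j * ρ₀) with hGj
  have hcover : G ⊆ (range (J + 1)).biUnion Gj := by
    intro B hB
    obtain ⟨-, h1, h2, -⟩ := hx B hB
    obtain ⟨j, hj1, hj2⟩ := exists_nat_pow_near ((one_le_div hρ).2 h1) one_lt_two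
    rw [le_div_iff₀ hρ] at hj1
    rw [div_lt_iff₀ hρ, pow_succ] at hj2
    refine mem_biUnion.2 ⟨j, ?_, mem_filter.2 ⟨hB, hj1, by linarith⟩⟩
    rw [mem_range, Nat.lt_succ_iff]
    exact (pow_le_pow_iff_right₀ one_lt_two).1 (le_of_mul_le_mul_right (hj1.trans h2) hρ)
  have bj : ∀ j, ((Gj j).card : ℝ) ≤ 4 * n * Z / (μ * g) + 1 := by
    intro j
    set ρ : ℝ := 2 ^ j * ρ₀ with hρ'
    have hρ0 : 0 < ρ := by positivity
    have key : ∀ B ∈ Gj j, ∀ B' ∈ Gj j, B ≠ B' → t B ≤ t B' →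
        μ * g * ρ ≤ z ⬝ᵥ x B - z ⬝ᵥ x B' := by
      intro B hB B' hB' hne htt
      obtain ⟨hB, -⟩ := mem_filter.1 hB
      obtain ⟨hB', h3, -⟩ := mem_filter.1 hB'
      refine good_sep (hx B hB).1 (hx B' hB').1 hne (hx B hB).2.2.2.1 htt (by positivity)
        (hd B hB) (hd B' hB') fun i hi => ?_
      rw [mem_sdiff] at hi
      have h4 := (hx B' hB').2.2.2.2.2.2 i (mem_sdiff.2 ⟨(hx B hB).1.1 hi.1, hi.2⟩)
      have h5 := (hx B hB).2.2.2.2.1 i hi.1
      have h6 := (hd B hB).1 i hi.1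
      calc μ * g * ρ = μ * (g * ρ) := by ring
        _ ≤ y B i * (1 + ‖r i‖) * (g * ‖x B'‖) := by gcongr
        _ = y B i * (g * ‖x B'‖ * (1 + ‖r i‖)) := by ring
        _ ≤ _ := by gcongr
    refine (card_le_of_sep (Gj j) (fun B => z ⬝ᵥ x B) (R := 2 * n * Z * ρ) (s := μ * g * ρ)
      (by positivity) (by positivity) (fun B hB => ?_) fun B hB B' hB' hne => ?_).trans
      (le_of_eq ?_)
    · obtain ⟨hB, -, h3⟩ := mem_filter.1 hB
      have h2 : |(Z⁻¹ • z) ⬝ᵥ x B| ≤ n * ‖x B‖ := abs_dot_le (by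
        rw [norm_smul, norm_inv, Real.norm_of_nonneg hZ.le, inv_mul_le_iff₀ hZ, mul_one]
        exact hz)
      rw [smul_dotProduct, smul_eq_mul, abs_mul, abs_of_pos (by positivity),
        inv_mul_le_iff₀ hZ] at h2
      calc _ ≤ Z * (n * ‖x B‖) := h2
        _ ≤ Z * (n * (2 * ρ)) := by gcongr
        _ = _ := by ring
    · rcases le_total (t B) (t B') with h | h
      · exact (key B hB B' hB' hne h).trans (le_abs_self _)
      · rw [abs_sub_comm]
        exact (key B' hB' B hB hne.symm h).trans (le_abs_self _)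
    · field_simp
      ring
  have h5 : G.card ≤ ∑ j ∈ range (J + 1), (Gj j).card :=
    (card_le_card hcover).trans card_biUnion_le
  calc (G.card : ℝ) ≤ ∑ j ∈ range (J + 1), ((Gj j).card : ℝ) := by exact_mod_cast h5
    _ ≤ ∑ _j ∈ range (J + 1), (4 * n * Z / (μ * g) + 1) := sum_le_sum fun j _ => bj j
    _ = _ := by
      rw [sum_const, card_range, nsmul_eq_mul]
      push_cast
      ring

theorem good_point {U : ℝ} (I : Sub m n) (c : Fin n → ℝ) {S : Finset (Fin m)} (hn : 2 ≤ n)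
    (hnU : (n : ℝ) + 1 ≤ U) (hm : (m : ℝ) ≤ U) {κ s μ g : ℝ} (hs0 : 0 ≤ s)
    (hs : s ≤ 1 / (3 * n ^ 2)) (hμ : 0 < μ) (hg : 0 < g) (hμg : μ * g ≤ 1)
    {r : Fin m → Row n} {a : Fin n → ℝ} (ha : a ∈ pyrS n s)
    (hr : r ∉ FQ.exc I.1 S (1 / (U ^ 2 * (2 ^ m) ^ 2)) (2 * U ^ 2 * 2 ^ m))
    (G : Finset (Finset (Fin m))) (hG : ∀ B ∈ G, (r, a) ∈ evG I c κ s μ g S B) :
    (G.card : ℝ) ≤ 109 * U ^ 10 / (μ * g) * FP.al r := by
  classical
  set E : ℝ := 2 ^ m with hD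
  have hD0 : 0 < E := by positivity
  have hU : 1 ≤ U := by linarith [Nat.cast_nonneg (α := ℝ) n]
  simp only [FQ.exc, Set.mem_union, Set.mem_iUnion, not_or, not_exists,
    Set.mem_ofPred_eq, not_le, not_and] at hr
  obtain ⟨⟨hb, hf⟩, hK⟩ := hr
  have hal := FP.one_le_al r
  have hK' := ((ENNReal.ofReal_lt_ofReal_iff (by positivity)).1 hK).le
  have hJ : 4 * U ^ 9 * E ^ 6 ≤ 2 ^ (m * 6 + ⌈4 * U ^ 9⌉₊) := by
    rw [pow_add, pow_mul, ← hD, mul_comm]
    gcongr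
    refine (Nat.le_ceil _).trans ?_
    exact_mod_cast Nat.lt_two_pow_self.le
  have h0 := good_card (S := S) (r := r) (c := c) (μ := μ) (g := g)
    (ρ₀ := 1 / (U ^ 2 * E ^ 2) / (U * (2 * U ^ 2 * E))) (J := m * 6 + ⌈4 * U ^ 9⌉₊)
    (good_comb r I (good_norm hn hs0 hs ha)) (by positivity) hμ hg (by positivity) (G.erase I.1)
    fun B hB => by
      obtain ⟨hBI, hB⟩ := mem_erase.1 hB
      obtain ⟨⟨hO, ⟨x, hx⟩, t, y, ht, hy, hw⟩, h3⟩ := hG B hB
      refine ⟨x, t, y, hx, ?_, ?_, ht, hy, hw, fun k hk => ?_⟩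
      · obtain ⟨i, hi, hiD⟩ : ∃ i ∈ B, i ∉ I.1 := not_subset.1 fun hsub =>
          hBI (eq_of_subset_of_card_le hsub (by rw [hx.2.1, I.2]))
        have h1 : ‖(r i).1‖ ≤ 2 * U ^ 2 * E := by
          have h2 := FP.le_al r {i}
          rw [sum_singleton] at h2
          linarith [norm_fst_le (r i)]
        have h2 : |((2 * U ^ 2 * E)⁻¹ • (r i).1) ⬝ᵥ x| ≤ n * ‖x‖ := abs_dot_le (by
          rw [norm_smul, norm_inv, Real.norm_of_nonneg (by positivity),
            inv_mul_le_iff₀ (by positivity), mul_one]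
          exact h1)
        rw [smul_dotProduct, smul_eq_mul, abs_mul, abs_of_pos (by positivity),
          inv_mul_le_iff₀ (by positivity), hx.2.2.2.1 i hi] at h2
        rw [div_le_iff₀ (by positivity)]
        calc _ ≤ 2 * U ^ 2 * E * (n * ‖x‖) := (hb i ⟨hx.1 hi, hiD⟩).le.trans h2
          _ ≤ 2 * U ^ 2 * E * (U * ‖x‖) := by gcongr; linarith
          _ = _ := by ring
      · refine (hx.norm_le (by positivity) fun i hi => hf (⟨B, hx.2.1⟩, i) (hx.1 hi)).trans ?_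
        have h1 : ∑ i ∈ B, |(r i).2| ≤ 2 * U ^ 2 * E := by
          have h2 : ∑ i ∈ B, |(r i).2| ≤ ∑ i ∈ B, ‖r i‖ :=
            sum_le_sum fun i _ => norm_snd_le (r i)
          linarith [FP.le_al r B]
        calc _ ≤ 2 * U ^ 2 * E / (1 / (U ^ 2 * E ^ 2)) := by gcongr
          _ = 4 * U ^ 9 * E ^ 6 * (1 / (U ^ 2 * E ^ 2) / (U * (2 * U ^ 2 * E))) := by
            field_simp
            ring
          _ ≤ _ := by gcongr
      · by_contra h
        exact h3 (Set.mem_iUnion₂.2 ⟨k, hk, hO, ⟨x, hx, (not_le.1 h).le⟩, t, y, ht,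
          fun i hi => good_pos hμ (norm_nonneg _) (hy i hi), hw⟩)
  have h1 : (G.card : ℝ) ≤ (G.erase I.1).card + 1 := by
    exact_mod_cast (by
      have := pred_card_le_card_erase (s := G) (a := I.1)
      omega : G.card ≤ (G.erase I.1).card + 1)
  have hv : 0 < μ * g := by positivity
  have h2 : ((m * 6 + ⌈4 * U ^ 9⌉₊ : ℕ) : ℝ) + 1 ≤ 12 * U ^ 9 := by
    have h3 := (Nat.ceil_lt_add_one (a := 4 * U ^ 9) (by positivity)).le
    have h4 : U ≤ U ^ 9 := le_self_pow₀ hU (by norm_num)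
    push_cast
    linarith
  have h3 : 4 * n * (2 * FP.al r) / (μ * g) + 1 ≤ 9 * U * FP.al r / (μ * g) := by
    rw [div_add_one hv.ne']
    gcongr
    nlinarith
  have h4 : 1 ≤ U ^ 10 / (μ * g) * FP.al r :=
    one_le_mul_of_one_le_of_one_le ((one_le_div hv).2 (hμg.trans (one_le_pow₀ hU))) hal
  calc (G.card : ℝ) ≤ 12 * U ^ 9 * (9 * U * FP.al r / (μ * g)) + 1 := by
        refine h1.trans (add_le_add_left (h0.trans ?_) _)
        gcongr
    _ = 108 * (U ^ 10 / (μ * g) * FP.al r) + 1 := by ring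
    _ ≤ 109 * (U ^ 10 / (μ * g) * FP.al r) := by linarith
    _ = _ := by ring

theorem sum_good {ν : Fin m → Measure (Row n)} [∀ i, IsProbabilityMeasure (ν i)] {U : ℝ}
    (I : Sub m n) (c : Fin n → ℝ) {S : Finset (Fin m)}
    (hmom : ∀ i, ∫⁻ ρ, ENNReal.ofReal ‖ρ‖ ∂ν i ≤ ENNReal.ofReal U)
    (hν : ∀ i ∈ S, FQ.RowOK (ν i) U) (hsm : ∀ i ∈ S, i ∉ I.1 → FQ.Small (ν i) U)
    (hn : 2 ≤ n) (hnU : (n : ℝ) + 1 ≤ U) (hm : (m : ℝ) ≤ U) {κ s μ g : ℝ} (hs0 : 0 ≤ s)
    (hs : s ≤ 1 / (3 * n ^ 2)) (hμ : 0 < μ) (hg : 0 < g) (hμg : μ * g ≤ 1) :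
    ∑ B, (Measure.pi ν).prod volume (evG I c κ s μ g S B) ≤
      ENNReal.ofReal (300 * U ^ 12 / (μ * g)) * volume (pyrS n s) := by
  classical
  have hU : 1 ≤ U := by linarith [Nat.cast_nonneg (α := ℝ) n]
  have hv : 0 < μ * g := by positivity
  set X : Set (Fin m → Row n) :=
    FQ.exc I.1 S (1 / (U ^ 2 * (2 ^ m) ^ 2)) (2 * U ^ 2 * 2 ^ m) with hX
  have hXm : MeasurableSet X := FQ.meas_exc _ _ _ _
  have hP : MeasurableSet (pyrS n s) := (isClosed_pyrS s).measurableSet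
  have hG : ∀ B, MeasurableSet (evG I c κ s μ g S B) := fun B => meas_evG I c κ s μ g S B
  have hal := FP.continuous_al (n := n) (m := m) |>.measurable.ennreal_ofReal
  simp only [← lintegral_indicator_one (hG _)]
  rw [← lintegral_finsetSum _ fun B _ => measurable_one.indicator (hG B)]
  calc _ ≤ ∫⁻ p, (ENNReal.ofReal (109 * U ^ 10 / (μ * g)) * ENNReal.ofReal (FP.al p.1) +
        X.indicator (fun _ => ENNReal.ofReal (2 ^ m)) p.1) * (pyrS n s).indicator 1 p.2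
        ∂(Measure.pi ν).prod volume := by
        refine lintegral_mono fun p => ?_
        obtain ⟨r, a⟩ := p
        simp only
        by_cases ha : a ∈ pyrS n s
        swap
        · refine le_trans (le_of_eq (sum_eq_zero fun B _ => ?_)) zero_le
          exact Set.indicator_of_notMem (fun h => ha h.1.1.2) _
        rw [Set.indicator_of_mem ha, Pi.one_apply, mul_one, FP.sum_indicator_eq,
          ← ENNReal.ofReal_natCast]
        by_cases hr : r ∈ X
        · rw [Set.indicator_of_mem hr]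
          refine le_add_left (ENNReal.ofReal_le_ofReal ?_)
          have := card_le_univ (univ.filter fun B => (r, a) ∈ evG I c κ s μ g S B)
          rw [Fintype.card_finset, Fintype.card_fin] at this
          exact_mod_cast this
        refine le_add_right ?_
        rw [← ENNReal.ofReal_mul (by positivity)]
        exact ENNReal.ofReal_le_ofReal (good_point I c hn hnU hm hs0 hs hμ hg hμg ha hr _
          fun B hB => (mem_filter.1 hB).2)
    _ ≤ (ENNReal.ofReal (109 * U ^ 10 / (μ * g)) * ENNReal.ofReal (2 * U ^ 2) + 3) *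
        volume (pyrS n s) := by
        rw [lintegral_prod_mul (f := fun r => ENNReal.ofReal (109 * U ^ 10 / (μ * g)) *
          ENNReal.ofReal (FP.al r) + X.indicator (fun _ => ENNReal.ofReal (2 ^ m)) r)
          ((hal.const_mul _).add (measurable_const.indicator hXm)).aemeasurable
          (measurable_one.indicator hP).aemeasurable, lintegral_indicator_one hP,
          lintegral_add_right _ (measurable_const.indicator hXm), lintegral_indicator_const hXm,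
          lintegral_const_mul _ hal]
        gcongr
        · exact FQ.lintegral_al hmom hU hm
        · exact FQ.prob_exc hmom hν hsm hU hm
    _ ≤ _ := by
        rw [← ENNReal.ofReal_mul (by positivity), ← ENNReal.ofReal_ofNat 3,
          ← ENNReal.ofReal_add (by positivity) (by positivity)]
        refine mul_le_mul_left (ENNReal.ofReal_le_ofReal ?_) _
        have h1 : 1 ≤ U ^ 12 / (μ * g) := (one_le_div hv).2 (hμg.trans (one_le_pow₀ hU))
        calc _ = 218 * (U ^ 12 / (μ * g)) + 3 := by ring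
          _ ≤ 300 * (U ^ 12 / (μ * g)) := by linarith
          _ = _ := by ring

end Pool.Agent.Lib.MP_3b7f8d_lc.ST
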