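import Mathlib
import Pool.Agent.Lib.MP_3b7f8d_lc.ST.Base

/-! Local resampling of one row. -/

namespace Pool.Agent.Lib.MP_3b7f8d_lc.ST

open Finset MeasureTheory
open scoped ENNReal

variable {n m : ℕ}

/-- The uniform law on `[-L, L]`. -/
noncomputable def resU (L : ℝ) : Measure ℝ :=
  ENNReal.ofReal (1 / (2 * L)) • volume.restrict (Set.Icc (-L) L)

theorem res_unif {L : ℝ} (hL : 0 < L) {a d : ℝ} (h : |a| + d ≤ L) :
    resU L (Set.Icc (a - d) (a + d)) = ENNReal.ofReal (d / L) := by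
  have h1 := abs_le.1 (show |a| ≤ L - d by linarith)
  rw [resU, Measure.smul_apply, Measure.restrict_apply measurableSet_Icc,
    Set.inter_eq_left.2 (Set.Icc_subset_Icc (by linarith [h1.1]) (by linarith [h1.2])),
    Real.volume_Icc, smul_eq_mul, ← ENNReal.ofReal_mul (by positivity)]
  congr 1
  field_simp
  ring

theorem res_prob {L : ℝ} (hL : 0 < L) : IsProbabilityMeasure (resU L) := by
  refine ⟨?_⟩
  rw [resU, Measure.smul_apply, Measure.restrict_apply MeasurableSet.univ, Set.univ_inter,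
    Real.volume_Icc, smul_eq_mul, ← ENNReal.ofReal_mul (by positivity), ← ENNReal.ofReal_one]
  congr 1
  field_simp
  ring

theorem res_umom {L : ℝ} (hL : 0 < L) :
    ∫⁻ x, ENNReal.ofReal |x| ∂resU L ≤ ENNReal.ofReal L := by
  have := res_prob hL
  have h : ∀ᵐ x ∂resU L, ENNReal.ofReal |x| ≤ ENNReal.ofReal L := by
    refine Measure.ae_smul_measure ?_ _
    filter_upwards [ae_restrict_mem measurableSet_Icc] with x hx
    exact ENNReal.ofReal_le_ofReal (abs_le.2 hx)
  exact (lintegral_mono_ae h).trans (by simp)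

theorem res_one {μ : Measure ℝ} {φ w d L c y : ℝ} (hL : 0 < L) (hφ : 0 ≤ φ) (hc0 : 0 ≤ c)
    (hle : ∀ s, μ s ≤ ENNReal.ofReal φ * volume s) (f v : ℝ → ℝ≥0∞)
    (h1 : ∀ x, f x ≠ 0 → |x - y| ≤ w) (h2 : ∀ x x', f x ≠ 0 → |x' - y| ≤ d → f x ≤ v x')
    (hy : |y| + d ≤ L) (hc : φ * (2 * w) ≤ c * (d / L)) :
    ∫⁻ x, f x ∂μ ≤ ENNReal.ofReal c * ∫⁻ x, v x ∂resU L := by
  set s : ℝ≥0∞ := ⨅ x' ∈ Set.Icc (y - d) (y + d), v x' with hs
  have e1 : ∫⁻ x, f x ∂μ ≤ s * μ (Set.Icc (y - w) (y + w)) := by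
    rw [← lintegral_indicator_const measurableSet_Icc]
    refine lintegral_mono fun x => ?_
    by_cases hx : f x = 0
    · simp [hx]
    have h3 := abs_le.1 (h1 x hx)
    rw [Set.indicator_of_mem (show x ∈ Set.Icc (y - w) (y + w) from
      ⟨by linarith [h3.1], by linarith [h3.2]⟩)]
    exact le_iInf₂ fun x' hx' => h2 x x' hx (abs_le.2 ⟨by linarith [hx'.1], by linarith [hx'.2]⟩)
  have e2 : s * ENNReal.ofReal (d / L) ≤ ∫⁻ x, v x ∂resU L := by
    rw [← res_unif hL hy, ← lintegral_indicator_const measurableSet_Icc]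
    refine lintegral_mono fun x => ?_
    by_cases hx : x ∈ Set.Icc (y - d) (y + d)
    · rw [Set.indicator_of_mem hx]
      exact iInf₂_le x hx
    · simp [hx]
  have e3 : μ (Set.Icc (y - w) (y + w)) ≤ ENNReal.ofReal c * ENNReal.ofReal (d / L) := by
    refine (hle _).trans ?_
    rw [Real.volume_Icc, ← ENNReal.ofReal_mul hφ, ← ENNReal.ofReal_mul hc0]
    exact ENNReal.ofReal_le_ofReal (by linarith)
  calc _ ≤ s * (ENNReal.ofReal c * ENNReal.ofReal (d / L)) := e1.trans (by gcongr)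
    _ = ENNReal.ofReal c * (s * ENNReal.ofReal (d / L)) := by ring
    _ ≤ _ := by gcongr

theorem res_mom {μ : Fin n → Measure ℝ} [∀ l, IsProbabilityMeasure (μ l)] {k b : ℝ} (hk : 0 ≤ k)
    (h : ∀ l, ∫⁻ x, ENNReal.ofReal |x| ∂μ l ≤ ENNReal.ofReal k) (hb : |b| ≤ 1) :
    ∫⁻ ρ : Row n, ENNReal.ofReal ‖ρ‖ ∂(Measure.pi μ).prod (Measure.dirac b) ≤
      ENNReal.ofReal (n * k + 1) := by
  calc _ ≤ ∫⁻ ρ : Row n, (∑ j, ENNReal.ofReal |ρ.1 j|) + ENNReal.ofReal |ρ.2|
        ∂(Measure.pi μ).prod (Measure.dirac b) := by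
        refine lintegral_mono fun ρ => ?_
        rw [← ENNReal.ofReal_sum_of_nonneg fun _ _ => abs_nonneg _,
          ← ENNReal.ofReal_add (by positivity) (abs_nonneg _)]
        refine ENNReal.ofReal_le_ofReal (norm_prod_le_iff.2 ⟨?_, ?_⟩)
        · refine le_trans ?_ (le_add_of_nonneg_right (abs_nonneg _))
          exact (pi_norm_le_iff_of_nonneg (by positivity)).2 fun j =>
            single_le_sum (f := fun j => |ρ.1 j|) (fun _ _ => abs_nonneg _) (mem_univ j)
        · exact le_add_of_nonneg_left (by positivity)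
    _ ≤ (∑ _j : Fin n, ENNReal.ofReal k) + ENNReal.ofReal 1 := by
        rw [lintegral_add_right _ (by fun_prop), lintegral_finsetSum _ (by fun_prop)]
        gcongr with j
        · refine le_trans (le_of_eq ?_) (h j)
          exact ((measurePreserving_eval μ j).comp measurePreserving_fst).lintegral_comp
            (f := fun x => ENNReal.ofReal |x|) (by fun_prop)
        · refine le_trans (le_of_eq (measurePreserving_snd.lintegral_comp
            (f := fun x => ENNReal.ofReal |x|) (by fun_prop))) ?_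
          rw [lintegral_dirac]
          exact ENNReal.ofReal_le_ofReal hb
    _ ≤ _ := by
        rw [sum_const, card_univ, Fintype.card_fin, nsmul_eq_mul, ← ENNReal.ofReal_natCast,
          ← ENNReal.ofReal_mul (Nat.cast_nonneg n), ← ENNReal.ofReal_add (by positivity) one_pos.le]

theorem res_update (ν : Fin n → Measure ℝ) [hν : ∀ i, IsProbabilityMeasure (ν i)] (k : Fin n)
    (μ : Measure ℝ) [hμ : IsProbabilityMeasure μ] {G : (Fin n → ℝ) → ℝ≥0∞} (hG : Measurable G) :
    ∫⁻ a, G a ∂Measure.pi (Function.update ν k μ) =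
      ∫⁻ ω, ∫⁻ y, G (Function.update ω k y) ∂μ ∂Measure.pi ν := by
  have := FP.prob_update (C := fun _ μ => IsProbabilityMeasure μ) hν hμ (k := k)
  have h1 : ((Measure.pi ν).prod μ).map (fun p => Function.update p.1 k p.2) =
      Measure.pi (Function.update ν k μ) := by
    refine (Measure.pi_eq fun s hs => ?_).symm
    rw [Measure.map_apply measurable_update' (MeasurableSet.univ_pi hs)]
    have h : (fun p : (Fin n → ℝ) × ℝ => Function.update p.1 k p.2) ⁻¹' Set.univ.pi s =
        Set.univ.pi (Function.update s k Set.univ) ×ˢ s k := by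
      ext ⟨ω, ρ⟩
      simp only [Set.mem_preimage, Set.mem_pi, Set.mem_univ, true_imp_iff, Set.mem_prod]
      constructor
      · intro h
        refine ⟨fun i => ?_, by simpa using h k⟩
        by_cases hi : i = k
        · simp [hi]
        · simpa [hi] using h i
      · rintro ⟨h1, h2⟩ i
        by_cases hi : i = k
        · simpa [hi] using h2
        · simpa [hi] using h1 i
    rw [h, Measure.prod_prod, Measure.pi_pi, ← prod_erase_mul _ _ (mem_univ k),
      ← prod_erase_mul _ _ (mem_univ k)]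
    simp only [Function.update_self, measure_univ, mul_one]
    congr 1
    exact prod_congr rfl fun i hi => by
      rw [Function.update_of_ne (ne_of_mem_erase hi), Function.update_of_ne (ne_of_mem_erase hi)]
  rw [← h1, lintegral_map hG measurable_update']
  exact lintegral_prod _ (hG.comp measurable_update').aemeasurable

theorem res_dirac (μ : Measure (Fin n → ℝ)) [SFinite μ] (b : ℝ) {G : Row n → ℝ≥0∞}
    (hG : Measurable G) : ∫⁻ ρ, G ρ ∂μ.prod (Measure.dirac b) = ∫⁻ a, G (a, b) ∂μ := by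
  rw [lintegral_prod _ hG.aemeasurable]
  simp only [lintegral_dirac]

theorem res_dot (ω x : Fin n → ℝ) (l : Fin n) (y y' : ℝ) :
    Function.update ω l y ⬝ᵥ x - Function.update ω l y' ⬝ᵥ x = (y - y') * x l := by
  rw [← sub_dotProduct, dotProduct, sum_eq_single l]
  · simp
  · intro i _ hi
    simp [hi]
  · simp

theorem res_norm (ω : Fin n → ℝ) (l : Fin n) (y y' b : ℝ) :
    ‖((Function.update ω l y', b) : Row n) - (Function.update ω l y, b)‖ ≤ |y' - y| := by
  refine norm_prod_le_iff.2 ⟨(pi_norm_le_iff_of_nonneg (abs_nonneg _)).2 fun i => ?_, by simp⟩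
  by_cases hi : i = l
  · simp [hi]
  · simp [hi]

theorem res_light {μ : Fin n → Measure ℝ} {φ κ b H g δ c : ℝ} (hμ : ∀ l, Nice (μ l) φ κ)
    (hφ : 0 ≤ φ) (hH : 0 ≤ H) (hg : 0 ≤ g) (hδ1 : δ ≤ 1) (hc0 : 0 ≤ c)
    (hw : 2 * g * (1 + H) ≤ δ / 2) (hc : φ * (2 * (2 * g * (1 + H))) ≤ c * (δ / 2 / (H + 1)))
    {x : Fin n → ℝ} {l : Fin n} (hx : 0 < ‖x‖) (hl : ‖x‖ ≤ |x l|) {F V : Row n → ℝ≥0∞}
    (hF : Measurable F) (hV : Measurable V)
    (h1 : ∀ ρ, F ρ ≠ 0 → ‖ρ‖ ≤ H ∧ |ρ.2 - ρ.1 ⬝ᵥ x| ≤ g * ‖x‖ * (1 + ‖ρ‖))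
    (h2 : ∀ ρ ρ' : Row n, ‖ρ' - ρ‖ ≤ δ → F ρ ≤ V ρ') :
    ∫⁻ ρ, F ρ ∂(Measure.pi μ).prod (Measure.dirac b) ≤ ENNReal.ofReal c *
      ∫⁻ ρ, V ρ ∂(Measure.pi (Function.update μ l (resU (H + 1)))).prod (Measure.dirac b) := by
  have hp := fun j => (hμ j).prob
  have hL : 0 < H + 1 := by linarith
  have hu := res_prob hL
  have := FP.prob_update (C := fun _ μ => IsProbabilityMeasure μ) hp hu (k := l)
  have hF' : Measurable fun a : Fin n → ℝ => F (a, b) := hF.comp (by fun_prop)
  have hV' : Measurable fun a : Fin n → ℝ => V (a, b) := hV.comp (by fun_prop)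
  rw [res_dirac _ _ hF, res_dirac _ _ hV, res_update μ l _ hV']
  have e := res_update μ l (μ l) hF'
  rw [Function.update_eq_self] at e
  rw [e, ← lintegral_const_mul' _ _ ENNReal.ofReal_ne_top]
  refine lintegral_mono fun ω => ?_
  by_cases h0 : ∀ y, F (Function.update ω l y, b) = 0
  · simp [h0]
  obtain ⟨y, hy⟩ := not_forall.1 h0
  have key : ∀ z, F (Function.update ω l z, b) ≠ 0 → |z - y| ≤ 2 * g * (1 + H) := by
    intro z hz
    have b1 : ∀ t, F (Function.update ω l t, b) ≠ 0 →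
        |b - Function.update ω l t ⬝ᵥ x| ≤ g * ‖x‖ * (1 + H) := fun t ht =>
      (h1 _ ht).2.trans (by gcongr; exact (h1 _ ht).1)
    have a1 := abs_le.1 (b1 z hz)
    have a2 := abs_le.1 (b1 y hy)
    have a3 := res_dot ω x l z y
    have a4 : |z - y| * |x l| ≤ 2 * g * (1 + H) * ‖x‖ := by
      rw [← abs_mul, ← a3]
      exact abs_le.2 ⟨by linarith [a1.2, a2.1], by linarith [a1.1, a2.2]⟩
    exact le_of_mul_le_mul_right ((mul_le_mul_of_nonneg_left hl (abs_nonneg _)).trans a4) hx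
  refine res_one (y := y) (d := δ / 2) hL hφ hc0 (hμ l).le _ _ key
    (fun z z' hz hz' => h2 _ _ ((res_norm ω l z z' b).trans ?_)) ?_ hc
  · have a1 := abs_le.1 (key z hz)
    have a2 := abs_le.1 hz'
    exact abs_le.2 ⟨by linarith [a1.2, a2.1], by linarith [a1.1, a2.2]⟩
  · have a1 : |y| ≤ ‖((Function.update ω l y, b) : Row n)‖ := by
      refine le_trans ?_ (norm_fst_le _)
      simpa using norm_le_pi_norm (Function.update ω l y) l
    linarith [(h1 _ hy).1]

theorem res_row {μ : Fin n → Measure ℝ} {φ κ b U W δ : ℝ} (hμ : ∀ l, Nice (μ l) φ κ)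
    (hn : 1 ≤ n) (hb0 : b ≠ 0) (hb : |b| ≤ 1) (hφ : 0 ≤ φ) (hφU : φ ≤ U) (hκ0 : 0 ≤ κ)
    (hκ : n * κ + 1 ≤ U) (hnU : (n : ℝ) + 1 ≤ U) (hW : 1 ≤ W) (hδ : 0 < δ) (hδ1 : δ ≤ 1) :
    ∃ ν' : Measure (Row n), IsProbabilityMeasure ν' ∧
      ∫⁻ ρ, ENNReal.ofReal ‖ρ‖ ∂ν' ≤ ENNReal.ofReal (4 * U ^ 2 * W) ∧
      Res ((Measure.pi μ).prod (Measure.dirac b)) ν' (δ / (32 * U ^ 3 * W ^ 3)) δ (U / W) := by
  have hp := fun j => (hμ j).prob
  have hn1 : (1 : ℝ) ≤ n := by exact_mod_cast hn
  have hU : 2 ≤ U := by linarith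
  have hW0 : 0 < W := by linarith
  have hU0 : 0 < U := by linarith
  set H := U * W with hH
  have hH2 : 2 ≤ H := by nlinarith
  have hL : 0 < H + 1 := by linarith
  have hu := res_prob hL
  have hq := fun l => FP.prob_update (C := fun _ μ => IsProbabilityMeasure μ) hp hu (k := l)
  set ν : Measure (Row n) := (Measure.pi μ).prod (Measure.dirac b) with hν
  set νl : Fin n → Measure (Row n) := fun l =>
    (Measure.pi (Function.update μ l (resU (H + 1)))).prod (Measure.dirac b) with hνl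
  have hνlp : ∀ l, IsProbabilityMeasure (νl l) := fun l => by
    have := hq l
    simp only [hνl]
    infer_instance
  set S : Set (Row n) := {ρ | H < ‖ρ‖} with hS
  have hSm : MeasurableSet S := (isOpen_lt (by fun_prop) (by fun_prop)).measurableSet
  have m0 : ∫⁻ ρ, ENNReal.ofReal ‖ρ‖ ∂ν ≤ ENNReal.ofReal U :=
    (res_mom hκ0 (fun l => (hμ l).mom) hb).trans (ENNReal.ofReal_le_ofReal hκ)
  have ml : ∀ l, ∫⁻ ρ, ENNReal.ofReal ‖ρ‖ ∂νl l ≤ ENNReal.ofReal (U + U * (H + 1)) := by
    intro l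
    have := hq l
    refine (res_mom (k := κ + (H + 1)) (by linarith) (FP.prob_update (C := fun _ μ =>
      ∫⁻ x, ENNReal.ofReal |x| ∂μ ≤ ENNReal.ofReal (κ + (H + 1))) (fun j => (hμ j).mom.trans
        (ENNReal.ofReal_le_ofReal (by linarith))) ((res_umom hL).trans
        (ENNReal.ofReal_le_ofReal (by linarith)))) hb).trans (ENNReal.ofReal_le_ofReal ?_)
    nlinarith
  have mk : ENNReal.ofReal W * ν S ≤ 1 := by
    have a1 : ENNReal.ofReal H * ν S ≤ ENNReal.ofReal U := by
      refine le_trans ?_ m0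
      rw [← lintegral_indicator_const hSm]
      refine lintegral_mono fun ρ => ?_
      by_cases h : ρ ∈ S
      · rw [Set.indicator_of_mem h]
        exact ENNReal.ofReal_le_ofReal (le_of_lt h)
      · simp [h]
    rw [hH, ENNReal.ofReal_mul hU0.le, mul_assoc] at a1
    exact (ENNReal.mul_le_mul_iff_right (by simpa using hU0) ENNReal.ofReal_ne_top).1
      (a1.trans_eq (mul_one _).symm)
  have hN0 : (0 : ℝ) < n + 1 := by linarith
  set lam : Measure (Row n) := ENNReal.ofReal W • ν.restrict S +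
    (1 - ENNReal.ofReal W * ν S) • Measure.dirac 0 + ∑ l, νl l with hlam
  have hint : ∀ G : Row n → ℝ≥0∞, ∫⁻ ρ, G ρ ∂lam = ENNReal.ofReal W * ∫⁻ ρ in S, G ρ ∂ν +
      (1 - ENNReal.ofReal W * ν S) * G 0 + ∑ l, ∫⁻ ρ, G ρ ∂νl l := by
    intro G
    rw [hlam, lintegral_add_measure, lintegral_add_measure, lintegral_smul_measure,
      lintegral_smul_measure, lintegral_finsetSum_measure, lintegral_dirac, smul_eq_mul,
      smul_eq_mul]
  refine ⟨ENNReal.ofReal (1 / (n + 1)) • lam, ⟨?_⟩, ?_, ?_⟩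
  · have a1 := hint fun _ => 1
    simp only [lintegral_const, one_mul, mul_one, measure_univ, Measure.restrict_apply_univ,
      add_tsub_cancel_of_le mk, sum_const, card_univ, Fintype.card_fin, nsmul_eq_mul] at a1
    rw [Measure.smul_apply, a1, smul_eq_mul, ← ENNReal.ofReal_natCast, ← ENNReal.ofReal_one,
      ← ENNReal.ofReal_add one_pos.le (by linarith), ← ENNReal.ofReal_mul (by positivity)]
    congr 1
    field_simp
    ring
  · rw [lintegral_smul_measure, hint, smul_eq_mul]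
    have a1 : ∫⁻ ρ in S, ENNReal.ofReal ‖ρ‖ ∂ν ≤ ENNReal.ofReal U :=
      (setLIntegral_le_lintegral _ _).trans m0
    calc _ ≤ ENNReal.ofReal (1 / (n + 1)) * (ENNReal.ofReal W * ENNReal.ofReal U + 0 +
          ∑ _l : Fin n, ENNReal.ofReal (U + U * (H + 1))) := by
          gcongr with l
          · simp
          · exact ml l
      _ ≤ _ := by
          rw [add_zero, sum_const, card_univ, Fintype.card_fin, nsmul_eq_mul,
            ← ENNReal.ofReal_natCast, ← ENNReal.ofReal_mul hW0.le,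
            ← ENNReal.ofReal_mul (by linarith), ← ENNReal.ofReal_add (by positivity)
            (by positivity), ← ENNReal.ofReal_mul (by positivity)]
          refine ENNReal.ofReal_le_ofReal ?_
          rw [one_div, inv_mul_le_iff₀ hN0]
          have b1 : U + U * (H + 1) ≤ 2 * (U * H) := by nlinarith
          have b2 : W * U ≤ U * H := by nlinarith
          have b3 : 4 * U ^ 2 * W = 4 * (U * H) := by rw [hH]; ring
          have b4 : 0 < U * H := by positivity
          rw [b3]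
          nlinarith [mul_le_mul_of_nonneg_left b1 (by linarith : (0 : ℝ) ≤ n)]
  · intro x F V hF hV h1 h2
    have hmain : ∫⁻ ρ, F ρ ∂ν ≤ ENNReal.ofReal (1 / W) * ∫⁻ ρ, V ρ ∂lam := by
      have hF' : Measurable (Sᶜ.indicator F) := hF.indicator hSm.compl
      have a1 : ∫⁻ ρ, Sᶜ.indicator F ρ ∂ν ≤
          ENNReal.ofReal (1 / W) * ∑ l, ∫⁻ ρ, V ρ ∂νl l := by
        by_cases hx : x = 0
        · rw [hν, res_dirac _ _ hF']
          refine le_trans (le_of_eq ?_) zero_le
          refine (lintegral_congr fun a => ?_).trans lintegral_zero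
          by_contra h
          have h3 := h1 (a, b) fun h4 => h (Set.indicator_apply_eq_zero.2 fun _ => h4)
          simp [hx, hb0] at h3
        have hx0 : 0 < ‖x‖ := norm_pos_iff.2 hx
        obtain ⟨l, hl⟩ : ∃ l, ‖x‖ ≤ |x l| := by
          by_contra h
          exact lt_irrefl _ ((pi_norm_lt_iff hx0).2 fun l => not_le.1 fun h' => h ⟨l, h'⟩)
        have hg : 0 < δ / (32 * U ^ 3 * W ^ 3) := by positivity
        have e3 : 32 * U ^ 3 * W ^ 3 = 32 * H ^ 3 := by rw [hH]; ring
        refine (res_light (b := b) (H := H) (c := 1 / W) hμ hφ (by linarith) hg.le hδ1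
          (by positivity) ?_ ?_ hx0 hl hF' hV (fun ρ hρ => ?_) fun ρ ρ' h => ?_).trans ?_
        · rw [e3, ← mul_div_assoc, div_mul_eq_mul_div, div_le_div_iff₀ (by positivity) two_pos]
          have : 1 + H ≤ 8 * H ^ 3 := by nlinarith [sq_nonneg H, mul_pos hL hL]
          nlinarith
        · refine (mul_le_mul_of_nonneg_right hφU (by positivity)).trans ?_
          have b1 : (1 + H) ^ 2 ≤ 4 * H ^ 2 := by nlinarith
          have b2 : U * (2 * (2 * (δ / (32 * U ^ 3 * W ^ 3)) * (1 + H))) =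
              1 / W * (δ / 2 / (H + 1)) * ((1 + H) ^ 2 / (4 * H ^ 2)) := by
            rw [hH]
            field_simp
            ring
          rw [b2]
          exact mul_le_of_le_one_right (by positivity) ((div_le_one (by positivity)).2 b1)
        · have h3 : ρ ∈ Sᶜ := Set.mem_of_indicator_ne_zero hρ
          rw [Set.indicator_of_mem h3] at hρ
          exact ⟨not_lt.1 h3, h1 ρ hρ⟩
        · exact (Set.indicator_le_self _ _ ρ).trans (h2 ρ ρ' h)
        · gcongr
          exact single_le_sum (f := fun l => ∫⁻ ρ, V ρ ∂νl l) (fun _ _ => zero_le) (mem_univ l)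
      have a2 : ∫⁻ ρ in S, F ρ ∂ν ≤
          ENNReal.ofReal (1 / W) * (ENNReal.ofReal W * ∫⁻ ρ in S, V ρ ∂ν) := by
        rw [← mul_assoc, ← ENNReal.ofReal_mul (by positivity), one_div_mul_cancel hW0.ne',
          ENNReal.ofReal_one, one_mul]
        exact lintegral_mono fun ρ => h2 ρ ρ (by simpa using hδ.le)
      rw [lintegral_indicator hSm.compl] at a1
      rw [← lintegral_add_compl F hSm, hint, mul_add, mul_add]
      exact add_le_add (a2.trans le_self_add) a1
    rw [lintegral_smul_measure, smul_eq_mul, ← mul_assoc, ← ENNReal.ofReal_mul (by positivity)]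
    refine hmain.trans ?_
    gcongr
    rw [div_mul_div_comm, mul_one, div_le_div_iff₀ hW0 (by positivity)]
    nlinarith

end Pool.Agent.Lib.MP_3b7f8d_lc.ST
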