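import Mathlib
import Pool.Agent.Lib.MP_3b7f8d_lc.ST.Ev

/-! The enlarged pyramid and the shift of the coefficients. -/

namespace Pool.Agent.Lib.MP_3b7f8d_lc.ST

open Finset MeasureTheory
open scoped ENNReal Pointwise

variable {n m : ℕ}

theorem pyrS_add (hn : 1 ≤ n) {s δ : ℝ} {a v : Fin n → ℝ} (ha : a ∈ pyrS n s) (hv : ‖v‖ ≤ δ) :
    a + v ∈ pyrS n (s + 2 * δ) := by
  have hδ : 0 ≤ δ := (norm_nonneg v).trans hv
  have hn' : (1 : ℝ) ≤ n := by exact_mod_cast hn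
  have h1 : ∀ l, |v l| ≤ δ := fun l => (norm_le_pi_norm v l).trans hv
  have h2 : ∑ l, v l ≤ n * δ := by
    refine (sum_le_card_nsmul _ _ δ fun l _ => (le_abs_self _).trans (h1 l)).trans ?_
    simp
  have h3 : (∑ l, v l) / n ^ 2 ≤ δ := by
    rw [div_le_iff₀ (by positivity)]
    nlinarith [mul_nonneg (mul_nonneg hδ (zero_le_one.trans hn')) (sub_nonneg.2 hn')]
  refine ⟨fun l => ?_, ?_⟩
  · simp only [Pi.add_apply, sum_add_distrib, add_div]
    linarith [ha.1 l, (abs_le.1 (h1 l)).1]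
  · simp only [Pi.add_apply, sum_add_distrib]
    nlinarith [ha.2, mul_nonneg (zero_le_one.trans hn') hδ]

theorem pyrS_mono {s s' : ℝ} (h : s ≤ s') : pyrS n s ⊆ pyrS n s' := by
  intro a ha
  refine ⟨fun l => by linarith [ha.1 l], ha.2.trans ?_⟩
  gcongr

theorem shift_low (hn : 2 ≤ n) {s : ℝ} (hs0 : 0 ≤ s) {a : Fin n → ℝ} (ha : a ∈ pyrS n s) :
    (∀ l, (∑ l', (a l' + 2 * s)) / n ^ 2 ≤ a l + 2 * s) ∧
      ∑ l, (a l + 2 * s) ≤ 1 + 3 * n * s := by
  have hn' : (2 : ℝ) ≤ n := by exact_mod_cast hn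
  have h1 : ∑ l, (a l + 2 * s) = ∑ l, a l + n * (2 * s) := by simp [sum_add_distrib]
  have h2 : n * (2 * s) / n ^ 2 ≤ s := by
    rw [div_le_iff₀ (by positivity)]
    nlinarith [mul_nonneg (mul_nonneg hs0 (by positivity : (0 : ℝ) ≤ n)) (sub_nonneg.2 hn')]
  rw [h1]
  refine ⟨fun l => ?_, by linarith [ha.2]⟩
  rw [add_div]
  linarith [ha.1 l]

theorem shift_small (hn : 2 ≤ n) {s : ℝ} (hs : s ≤ 1 / (3 * n ^ 2)) :
    3 * n * s ≤ (n : ℝ)⁻¹ := by
  have hn' : (2 : ℝ) ≤ n := by exact_mod_cast hn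
  calc 3 * n * s ≤ 3 * n * (1 / (3 * n ^ 2)) := by gcongr
    _ = _ := by field_simp

theorem pyrS_norm (hn : 2 ≤ n) {s : ℝ} (hs0 : 0 ≤ s) (hs : s ≤ 1 / (3 * n ^ 2)) {a : Fin n → ℝ}
    (ha : a ∈ pyrS n s) : ‖a‖ ≤ 2 := by
  have hn' : (2 : ℝ) ≤ n := by exact_mod_cast hn
  obtain ⟨h1, h2⟩ := shift_low hn hs0 ha
  have h3 := shift_small hn hs
  have h4 : (n : ℝ)⁻¹ ≤ 1 / 2 := by
    rw [one_div]
    gcongr
  set T := ∑ l, (a l + 2 * s) with hT
  have h5 : n * (T / n ^ 2) ≤ T := by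
    have := card_nsmul_le_sum univ (fun l => a l + 2 * s) _ fun l _ => h1 l
    simpa using this
  have h6 : 0 ≤ T / n ^ 2 := by
    have h7 : T = n ^ 2 * (T / n ^ 2) := by field_simp
    by_contra h8
    push Not at h8
    nlinarith [mul_pos (by nlinarith : (0 : ℝ) < n ^ 2 - n) (neg_pos.2 h8)]
  have h7 : ∀ l, 0 ≤ a l + 2 * s := fun l => h6.trans (h1 l)
  refine (pi_norm_le_iff_of_nonneg zero_le_two).2 fun l => ?_
  have h8 : a l + 2 * s ≤ T := single_le_sum (f := fun l => a l + 2 * s) (fun l _ => h7 l) (mem_univ l)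
  have h9 : 2 * s ≤ 3 * n * s := by nlinarith
  rw [Real.norm_eq_abs, abs_le]
  constructor <;> linarith [h7 l]

theorem pyrS_vol (hn : 2 ≤ n) {s : ℝ} (hs0 : 0 ≤ s) (hs : s ≤ 1 / (3 * n ^ 2)) :
    volume (pyrS n s) ≤ 3 * volume (pyr n) := by
  have hn' : (2 : ℝ) ≤ n := by exact_mod_cast hn
  have ht : 0 < 1 + 3 * n * s := by positivity
  have h1 : pyrS n s ⊆ (fun a => a + fun _ => 2 * s) ⁻¹' ((1 + 3 * n * s) • pyr n) := by
    intro a ha
    obtain ⟨h1, h2⟩ := shift_low hn hs0 ha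
    rw [Set.mem_preimage, Set.mem_smul_set_iff_inv_smul_mem₀ ht.ne']
    refine ⟨fun l => ?_, ?_⟩
    · simp only [Pi.smul_apply, Pi.add_apply, smul_eq_mul, ← mul_sum]
      rw [mul_div_assoc]
      exact mul_le_mul_of_nonneg_left (h1 l) (inv_nonneg.2 ht.le)
    · simp only [Pi.smul_apply, Pi.add_apply, smul_eq_mul, ← mul_sum]
      rw [inv_mul_le_iff₀ ht, mul_one]
      exact h2
  refine (measure_mono h1).trans ?_
  rw [measure_preimage_add_right, Measure.addHaar_smul, Module.finrank_fin_fun]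
  gcongr
  have h2 : (1 + 3 * n * s) ^ n ≤ 3 := by
    calc _ ≤ Real.exp (n : ℝ)⁻¹ ^ n := by
          gcongr
          linarith [shift_small hn hs, Real.add_one_le_exp (n : ℝ)⁻¹]
      _ = Real.exp 1 := by
          rw [← Real.exp_nat_mul, mul_inv_cancel₀ (by positivity)]
      _ ≤ 3 := Real.exp_one_lt_d9.le.trans (by norm_num)
  rw [abs_of_nonneg (by positivity)]
  exact (ENNReal.ofReal_le_ofReal h2).trans (by simp)

theorem shift_comb_add (r : Fin m → Row n) (I : Sub m n) (u v : Fin n → ℝ) :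
    comb r I (u + v) = comb r I u + comb r I v := by
  simp [comb, add_smul, sum_add_distrib]

theorem Sm.surj {κ : ℝ} {r : Fin m → Row n} {I : Sub m n} (h : Sm κ r I) (hκ : 0 < κ)
    (w : Fin n → ℝ) : ∃ u, comb r I u = w ∧ ‖u‖ ≤ ‖w‖ / κ := by
  let L : (Fin n → ℝ) →ₗ[ℝ] Fin n → ℝ :=
    { toFun := comb r I
      map_add' := shift_comb_add r I
      map_smul' := fun t u => by simp [comb, smul_sum, mul_smul] }
  have hL : Function.Injective L := by
    refine (injective_iff_map_eq_zero L).2 fun u hu => ?_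
    have h1 : κ * ‖u‖ ≤ ‖L u‖ := h u
    rw [hu, norm_zero] at h1
    exact norm_le_zero_iff.1 (nonpos_of_mul_nonpos_right h1 hκ)
  obtain ⟨u, hu⟩ := LinearMap.injective_iff_surjective.1 hL w
  refine ⟨u, hu, ?_⟩
  have h1 : κ * ‖u‖ ≤ ‖L u‖ := h u
  rw [hu] at h1
  rw [le_div_iff₀ hκ]
  linarith

theorem shift (P : Measure (Fin m → Row n)) [SFinite P] (hn : 1 ≤ n) (I : Sub m n)
    (c : Fin n → ℝ) {κ s μ : ℝ} (hκ : 0 < κ) (hμ : 0 ≤ μ) (S B : Finset (Fin m)) :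
    P.prod volume (evP I c κ s S B) ≤ P.prod volume (evM I c κ (s + 2 * (n * μ / κ)) μ S B) := by
  have key := prod_le_of_section P volume (meas_evP I c κ s S B)
    (meas_evM I c κ (s + 2 * (n * μ / κ)) μ S B) (a := 1) (b := 1) fun r => ?_
  · simpa using key
  rw [one_mul, one_mul]
  rcases Set.eq_empty_or_nonempty (Prod.mk r ⁻¹' evP I c κ s S B) with h | ⟨a₀, h₀⟩
  · simp [h]
  obtain ⟨⟨hS, -⟩, ⟨x₀, hx₀⟩, -⟩ := h₀
  have hS : Sm κ r I := hS
  have hB : B.card = n := hx₀.2.1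
  set w : Fin n → ℝ := ∑ i ∈ B, (μ / (1 + ‖r i‖)) • (r i).1 with hw
  have hw1 : ‖w‖ ≤ n * μ := by
    refine (norm_sum_le _ _).trans ((sum_le_card_nsmul _ _ μ fun i _ => ?_).trans ?_)
    · rw [norm_smul, Real.norm_of_nonneg (by positivity), div_mul_eq_mul_div,
        div_le_iff₀ (by positivity)]
      have := norm_fst_le (r i)
      gcongr
      linarith
    · rw [nsmul_eq_mul, hB]
  obtain ⟨u, hu, hu1⟩ := hS.surj hκ w
  have hu2 : ‖u‖ ≤ n * μ / κ := hu1.trans (by gcongr)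
  rw [← measure_preimage_add_right volume u (Prod.mk r ⁻¹' evM I c κ _ μ S B)]
  refine measure_mono ?_
  rintro a ⟨⟨-, ha⟩, hx, t, y, ht, hy, he⟩
  refine ⟨⟨hS, pyrS_add hn ha hu2⟩, hx, t, fun i => y i + μ / (1 + ‖r i‖), ht, fun i hi => ?_, ?_⟩
  · have h1 : μ / (1 + ‖r i‖) * (1 + ‖r i‖) = μ := div_mul_cancel₀ _ (by positivity)
    have h2 : 0 ≤ y i * (1 + ‖r i‖) := mul_nonneg (hy i hi) (by positivity)
    simp only [add_mul]
    linarith
  · have he : comb r I a + t • c = ∑ i ∈ B, y i • (r i).1 := he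
    simp only [add_smul, sum_add_distrib, shift_comb_add]
    rw [← he, hu, hw]
    abel

end Pool.Agent.Lib.MP_3b7f8d_lc.ST
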