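import Mathlib
import Pool.Agent.Lib.MP_3b7f8d_lc.ST.Shift

/-! Resampling of a row with a small slack, with the change of the coefficients. -/

namespace Pool.Agent.Lib.MP_3b7f8d_lc.ST

open Finset MeasureTheory
open scoped ENNReal

variable {n m : ℕ}

theorem rs_update {X : Type} [MeasurableSpace X] (ν : Fin m → Measure X)
    [hν : ∀ i, IsProbabilityMeasure (ν i)] (k : Fin m)
    (μ : Measure X) [hμ : IsProbabilityMeasure μ] {G : (Fin m → X) → ℝ≥0∞} (hG : Measurable G) :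
    ∫⁻ a, G a ∂Measure.pi (Function.update ν k μ) =
      ∫⁻ ω, ∫⁻ y, G (Function.update ω k y) ∂μ ∂Measure.pi ν := by
  have := FP.prob_update (C := fun _ μ => IsProbabilityMeasure μ) hν hμ (k := k)
  have h1 : ((Measure.pi ν).prod μ).map (fun p => Function.update p.1 k p.2) =
      Measure.pi (Function.update ν k μ) := by
    refine (Measure.pi_eq fun s hs => ?_).symm
    rw [Measure.map_apply measurable_update' (MeasurableSet.univ_pi hs)]
    have h : (fun p : (Fin m → X) × X => Function.update p.1 k p.2) ⁻¹' Set.univ.pi s =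
        Set.univ.pi (Function.update s k Set.univ) ×ˢ s k := by
      ext ⟨ω, ρ⟩
      simp only [Set.mem_preimage, Set.mem_pi, Set.mem_univ, true_imp_iff, Set.mem_prod]
      constructor
      · intro h
        refine ⟨fun i => ?_, by simpa using h k⟩
        by_cases hi : i = k
        · simp [hi]
        · simpa [hi] using h i
      · rintro ⟨h1, h2⟩ i
        by_cases hi : i = k
        · simpa [hi] using h2
        · simpa [hi] using h1 i
    rw [h, Measure.prod_prod, Measure.pi_pi, ← prod_erase_mul _ _ (mem_univ k),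
      ← prod_erase_mul _ _ (mem_univ k)]
    simp only [Function.update_self, measure_univ, mul_one]
    congr 1
    exact prod_congr rfl fun i hi => by
      rw [Function.update_of_ne (ne_of_mem_erase hi), Function.update_of_ne (ne_of_mem_erase hi)]
  rw [← h1, lintegral_map hG measurable_update']
  exact lintegral_prod _ (hG.comp measurable_update').aemeasurable

/-- The indicator of the position of row `k` in `I`. -/
noncomputable def rsChi (I : Sub m n) (k : Fin m) (l : Fin n) : ℝ :=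
  if I.1.orderEmbOfFin I.2 l = k then 1 else 0

theorem rs_chi (I : Sub m n) (k : Fin m) (u : Fin n → ℝ) : |rsChi I k ⬝ᵥ u| ≤ ‖u‖ := by
  by_cases h : ∃ l, I.1.orderEmbOfFin I.2 l = k
  · obtain ⟨l, hl⟩ := h
    rw [dotProduct, sum_eq_single l]
    · simpa [rsChi, hl] using norm_le_pi_norm u l
    · intro i _ hi
      have : I.1.orderEmbOfFin I.2 i ≠ k := fun h =>
        hi ((I.1.orderEmbOfFin I.2).injective (h.trans hl.symm))
      simp [rsChi, this]
    · simp
  · rw [dotProduct, sum_eq_zero]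
    · simp
    · intro i _
      have : I.1.orderEmbOfFin I.2 i ≠ k := fun h' => h ⟨i, h'⟩
      simp [rsChi, this]

theorem rs_comb (ω : Fin m → Row n) (I : Sub m n) (k : Fin m) (ρ ρ' : Row n) (u : Fin n → ℝ) :
    comb (Function.update ω k ρ') I u =
      comb (Function.update ω k ρ) I u + (rsChi I k ⬝ᵥ u) • (ρ'.1 - ρ.1) := by
  rw [comb, comb, dotProduct, sum_smul, ← sum_add_distrib]
  refine sum_congr rfl fun l _ => ?_
  by_cases h : I.1.orderEmbOfFin I.2 l = k
  · simp [rsChi, h, smul_sub]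
  · simp [rsChi, h]

theorem rs_lin (r : Fin m → Row n) (I : Sub m n) (a w : Fin n → ℝ) (t : ℝ) :
    comb r I (a + t • w) = comb r I a + t • comb r I w := by
  simp only [comb, Pi.add_apply, Pi.smul_apply, smul_eq_mul, add_smul, sum_add_distrib, smul_sum,
    mul_smul]

theorem rs_vol (χ w : Fin n → ℝ) (h : |χ ⬝ᵥ w| ≤ 1 / 2) {A A' : Set (Fin n → ℝ)}
    (hA : ∀ a ∈ A, a + (χ ⬝ᵥ a) • w ∈ A') : volume A ≤ 2 * volume A' := by
  have h1 := Measure.addHaar_image_linearMap (volume : Measure (Fin n → ℝ))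
    (Matrix.toLin' (1 + Matrix.vecMulVec w χ)) A
  rw [LinearMap.det_toLin', Matrix.vecMulVec_eq Unit,
    Matrix.det_one_add_replicateCol_mul_replicateRow, ← Matrix.vecMulVec_eq Unit] at h1
  have h2 : Matrix.toLin' (1 + Matrix.vecMulVec w χ) '' A ⊆ A' := by
    rintro _ ⟨a, ha, rfl⟩
    have := hA a ha
    rwa [Matrix.toLin'_apply, Matrix.add_mulVec, Matrix.one_mulVec, Matrix.vecMulVec_mulVec,
      op_smul_eq_smul]
  have h3 : 1 / 2 ≤ |1 + χ ⬝ᵥ w| := le_trans (by linarith [(abs_le.1 h).1]) (le_abs_self _)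
  calc volume A = 2 * (ENNReal.ofReal (1 / 2) * volume A) := by
        rw [← mul_assoc, ← ENNReal.ofReal_ofNat, ← ENNReal.ofReal_mul (by norm_num)]
        simp
    _ ≤ 2 * (ENNReal.ofReal |1 + χ ⬝ᵥ w| * volume A) := by gcongr
    _ ≤ _ := by
        rw [← h1]
        gcongr

theorem rs_sec (hn : 2 ≤ n) (I : Sub m n) (c : Fin n → ℝ) {κ s g δ : ℝ} (hs0 : 0 ≤ s)
    (hs : s ≤ 1 / (3 * n ^ 2)) (hδ : 0 ≤ δ) (hκ : 0 < κ) (h3 : 3 * δ ≤ κ) {S B : Finset (Fin m)}
    {k : Fin m} (hk : k ∉ B) (hS : k ∈ S) (ω : Fin m → Row n) {ρ ρ' : Row n} (h : ‖ρ' - ρ‖ ≤ δ) :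
    volume (Prod.mk (Function.update ω k ρ) ⁻¹' evB I c κ s g S B k) ≤
      2 * volume (Prod.mk (Function.update ω k ρ') ⁻¹'
        evP I c (κ - δ) (s + 6 * δ / κ) (S.erase k) B) := by
  rcases Set.eq_empty_or_nonempty (Prod.mk (Function.update ω k ρ) ⁻¹' evB I c κ s g S B k) with
    h0 | ⟨a₀, ⟨hsm, -⟩, -⟩
  · simp [h0]
  have he : ‖ρ'.1 - ρ.1‖ ≤ δ := (norm_fst_le (ρ' - ρ)).trans h
  have hsm' : Sm (κ - δ) (Function.update ω k ρ') I := by
    intro u
    have a1 : κ * ‖u‖ ≤ ‖comb (Function.update ω k ρ) I u‖ := hsm u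
    have a2 : ‖(rsChi I k ⬝ᵥ u) • (ρ'.1 - ρ.1)‖ ≤ ‖u‖ * δ := by
      rw [norm_smul, Real.norm_eq_abs]
      exact mul_le_mul (rs_chi I k u) he (norm_nonneg _) (norm_nonneg _)
    have a3 := norm_sub_le (comb (Function.update ω k ρ') I u) ((rsChi I k ⬝ᵥ u) • (ρ'.1 - ρ.1))
    rw [rs_comb ω I k ρ ρ' u, add_sub_cancel_right, ← rs_comb ω I k ρ ρ' u] at a3
    linarith
  have hκδ : 0 < κ - δ := by linarith
  obtain ⟨w, hw, hw1⟩ := hsm'.surj hκδ (-(ρ'.1 - ρ.1))
  rw [norm_neg] at hw1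
  have hw2 : ‖w‖ ≤ δ / (κ - δ) := hw1.trans (by gcongr)
  have hw3 : ‖w‖ ≤ 1 / 2 := hw2.trans (by rw [div_le_div_iff₀ hκδ two_pos]; linarith)
  have hw4 : 2 * ‖w‖ ≤ 3 * δ / κ := by
    have : 2 * (δ / (κ - δ)) ≤ 3 * δ / κ := by
      rw [← mul_div_assoc, div_le_div_iff₀ hκδ hκ]
      nlinarith
    linarith
  refine rs_vol (rsChi I k) w ((rs_chi I k w).trans hw3) ?_
  rintro a ⟨⟨-, ha⟩, ⟨x, hx, -⟩, hd⟩
  have ha2 : ‖a‖ ≤ 2 := pyrS_norm hn hs0 hs ha
  have hv : ‖(rsChi I k ⬝ᵥ a) • w‖ ≤ 3 * δ / κ := by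
    rw [norm_smul, Real.norm_eq_abs]
    exact (mul_le_mul_of_nonneg_right ((rs_chi I k a).trans ha2) (norm_nonneg _)).trans hw4
  have hp := pyrS_add (by omega) ha hv
  rw [show s + 2 * (3 * δ / κ) = s + 6 * δ / κ by ring] at hp
  have hc : comb (Function.update ω k ρ') I (a + (rsChi I k ⬝ᵥ a) • w) =
      comb (Function.update ω k ρ) I a := by
    rw [rs_lin, hw, rs_comb ω I k ρ ρ' a, smul_neg, add_neg_cancel_right]
  refine ⟨⟨hsm', hp⟩, ⟨x, ?_⟩, ?_⟩
  · exact (isBFS_update_erase hk).2 ((isBFS_update_erase hk).1 ((isBFS_erase hk hS).1 hx).1)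
  · change OnDual (Function.update ω k ρ') (comb (Function.update ω k ρ') I
      (a + (rsChi I k ⬝ᵥ a) • w)) c B
    rw [hc]
    exact (onDual_update hk).2 ((onDual_update hk).1 hd)

theorem resample {ν : Fin m → Measure (Row n)} [∀ i, IsProbabilityMeasure (ν i)]
    {ν' : Measure (Row n)} [IsProbabilityMeasure ν'] (hn : 2 ≤ n) (I : Sub m n) (c : Fin n → ℝ)
    {κ s g δ ε : ℝ} (hs0 : 0 ≤ s) (hs : s ≤ 1 / (3 * n ^ 2)) (hδ : 0 ≤ δ) (hκ : 0 < κ)
    (h3 : 3 * δ ≤ κ) {S B : Finset (Fin m)} {k : Fin m} (hk : k ∉ B) (hS : k ∈ S)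
    (hR : Res (ν k) ν' g δ ε) :
    (Measure.pi ν).prod volume (evB I c κ s g S B k) ≤ 2 * ENNReal.ofReal ε *
      (Measure.pi (Function.update ν k ν')).prod volume
        (evP I c (κ - δ) (s + 6 * δ / κ) (S.erase k) B) := by
  have hE := meas_evB I c κ s g S B k
  have hF := meas_evP I c (κ - δ) (s + 6 * δ / κ) (S.erase k) B
  have mE := measurable_measure_prodMk_left (ν := (volume : Measure (Fin n → ℝ))) hE
  have mF := measurable_measure_prodMk_left (ν := (volume : Measure (Fin n → ℝ))) hF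
  have e := rs_update ν k (ν k) mE
  rw [Function.update_eq_self] at e
  rw [Measure.prod_apply hE, Measure.prod_apply hF, e, rs_update ν k ν' mF,
    ← lintegral_const_mul' _ _ (ENNReal.mul_ne_top ENNReal.ofNat_ne_top ENNReal.ofReal_ne_top)]
  refine lintegral_mono fun ω => ?_
  by_cases h0 : ∀ ρ, volume (Prod.mk (Function.update ω k ρ) ⁻¹' evB I c κ s g S B k) = 0
  · simp [h0]
  obtain ⟨ρ₀, h1⟩ := not_forall.1 h0
  obtain ⟨a₀, -, ⟨x, hx, -⟩, -⟩ := nonempty_of_measure_ne_zero h1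
  have hx0 : IsBFS ω (S.erase k) B x := (isBFS_update_erase hk).1 ((isBFS_erase hk hS).1 hx).1
  have h2 := hR x (fun ρ => volume (Prod.mk (Function.update ω k ρ) ⁻¹' evB I c κ s g S B k))
    (fun ρ => 2 * volume (Prod.mk (Function.update ω k ρ) ⁻¹'
      evP I c (κ - δ) (s + 6 * δ / κ) (S.erase k) B)) (mE.comp (measurable_update ω))
    ((mF.comp (measurable_update ω)).const_mul 2) (fun ρ hρ => ?_)
    fun ρ ρ' h => rs_sec hn I c hs0 hs hδ hκ h3 hk hS ω h
  · rw [lintegral_const_mul' _ _ ENNReal.ofNat_ne_top, ← mul_assoc, mul_comm _ 2] at h2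
    exact h2
  · obtain ⟨a, -, ⟨x', hx', h4⟩, -⟩ := nonempty_of_measure_ne_zero hρ
    have h5 := (isBFS_erase hk hS).1 hx'
    have h6 : x' = x := ((isBFS_update_erase hk).1 h5.1).unique hx0
    have h7 := h5.2
    simp only [Function.update_self, h6] at h4 h7
    rwa [abs_of_nonneg h7]

end Pool.Agent.Lib.MP_3b7f8d_lc.ST
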