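import Mathlib
import Pool.Agent.Lib.MP_3b7f8d_lc.ST.Shift
import Pool.Agent.Lib.MP_3b7f8d_lc.ST.Resample
import Pool.Agent.Lib.MP_3b7f8d_lc.ST.Good
import Pool.Agent.Lib.MP_3b7f8d_lc.ST.Res
import Pool.Agent.Lib.MP_3b7f8d_lc.ST.Law
import Pool.Agent.Lib.MP_3b7f8d_lc.FP.Step
import Pool.Agent.Lib.MP_3b7f8d_lc.Limit

/-! The expected length of the path of phase one. -/

namespace Pool.Agent.Lib.MP_3b7f8d_lc.ST

open Finset MeasureTheory
open scoped ENNReal

variable {n m : ℕ}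

theorem one_evP_mono (I : Sub m n) (c : Fin n → ℝ) {κ κ' s s' : ℝ} (hκ : κ' ≤ κ) (hs : s ≤ s')
    (S B : Finset (Fin m)) : evP I c κ s S B ⊆ evP I c κ' s' S B :=
  fun _ hp => ⟨⟨fun u => (mul_le_mul_of_nonneg_right hκ (norm_nonneg u)).trans (hp.1.1 u),
    pyrS_mono hs hp.1.2⟩, hp.2⟩

theorem one_ind {U κ δ g ε : ℝ} (I : Sub m n) (c : Fin n → ℝ)
    (hn : 2 ≤ n) (hnU : (n : ℝ) + 1 ≤ U) (hm : (m : ℝ) ≤ U) (hδ : 0 < δ) (hg : 0 < g)
    (hδg : δ * g ≤ 1) (hε : 0 ≤ ε) (hmε : 4 * m * ε ≤ 1)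
    (hκ : 3 * n ^ 2 * (m + 1) * (4 * n + 12) * δ ≤ κ) (j : ℕ) :
    j ≤ m → ∀ S : Finset (Fin m), S.card = j → ∀ ν : Fin m → Measure (Row n),
      ∀ _ : ∀ i, IsProbabilityMeasure (ν i),
      (∀ i, ∫⁻ ρ, ENNReal.ofReal ‖ρ‖ ∂ν i ≤ ENNReal.ofReal U) → (∀ i ∈ S, FQ.RowOK (ν i) U) →
      (∀ i ∈ S, i ∉ I.1 → FQ.Small (ν i) U) →
      (∀ i ∈ S, ∃ ν' : Measure (Row n), IsProbabilityMeasure ν' ∧
        ∫⁻ ρ, ENNReal.ofReal ‖ρ‖ ∂ν' ≤ ENNReal.ofReal U ∧ Res (ν i) ν' g δ ε) →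
      ∑ B, (Measure.pi ν).prod volume
        (evP I c (κ / 2 + j * δ) ((m - j) * ((4 * n + 12) * δ / κ)) S B) ≤
        2 * (ENNReal.ofReal (300 * U ^ 12 / (δ * g)) * (3 * volume (pyr n))) := by
  have hn2 : (2 : ℝ) ≤ n := by exact_mod_cast hn
  have hm0 : (0 : ℝ) ≤ m := Nat.cast_nonneg m
  have hA : (240 : ℝ) ≤ 3 * n ^ 2 * (m + 1) * (4 * n + 12) := by
    calc (240 : ℝ) = 3 * 2 ^ 2 * (0 + 1) * (4 * 2 + 12) := by norm_num
      _ ≤ _ := by gcongr
  have hκδ : 240 * δ ≤ κ := (mul_le_mul_of_nonneg_right hA hδ.le).trans hκ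
  have hκ0 : 0 < κ := by linarith
  induction j with
  | zero =>
    intro _ S hS ν _ _ _ _ _
    refine le_of_eq_of_le (sum_eq_zero fun B _ => measure_mono_null (fun p hp => ?_) measure_empty)
      zero_le
    obtain ⟨-, ⟨x, h1, h2, -⟩, -⟩ := hp
    have := card_le_card h1
    omega
  | succ j ih =>
    intro hj S hS ν hp hmom hν hsm hres
    choose! ν' hp' hmom' hR using hres
    have hj0 : (0 : ℝ) ≤ j := Nat.cast_nonneg j
    have hj1 : (j : ℝ) + 1 ≤ m := by exact_mod_cast hj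
    have hjδ : 0 ≤ (j : ℝ) * δ := by positivity
    set T := ENNReal.ofReal (300 * U ^ 12 / (δ * g)) * (3 * volume (pyr n)) with hT
    set s₁ : ℝ := (4 * n + 12) * δ / κ with hs₁
    have hs₁0 : 0 ≤ s₁ := by positivity
    push_cast
    set k₁ : ℝ := κ / 2 + (j + 1) * δ with hk₁
    have hk : κ / 2 ≤ k₁ := by rw [hk₁]; nlinarith
    have hk0 : 0 < k₁ := by linarith
    set s : ℝ := (m - (j + 1)) * s₁ + 2 * (n * δ / k₁) with hs
    have hs0 : 0 ≤ s := add_nonneg (mul_nonneg (by linarith) hs₁0) (by positivity)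
    have hs1 : s + 6 * δ / k₁ ≤ (m - j) * s₁ := by
      have h1 : 2 * (n * δ / k₁) + 6 * δ / k₁ ≤ s₁ := by
        calc _ = (2 * n + 6) * δ / k₁ := by ring
          _ ≤ (2 * n + 6) * δ / (κ / 2) := by gcongr
          _ = _ := by rw [hs₁]; field_simp; ring
      rw [hs]
      linarith
    have hs2 : s ≤ 1 / (3 * n ^ 2) := by
      have h1 : 0 ≤ 6 * δ / k₁ := by positivity
      have h2 : (m + 1) * s₁ ≤ 1 / (3 * n ^ 2) := by
        rw [hs₁, ← mul_div_assoc, div_le_div_iff₀ hκ0 (by positivity)]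
        linarith
      nlinarith
    have h1 : ∀ B, (Measure.pi ν).prod volume (evP I c k₁ ((m - (j + 1)) * s₁) S B) ≤
        (Measure.pi ν).prod volume (evG I c k₁ s δ g S B) +
        ∑ k ∈ S, 2 * ENNReal.ofReal ε * (Measure.pi (Function.update ν k (ν' k))).prod volume
          (evP I c (κ / 2 + j * δ) ((m - j) * s₁) (S.erase k) B) := by
      intro B
      refine (shift _ (by omega) I c hk0 hδ.le S B).trans ((measure_mono
        (Set.subset_sdiff_union _ (⋃ k ∈ S \ B, evB I c k₁ s g S B k))).trans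
        ((measure_union_le _ _).trans (add_le_add_right ((measure_biUnion_finset_le _ _).trans
          ((sum_le_sum fun k hk' => ?_).trans (sum_le_sum_of_subset sdiff_subset))) _)))
      have hkS := (mem_sdiff.1 hk').1
      have := hp' k hkS
      refine (resample hn I c hs0 hs2 hδ.le hk0 (by linarith) (mem_sdiff.1 hk').2 hkS
        (hR k hkS)).trans (mul_le_mul_right (measure_mono (one_evP_mono I c ?_ hs1 _ _)) _)
      rw [hk₁]
      linarith
    refine (sum_le_sum fun B _ => h1 B).trans ?_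
    rw [sum_add_distrib, sum_comm, two_mul T]
    refine add_le_add ((sum_good I c hmom hν hsm hn hnU hm hs0 hs2 hδ hg hδg).trans
      (mul_le_mul_right (pyrS_vol hn hs0 hs2) _)) ((sum_le_card_nsmul _ _
        (2 * ENNReal.ofReal ε * (2 * T)) fun k hkS => ?_).trans ?_)
    · rw [← mul_sum]
      refine mul_le_mul_right (ih (by omega) _ (by rw [card_erase_of_mem hkS]; omega) _
        (FP.prob_update (C := fun _ μ => IsProbabilityMeasure μ) hp (hp' k hkS))
        (FP.prob_update (C := fun _ μ => ∫⁻ ρ, ENNReal.ofReal ‖ρ‖ ∂μ ≤ ENNReal.ofReal U) hmom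
          (hmom' k hkS)) (fun i hi => ?_) (fun i hi => ?_) fun i hi => ?_) _
      all_goals rw [Function.update_of_ne (ne_of_mem_erase hi)]
      · exact hν i (mem_of_mem_erase hi)
      · exact hsm i (mem_of_mem_erase hi)
      · have hi' := mem_of_mem_erase hi
        exact ⟨_, hp' i hi', hmom' i hi', hR i hi'⟩
    · have h2 : (S.card : ℝ≥0∞) * (4 * ENNReal.ofReal ε) ≤ 1 := by
        rw [← ENNReal.ofReal_natCast, ← ENNReal.ofReal_ofNat 4, ← ENNReal.ofReal_mul (by norm_num),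
          ← ENNReal.ofReal_mul (by positivity), ENNReal.ofReal_le_one, hS]
        push_cast
        nlinarith
      calc _ = (S.card : ℝ≥0∞) * (4 * ENNReal.ofReal ε) * T := by
            rw [nsmul_eq_mul]
            ring
        _ ≤ 1 * T := mul_le_mul_left h2 _
        _ = T := one_mul _

theorem one_rec {ν : Fin m → Measure (Row n)} [∀ i, IsProbabilityMeasure (ν i)] {U κ δ g ε : ℝ}
    (I : Sub m n) (c : Fin n → ℝ) (hν : ∀ i, FQ.RowOK (ν i) U)
    (hsm : ∀ i ∉ I.1, FQ.Small (ν i) U)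
    (hres : ∀ i, ∃ ν' : Measure (Row n), IsProbabilityMeasure ν' ∧
      ∫⁻ ρ, ENNReal.ofReal ‖ρ‖ ∂ν' ≤ ENNReal.ofReal U ∧ Res (ν i) ν' g δ ε)
    (hn : 2 ≤ n) (hnU : (n : ℝ) + 1 ≤ U) (hm : (m : ℝ) ≤ U) (hδ : 0 < δ) (hg : 0 < g)
    (hδg : δ * g ≤ 1) (hε : 0 ≤ ε) (hmε : 4 * m * ε ≤ 1)
    (hκ : 3 * n ^ 2 * (m + 1) * (4 * n + 12) * δ ≤ κ) :
    ∑ B, (Measure.pi ν).prod volume (evP I c κ 0 univ B) ≤
      ENNReal.ofReal (1800 * U ^ 12 / (δ * g)) * volume (pyr n) := by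
  have hn2 : (2 : ℝ) ≤ n := by exact_mod_cast hn
  have hm0 : (0 : ℝ) ≤ m := Nat.cast_nonneg m
  have hA : 240 * ((m : ℝ) + 1) ≤ 3 * n ^ 2 * (m + 1) * (4 * n + 12) := by
    calc _ = 3 * 2 ^ 2 * ((m : ℝ) + 1) * (4 * 2 + 12) := by ring
      _ ≤ _ := by gcongr
  have hκδ := (mul_le_mul_of_nonneg_right hA hδ.le).trans hκ
  have h := one_ind I c hn hnU hm hδ hg hδg hε hmε hκ m le_rfl univ (by simp) ν inferInstance
    (fun i => (hν i).mom) (fun i _ => hν i) (fun i _ => hsm i) fun i _ => hres i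
  refine (sum_le_sum fun B _ => measure_mono (one_evP_mono I c ?_ ?_ _ B)).trans (h.trans_eq ?_)
  · nlinarith [mul_nonneg hm0 hδ.le]
  · simp
  · rw [show 1800 * U ^ 12 / (δ * g) = 6 * (300 * U ^ 12 / (δ * g)) by ring,
      ENNReal.ofReal_mul (p := 6) (by norm_num), ENNReal.ofReal_ofNat]
    ring

theorem one_smul {r : Fin m → Row n} {I : Sub m n} {c a : Fin n → ℝ} {B : Finset (Fin m)} {t : ℝ}
    (ht : 0 < t) (h : OnPath r univ (comb r I a) c B) : OnPath r univ (comb r I (t • a)) c B := by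
  obtain ⟨hx, s, y, hs, hy, e⟩ := h
  refine ⟨hx, t * s, fun i => t * y i, by positivity, fun i hi => mul_nonneg ht.le (hy i hi), ?_⟩
  have h1 : comb r I (t • a) = t • comb r I a := by
    simp only [comb, smul_sum, Pi.smul_apply, smul_assoc]
  simp only [mul_smul]
  rw [h1, ← smul_add, e, smul_sum]

theorem one_cone (hn : 2 ≤ n) (Q : Measure (Fin m → Row n)) [SFinite Q] (I : Sub m n)
    (c : Fin n → ℝ) (κ : ℝ) (B : Finset (Fin m)) :
    Q.prod (simplexLaw n) {p | Sm κ p.1 I ∧ OnPath p.1 univ (comb p.1 I p.2) c B} =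
      (volume (pyr n))⁻¹ * Q.prod volume (evP I c κ 0 univ B) := by
  have := prob_simplex hn
  have hE : MeasurableSet {p : (Fin m → Row n) × (Fin n → ℝ) |
      Sm κ p.1 I ∧ OnPath p.1 univ (comb p.1 I p.2) c B} :=
    ((isClosed_sm κ I).preimage continuous_fst).measurableSet.inter (meas_path I c univ B)
  rw [Measure.prod_apply hE, Measure.prod_apply (meas_evP I c κ 0 univ B),
    ← lintegral_const_mul _ (measurable_measure_prodMk_left (meas_evP I c κ 0 univ B))]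
  refine lintegral_congr fun r => ?_
  have hr := measurable_prodMk_left (x := r) hE
  rw [← lintegral_indicator_one hr, lintegral_simplex hn (measurable_one.indicator hr),
    lintegral_indicator_one hr, Measure.restrict_apply hr]
  · congr 2
    ext a
    simp only [evP, evO, pyrS_zero, Set.mem_inter_iff, Set.mem_preimage, Set.mem_ofPred_eq]
    tauto
  · intro t a ht
    refine Set.indicator_eq_indicator ?_ rfl
    refine and_congr_right fun _ => ⟨fun h => ?_, one_smul ht⟩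
    simpa [smul_smul, inv_mul_cancel₀ ht.ne'] using one_smul (inv_pos.2 ht) h

theorem one_bound {f : ℝ → ℝ} {κ : ℝ} (hf : FP.Den f κ) :
    ∃ C : ℝ, ∃ k : ℕ, 1 ≤ C ∧ ∀ σ : ℝ, 0 < σ → σ ≤ 1 → ∀ (m n : ℕ) (v η κ₀ : ℝ)
      (A : Fin m → Fin n → ℝ) (b : Fin m → ℝ) (I : Sub m n) (c : Fin n → ℝ), 2 ≤ n →
      (∀ i l, |A i l| ≤ 1) → 0 < η → η ≤ 1 → 0 < κ₀ → κ₀ ≤ 1 → m + n + 1 / σ ≤ v →
      ∫⁻ p, {p | Sm κ₀ p.1 I}.indicator (fun p => (cnt1 I η c p.1 p.2 : ℝ≥0∞)) p
        ∂(inputLaw f σ A b).prod (simplexLaw n) ≤ ENNReal.ofReal (C * (v / κ₀) ^ k) := by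
  have hκ := hf.kappa
  refine ⟨1800 * 16 ^ 12 * 131072 * (2 + κ) ^ 61, 122, ?_, ?_⟩
  · have : (1 : ℝ) ≤ (2 + κ) ^ 61 := one_le_pow₀ (by linarith)
    linarith
  intro σ hσ hσ1 m n v η κ₀ A b I c hn hA hη hη1 hκ₀ hκ₁ hv
  have hn2 : (2 : ℝ) ≤ n := by exact_mod_cast hn
  have hm0 : (0 : ℝ) ≤ m := Nat.cast_nonneg m
  have hσ' : 1 ≤ 1 / σ := (one_le_div hσ).2 hσ1
  have hv3 : 3 ≤ v := by linarith
  obtain ⟨U, hU⟩ : ∃ U, U = (2 + κ) * v ^ 2 := ⟨_, rfl⟩
  have hvv : 3 * v ≤ v ^ 2 := by nlinarith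
  have hU1 : 2 * v ^ 2 ≤ U := by rw [hU]; nlinarith
  have hU2 : n * (1 + κ) + 1 ≤ U := by
    have h1 : (n : ℝ) * (1 + κ) ≤ v ^ 2 * (1 + κ) := by gcongr; linarith
    rw [hU]
    nlinarith
  have hU3 : 2 * (n + 1) * (1 / σ) ≤ U := by
    refine le_trans ?_ hU1
    calc _ ≤ 2 * v * v := by gcongr <;> linarith
      _ = _ := by ring
  have hU4 : 1 ≤ U := by linarith
  have hU0 : 0 < U := by linarith
  have hUU : U ≤ 4 * U ^ 2 * (4 * U ^ 2) := by
    have h1 : U ≤ U ^ 4 := le_self_pow₀ hU4 (by norm_num)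
    nlinarith
  have hN : ∀ i j, Nice (pert f σ (A i j)) (1 / σ) (1 + κ) := fun i j => hf.nice hσ hσ1 (hA i j)
  have hp := fun i j => (hN i j).prob
  have hpb : ∀ u, IsProbabilityMeasure (pert f σ u) := fun u => (hf.nice hσ hσ1 (le_refl |u|)).prob
  have hb : ∀ i, 0 < bet I η i ∧ bet I η i ≤ 1 := fun i => by
    unfold bet
    split_ifs
    exacts [⟨hη, hη1⟩, ⟨one_pos, le_rfl⟩]
  have hδ : 0 < κ₀ / (8 * U ^ 2) := by positivity
  have hδ1 : κ₀ / (8 * U ^ 2) ≤ 1 := by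
    rw [div_le_one (by positivity)]
    nlinarith
  have key := one_rec (ν := fun i => (Measure.pi fun j => pert f σ (A i j)).prod
    (Measure.dirac (bet I η i))) (U := 4 * U ^ 2 * (4 * U ^ 2)) (κ := κ₀) (δ := κ₀ / (8 * U ^ 2))
    (g := κ₀ / (8 * U ^ 2) / (32 * U ^ 3 * (4 * U ^ 2) ^ 3)) (ε := U / (4 * U ^ 2)) I c
    (fun i => FQ.rowOK (R := 1) (hN i) (by positivity) (by positivity) zero_le_one ?_ ?_
      (hU3.trans hUU) (hU2.trans hUU)) (fun i hi ε hε => ?_)
    (fun i => res_row (hN i) (by omega) (hb i).1.ne' (by rw [abs_of_pos (hb i).1]; exact (hb i).2)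
      (by positivity) (by linarith) (by positivity) hU2 (by linarith) (by nlinarith) hδ hδ1)
    hn (by linarith) (by linarith) hδ (by positivity) ?_ (by positivity) ?_ ?_
  rotate_left
  · rw [Measure.dirac_apply, Set.indicator_of_notMem (by simpa using (hb i).1.ne')]
  · rw [lintegral_dirac, abs_of_pos (hb i).1]
    exact ENNReal.ofReal_le_ofReal (hb i).2
  · by_cases h : 1 ≤ ε
    · exact prob_le_one.trans (ENNReal.one_le_ofReal.2 (by nlinarith))
    · refine le_of_eq_of_le ?_ zero_le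
      refine (measurePreserving_snd.measure_preimage (s := {b : ℝ | |b| ≤ ε})
        (isClosed_le (by fun_prop) (by fun_prop)).measurableSet.nullMeasurableSet).trans ?_
      rw [Measure.dirac_apply, Set.indicator_of_notMem (by simpa [bet, hi] using h)]
  · refine mul_le_one₀ hδ1 (by positivity) ((div_le_self hδ.le ?_).trans hδ1)
    have h1 : 1 ≤ U ^ 3 := one_le_pow₀ hU4
    have h2 : 1 ≤ (4 * U ^ 2) ^ 3 := one_le_pow₀ (by nlinarith)
    nlinarith
  · calc _ = m / U := by field_simp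
      _ ≤ 1 := (div_le_one hU0).2 (by linarith)
  · rw [← mul_div_assoc, div_le_iff₀ (by positivity), mul_comm]
    refine mul_le_mul_of_nonneg_left ?_ hκ₀.le
    calc _ ≤ 3 * v ^ 2 * v * (10 * v) := by gcongr <;> linarith
      _ = 30 / 4 * (2 * v ^ 2) ^ 2 := by ring
      _ ≤ 8 * U ^ 2 := by gcongr; norm_num
  have := prob_simplex hn
  have hP : IsProbabilityMeasure (inputLaw f σ A b) := by unfold inputLaw; infer_instance
  have hQ : IsProbabilityMeasure (FP.sysLaw f σ A fun i => Measure.dirac (bet I η i)) := by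
    unfold FP.sysLaw; infer_instance
  have hM := (law_sys1 hf hσ hσ1 A b I η).prod (MeasurePreserving.id (simplexLaw n))
  set E : Finset (Fin m) → Set ((Fin m → Row n) × (Fin n → ℝ)) := fun B =>
    {p | Sm κ₀ p.1 I ∧ OnPath p.1 univ (comb p.1 I p.2) c B} with hE
  have hEm : ∀ B, MeasurableSet (E B) := fun B =>
    ((isClosed_sm κ₀ I).preimage continuous_fst).measurableSet.inter (meas_path I c univ B)
  calc _ = ∫⁻ p, ∑ B, (Prod.map (sys1 I η) id ⁻¹' E B).indicator 1 p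
        ∂(inputLaw f σ A b).prod (simplexLaw n) := by
        refine lintegral_congr fun p => ?_
        by_cases h : Sm κ₀ p.1 I
        · rw [Set.indicator_of_mem (s := {p : (Fin m → Row n) × (Fin n → ℝ) | Sm κ₀ p.1 I}) h, cnt1,
            show {B | OnPath (sys1 I η p.1) univ (comb p.1 I p.2) c B} =
              {B | p ∈ Prod.map (sys1 I η) id ⁻¹' E B} from
              Set.ext fun B => ⟨fun h' => ⟨h, h'⟩, fun h' => h'.2⟩, ncard_eq_sum]
          push_cast
          refine sum_congr rfl fun B _ => ?_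
          by_cases h' : p ∈ Prod.map (sys1 I η) id ⁻¹' E B <;> simp [h']
        · rw [Set.indicator_of_notMem (s := {p : (Fin m → Row n) × (Fin n → ℝ) | Sm κ₀ p.1 I}) h]
          exact (sum_eq_zero fun B _ => Set.indicator_of_notMem (fun h' => h h'.1) _).symm
    _ = ∑ B, (volume (pyr n))⁻¹ * (FP.sysLaw f σ A fun i => Measure.dirac (bet I η i)).prod volume
          (evP I c κ₀ 0 univ B) := by
        rw [lintegral_finsetSum _ fun B _ => measurable_one.indicator (hM.measurable (hEm B))]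
        refine sum_congr rfl fun B _ => ?_
        rw [lintegral_indicator_one (hM.measurable (hEm B)),
          hM.measure_preimage (hEm B).nullMeasurableSet]
        exact one_cone hn _ I c κ₀ B
    _ ≤ (volume (pyr n))⁻¹ * (ENNReal.ofReal _ * volume (pyr n)) := by
        rw [← mul_sum]
        exact mul_le_mul_right key _
    _ ≤ _ := by
        rw [mul_left_comm, ENNReal.inv_mul_cancel (law_vol_zero hn) (law_vol_top hn), mul_one]
        refine ENNReal.ofReal_le_ofReal ?_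
        calc _ = 1800 * 16 ^ 12 * 131072 * (U ^ 61 / κ₀ ^ 2) := by field_simp; ring
          _ ≤ 1800 * 16 ^ 12 * 131072 * (U ^ 61 / κ₀ ^ 122) :=
            mul_le_mul_of_nonneg_left (div_le_div_of_nonneg_left (by positivity) (by positivity)
              (pow_le_pow_of_le_one hκ₀.le hκ₁ (by norm_num))) (by positivity)
          _ = _ := by rw [hU, div_pow, mul_pow, ← pow_mul, mul_div_assoc, ← mul_assoc]

end Pool.Agent.Lib.MP_3b7f8d_lc.ST
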