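import Mathlib
import Pool.Agent.Lib.MP_3b7f8d_lc.ST.Eta

/-! The executions of the method of Spielman and Teng. -/

namespace Pool.Agent.Lib.MP_3b7f8d_lc.ST

open Finset

variable {n m : ℕ}

theorem run_dot (a : ℝ) (u : Fin n → ℝ) (x : Fin (n + 1) → ℝ) :
    (Fin.cons a u : Fin (n + 1) → ℝ) ⬝ᵥ x = a * x 0 + u ⬝ᵥ Fin.tail x := by
  simp [dotProduct, Fin.sum_univ_succ, Fin.tail]

theorem run_dot' (a b : ℝ) (u x : Fin n → ℝ) :
    (Fin.cons a u : Fin (n + 1) → ℝ) ⬝ᵥ Fin.cons b x = a * b + u ⬝ᵥ x := by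
  rw [run_dot, Fin.cons_zero, Fin.tail_cons]

theorem run_enter {ι : Type} [Fintype ι] [DecidableEq ι] {r : ι → Row n} {B : Finset ι}
    {x z w d : Fin n → ℝ} {i : ι} (h : IsBFS r univ B x) (hL : Leaves r z w B i d)
    (hb : ∃ j, 0 < (r j).1 ⬝ᵥ d) :
    ∃ j x', 0 < (r j).1 ⬝ᵥ d ∧ IsBFS r univ (insert j (B.erase i)) x' := by
  have hne : (univ.filter fun l => 0 < (r l).1 ⬝ᵥ d).Nonempty :=
    hb.imp fun j hj => mem_filter.2 ⟨mem_univ _, hj⟩
  obtain ⟨j, hj, hmin⟩ := exists_min_image _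
    (fun l => ((r l).2 - (r l).1 ⬝ᵥ x) / ((r l).1 ⬝ᵥ d)) hne
  obtain ⟨hjS, hjd⟩ := mem_filter.1 hj
  have hs0 : 0 ≤ ((r j).2 - (r j).1 ⬝ᵥ x) / ((r j).1 ⬝ᵥ d) :=
    div_nonneg (sub_nonneg.2 (h.2.2.2.2 j hjS)) hjd.le
  refine ⟨j, x + (((r j).2 - (r j).1 ⬝ᵥ x) / ((r j).1 ⬝ᵥ d)) • d, hjd,
    bfs_exchange h hL.1 hL.2.2.1 hjd.ne' Subset.rfl hjS ?_ fun l hl => ?_⟩
  · rw [dotProduct_add, dotProduct_smul, smul_eq_mul, div_mul_cancel₀ _ hjd.ne']
    ring
  · rw [dotProduct_add, dotProduct_smul, smul_eq_mul]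
    by_cases h' : 0 < (r l).1 ⬝ᵥ d
    · have := hmin l (mem_filter.2 ⟨hl, h'⟩)
      rw [le_div_iff₀ h'] at this
      linarith
    · have := h.2.2.2.2 l hl
      have := mul_nonpos_of_nonneg_of_nonpos hs0 (not_lt.1 h')
      linarith

theorem run_lt {ι : Type} [Fintype ι] [DecidableEq ι] {r : ι → Row n} {B B' : Finset ι}
    {z w : Fin n → ℝ} {P : Finset ι → Prop} (hP : P B') (hA : After r z w B B') :
    {C | P C ∧ After r z w B' C}.ncard < {C | P C ∧ After r z w B C}.ncard := by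
  obtain ⟨t, y, ht, hy, hlt⟩ := hA
  refine Set.ncard_lt_ncard ⟨fun C hC => ?_, fun hsub => ?_⟩
  · obtain ⟨h1, t', y', ht', hy', hlt'⟩ := hC
    exact ⟨h1, t', y', ht', hy', fun s y'' h => (hlt s y'' h).trans (hlt' t y hy)⟩
  · obtain ⟨-, t', y', -, h1, h2⟩ := hsub (a := B') ⟨hP, t, y, ht, hy, hlt⟩
    exact lt_irrefl t' (h2 t' y' h1)

theorem run_li {k : ℕ} {r : Fin m → Row k} (h : DD.Gen r ⊥) {T : Finset (Fin m)}
    (hT : T.card ≤ k) : LinearIndependent ℝ fun l : T => (r l).1 := by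
  refine li_of (a := fun l => (r l).1) fun y hy i hi => ?_
  by_contra h1
  refine h i (T.erase i) (notMem_erase _ _) (by
    have := card_erase_add_one hi
    rw [finrank_bot]
    omega) ⟨0, Submodule.zero_mem _, fun l => -(y i)⁻¹ * y l, ?_⟩
  rw [← add_sum_erase _ _ hi] at hy
  simp only [mul_smul, ← smul_sum]
  rw [← neg_eq_of_add_eq_zero_right hy, neg_smul, smul_neg, neg_neg, inv_smul_smul₀ h1, zero_add]

theorem run_few {r : Fin m → Row n} {c : Fin n → ℝ} {ζ : ℝ} (hζ : 0 < ζ) (hc : c ≠ 0)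
    (hG1 : DD.Gen r (Submodule.span ℝ {c})) {T : Finset (Fin m)} (hT : T.card + 1 ≤ n)
    {y : Fin m → ℝ} : ζ • c ≠ ∑ l ∈ T, y l • (r l).1 := fun h => by
  have h1 := hG1.eq_zero (T := T) (y := y) (by
    have h7 := finrank_span_le_card (R := ℝ) ({c} : Set (Fin n → ℝ))
    simp only [Set.toFinset_singleton, card_singleton] at h7
    omega) (h ▸ Submodule.smul_mem _ _ (Submodule.mem_span_singleton_self _))
  rw [← h, smul_eq_zero] at h1
  exact h1.elim hζ.ne' hc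

section
variable {r : Fin m → Row n} {I : Sub m n} {c z : Fin n → ℝ} {ζ : ℝ}

theorem run_tail (B : Finset (Bool ⊕ Fin m)) (y : Bool ⊕ Fin m → ℝ) :
    Fin.tail (∑ l ∈ B, y l • (lp2 r I l).1) = ∑ i ∈ B.toRight, y (.inr i) • (r i).1 := by
  ext j
  simp [Fin.tail, sum_sum_eq_sum_toLeft_add_sum_toRight, lp2, Finset.sum_apply]

theorem run_obj (t : ℝ) : (Fin.cons (-1) (ζ • c) : Fin (n + 1) → ℝ) + t • Fin.cons 1 0 =
    Fin.cons (t - 1) (ζ • c) := by
  ext j
  refine Fin.cases ?_ (fun j => ?_) j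
  · simp [sub_eq_neg_add]
  · simp

theorem run_tail' {B : Finset (Bool ⊕ Fin m)} {y : Bool ⊕ Fin m → ℝ} {t : ℝ}
    (h : (Fin.cons (-1) (ζ • c) : Fin (n + 1) → ℝ) + t • Fin.cons 1 0 =
      ∑ l ∈ B, y l • (lp2 r I l).1) : ζ • c = ∑ i ∈ B.toRight, y (.inr i) • (r i).1 := by
  rw [← run_tail (I := I), ← h, run_obj, Fin.tail_cons]

theorem run_nondeg (hζ : 0 < ζ) (hc : c ≠ 0) (hG1 : DD.Gen r (Submodule.span ℝ {c})) :
    Nondeg (lp2 r I) (Fin.cons (-1) (ζ • c)) (Fin.cons 1 0) := by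
  intro B hB t y hy i hi j hj hyi hyj
  have h1 := card_erase_add_one hi
  have h2 := card_erase_add_one hj
  rw [← add_sum_erase _ _ hi, ← add_sum_erase _ _ hj, hyi, hyj, zero_smul, zero_smul, zero_add,
    zero_add] at hy
  have h3 := card_toRight_le (u := (B.erase i).erase j)
  have h4 := card_toLeft_add_card_toRight (u := B)
  rcases Nat.eq_zero_or_pos n with rfl | hn
  · exact hc (Subsingleton.elim _ _)
  exact run_few hζ hc hG1 (by omega) (run_tail' hy)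

theorem run_feas {x : Fin n → ℝ} (hx : ∀ i, (r i).1 ⬝ᵥ x ≤ (r i).2) (l : Bool ⊕ Fin m) :
    (lp2 r I l).1 ⬝ᵥ Fin.cons 1 x ≤ (lp2 r I l).2 := by
  rcases l with s | i
  · cases s <;> simp [lp2, run_dot']
  · have := hx i
    simp only [lp2, run_dot']
    linarith

theorem run_le_one {B : Finset (Bool ⊕ Fin m)} {x : Fin (n + 1) → ℝ}
    (hx : IsBFS (lp2 r I) univ B x) : x 0 ≤ 1 ∧ -1 ≤ x 0 := by
  have h1 := hx.2.2.2.2 (.inl true) (mem_univ _)
  have h2 := hx.2.2.2.2 (.inl false) (mem_univ _)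
  simp [lp2, run_dot] at h1 h2
  exact ⟨h1, by linarith⟩

/-- The invariant. -/
def RInv (r : Fin m → Row n) (I : Sub m n) (z c : Fin n → ℝ) (ζ : ℝ) : State m → Prop
  | .inl B => OnPath (lp1 r I) univ z c B
  | .inr B => OnPath (lp2 r I) univ (Fin.cons (-1) (ζ • c)) (Fin.cons 1 0) B

theorem run_right {s : State m} (hζ : 0 < ζ) (hI : RInv r I z c ζ s) {a : Answer n}
    (h : Stops r I z c s a) : Right r c a := by
  cases h with
  | unbounded B i d hL hd =>
    by_cases hf : ∃ x, ∀ i, (r i).1 ⬝ᵥ x ≤ (r i).2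
    swap
    · exact Or.inr ⟨rfl, hf⟩
    obtain ⟨x, hx⟩ := hf
    have h0 := hL.2.2.2.1
    refine Or.inl fun K => ⟨x + ((|K - c ⬝ᵥ x| + 1) / (c ⬝ᵥ d)) • d, fun j => ?_, ?_⟩
    · rw [dotProduct_add, dotProduct_smul, smul_eq_mul]
      have h1 : (r j).1 ⬝ᵥ d ≤ 0 := hd j
      have h2 : 0 ≤ (|K - c ⬝ᵥ x| + 1) / (c ⬝ᵥ d) := by positivity
      have := mul_nonpos_of_nonneg_of_nonpos h2 h1
      linarith [hx j]
    · rw [dotProduct_add, dotProduct_smul, smul_eq_mul, div_mul_cancel₀ _ h0.ne']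
      linarith [le_abs_self (K - c ⬝ᵥ x)]
  | infeasible B x y hx hy h1 =>
    refine Or.inl fun ⟨x', hx'⟩ => ?_
    have := hx.optimal hy fun l _ => run_feas hx' l
    rw [run_dot', run_dot] at this
    simp at this
    linarith
  | optimal B x y hx hy h1 =>
    obtain ⟨-, t, y', -, hy'⟩ := hI
    refine Or.inl ⟨fun i => ?_, fun x' hx' => ?_⟩
    · have := hx.2.2.2.2 (.inr i) (mem_univ _)
      simp only [lp2, run_dot, h1] at this
      linarith
    · have := hx.optimal hy' fun l _ => run_feas hx' l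
      rw [run_obj, run_dot', run_dot, h1, smul_dotProduct, smul_dotProduct, smul_eq_mul,
        smul_eq_mul] at this
      exact le_of_mul_le_mul_left (by linarith) hζ

theorem run_stop {B : Finset (Bool ⊕ Fin m)} {x : Fin (n + 1) → ℝ} {y : Bool ⊕ Fin m → ℝ}
    (hx : IsBFS (lp2 r I) univ B x) (hy : IsDual (lp2 r I) B (Fin.cons 1 0) y) :
    ∃ a, Stops r I z c (.inr B) a :=
  (run_le_one hx).1.eq_or_lt.elim (fun h => ⟨_, .optimal B x y hx hy h⟩)
    fun h => ⟨_, .infeasible B x y hx hy h⟩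

theorem run_exists {s : State m} (hI : RInv r I z c ζ s) (hs : ¬ ∃ a, Stops r I z c s a) :
    ∃ s', Step r I z c ζ s s' := by
  rcases s with B | B
  · obtain ⟨⟨x, hx⟩, hd⟩ := hI
    by_cases h : ∃ y, IsDual (lp1 r I) B c y
    · exact ⟨_, .switch B _ h.choose_spec⟩
    obtain ⟨i, d, hL⟩ := exists_leaves hx.2.1 hx.2.2.1 hd h
    obtain ⟨j, x', hj, hx'⟩ := run_enter hx hL (by
      by_contra h1
      exact hs ⟨_, .unbounded B i d hL fun j => not_lt.1 fun h2 => h1 ⟨j, h2⟩⟩)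
    exact ⟨_, .one B i j d x' hL hj hx'⟩
  · obtain ⟨⟨x, hx⟩, hd⟩ := hI
    obtain ⟨i, d, hL⟩ := exists_leaves hx.2.1 hx.2.2.1 hd fun ⟨y, hy⟩ => hs (run_stop hx hy)
    obtain ⟨j, x', hj, hx'⟩ := run_enter hx hL ⟨.inl true, hL.2.2.2.1⟩
    exact ⟨_, .two B i j d x' hL hj hx'⟩

theorem run_switch (hζ : 0 < ζ) (hlt : ∀ i, (r i).2 < yp r I i) {B : Finset (Fin m)}
    {x : Fin n → ℝ} {y : Fin m → ℝ} (hx : IsBFS (lp1 r I) univ B x) (hy : IsDual (lp1 r I) B c y) :
    OnPath (lp2 r I) univ (Fin.cons (-1) (ζ • c)) (Fin.cons 1 0) (disjSum {false} B) := by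
  refine ⟨⟨Fin.cons (-1) x, subset_univ _, by rw [card_disjSum, card_singleton, hx.2.1, add_comm],
    li_of (a := fun l => (lp2 r I l).1) fun u hu => ?_, fun l hl => ?_, fun l _ => ?_⟩,
    0, Sum.elim (fun _ => 1 + ∑ i ∈ B, ζ * y i * ((yp r I i - (r i).2) / 2)) fun i => ζ * y i,
    le_rfl, fun l hl => ?_, ?_⟩
  · have h1 := run_tail (r := r) (I := I) (disjSum {false} B) u
    rw [hu, toRight_disjSum] at h1
    have h2 := mult_unique hx.2.2.1 (y := fun i => u (.inr i)) (y' := fun _ => 0)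
      (h1.symm.trans (by ext; simp [Fin.tail]))
    have h3 := congrFun hu 0
    rw [sum_disjSum, sum_singleton, sum_eq_zero fun i hi => by rw [h2 i hi, zero_smul]] at h3
    intro l hl
    rcases l with s | i
    · obtain rfl : s = false := by simpa using hl
      simpa [lp2] using h3
    · exact h2 i (by simpa using hl)
  · rcases l with s | i
    · obtain rfl : s = false := by simpa using hl
      simp [lp2, run_dot']
    · have : (r i).1 ⬝ᵥ x = yp r I i := hx.2.2.2.1 i (by simpa using hl)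
      simp only [lp2, run_dot', this]
      ring
  · rcases l with s | i
    · cases s <;> simp [lp2, run_dot']
    · have : (r i).1 ⬝ᵥ x ≤ yp r I i := hx.2.2.2.2 i (mem_univ _)
      simp only [lp2, run_dot']
      linarith
  · rcases l with s | i
    · exact add_nonneg zero_le_one (sum_nonneg fun i hi =>
        mul_nonneg (mul_nonneg hζ.le (hy.1 i hi)) (by linarith [hlt i]))
    · exact mul_nonneg hζ.le (hy.1 i (by simpa using hl))
  · rw [sum_disjSum, sum_singleton, hy.2]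
    ext j
    refine Fin.cases ?_ (fun j => ?_) j
    · simp [lp2, Finset.sum_apply]
    · simp [lp2, lp1, Finset.sum_apply, mul_sum, mul_assoc]

theorem run_sys1 {η Y : ℝ} (hY : 0 < Y) (hyp : ∀ i, yp r I i = Y * bet I η i)
    {B : Finset (Fin m)} (h : OnPath (lp1 r I) univ z c B) : OnPath (sys1 I η r) univ z c B := by
  obtain ⟨⟨x, h1, h2, h3, h4, h5⟩, hd⟩ := h
  refine ⟨⟨Y⁻¹ • x, h1, h2, h3, fun i hi => ?_, fun i hi => ?_⟩, hd⟩
  · have : (r i).1 ⬝ᵥ x = yp r I i := h4 i hi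
    simp only [sys1, dotProduct_smul, this, hyp, smul_eq_mul]
    field_simp
  · have : (r i).1 ⬝ᵥ x ≤ yp r I i := h5 i hi
    simp only [sys1, dotProduct_smul, smul_eq_mul]
    rwa [inv_mul_le_iff₀ hY, ← hyp]

theorem run_a (hζ : 0 < ζ) (hc : c ≠ 0) (hG : DD.Gen r ⊥) (hG1 : DD.Gen r (Submodule.span ℝ {c}))
    {B : Finset (Bool ⊕ Fin m)}
    (h : OnPath (lp2 r I) univ (Fin.cons (-1) (ζ • c)) (Fin.cons 1 0) B) (h1 : .inl true ∉ B)
    (h0 : .inl false ∈ B) : OnPath (lp1 r I) univ z c B.toRight := by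
  obtain ⟨⟨x, hx⟩, t, y, -, hy, hw⟩ := h
  have e1 : B.toLeft = {false} := by
    ext s
    cases s <;> simp [h0, h1]
  have e2 : B.toRight.card = n := by
    have := card_toLeft_add_card_toRight (u := B)
    rw [e1, card_singleton, hx.2.1] at this
    omega
  have e3 : x 0 = -1 := by
    have := hx.2.2.2.1 _ h0
    simp [lp2, run_dot] at this
    linarith
  have e4 := run_li hG e2.le
  have e5 := run_tail' hw
  have e6 : ∀ i ∈ B.toRight, 0 < y (.inr i) := fun i hi => by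
    refine lt_of_le_of_ne (hy _ (mem_toRight.1 hi)) fun h => ?_
    rw [← add_sum_erase _ _ hi, ← h, zero_smul, zero_add] at e5
    exact run_few hζ hc hG1 (by rw [card_erase_add_one hi, e2]) e5
  obtain ⟨β, hβ⟩ := span_top e2 e4 z
  obtain ⟨T, hT⟩ := (B.toRight.image fun i => -β i / y (.inr i)).exists_le
  refine ⟨⟨Fin.tail x, subset_univ _, e2, e4, fun i hi => ?_, fun i _ => ?_⟩,
    max T 0 * ζ, fun i => β i + max T 0 * y (.inr i), by positivity, fun i hi => ?_, ?_⟩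
  · have := hx.2.2.2.1 _ (mem_toRight.1 hi)
    simp only [lp2, run_dot, e3] at this
    simp only [lp1]
    linarith
  · have := hx.2.2.2.2 (.inr i) (mem_univ _)
    simp only [lp2, run_dot, e3] at this
    simp only [lp1]
    linarith
  · have := (hT _ (mem_image_of_mem _ hi)).trans (le_max_left T 0)
    rw [div_le_iff₀ (e6 i hi)] at this
    linarith
  · simp only [lp1, add_smul, mul_smul, sum_add_distrib, ← smul_sum, ← hβ, ← e5]

theorem run_b {η Y : ℝ} (hY : 0 < Y) (hyp : ∀ i, yp r I i = Y * bet I η i) (hζ : 0 < ζ)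
    (hc : c ≠ 0) (hG2 : DD.Gen (sys2 I 1 r) ⊥) {B : Finset (Bool ⊕ Fin m)}
    (h : OnPath (lp2 r I) univ (Fin.cons (-1) (ζ • c)) (Fin.cons 1 0) B) (h1 : .inl true ∉ B)
    (h0 : .inl false ∉ B) :
    FP.InShadow (sys2 I η r) (Fin.cons 1 0) (Fin.cons 0 c) B.toRight := by
  obtain ⟨⟨x, hx⟩, t, y, -, hy, hw⟩ := h
  have e1 : B.toLeft = ∅ := by
    ext s
    cases s <;> simp [h0, h1]
  have e2 : B.toRight.card = n + 1 := by
    have := card_toLeft_add_card_toRight (u := B)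
    rwa [e1, card_empty, hx.2.1, zero_add] at this
  have e4 := run_li hG2 e2.le
  have e5 := run_tail' hw
  obtain ⟨k1, k2⟩ := run_le_one hx
  have e3 : x 0 < 1 := lt_of_le_of_ne k1 fun h => by
    have h2 := eq_zero_of_dot e2 e4 (u := Fin.cons (-1) (Fin.tail x)) fun i hi => by
      have := hx.2.2.2.1 _ (mem_toRight.1 hi)
      simp only [lp2, run_dot, h] at this
      simp only [sys2, run_dot']
      linarith
    simpa using congrFun h2 0
  have e6 : 0 < (1 - x 0) / 2 * Y := mul_pos (by linarith) hY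
  have e7 : ∀ i, (sys2 I η r i).2 - (sys2 I η r i).1 ⬝ᵥ (((1 - x 0) / 2 * Y)⁻¹ •
      (Fin.cons (-((1 + x 0) / 2)) (Fin.tail x) : Fin (n + 1) → ℝ)) = ((1 - x 0) / 2 * Y)⁻¹ *
        ((lp2 r I (.inr i)).2 - (lp2 r I (.inr i)).1 ⬝ᵥ x) := fun i => by
    rw [dotProduct_smul, smul_eq_mul, eq_inv_mul_iff_mul_eq₀ e6.ne', mul_sub,
      mul_inv_cancel_left₀ e6.ne']
    simp only [sys2, lp2, run_dot, hyp, Fin.cons_zero, Fin.tail_cons]
    ring
  refine ⟨⟨_, subset_univ _, e2, e4, fun i hi => ?_, fun i _ => sub_nonneg.1 ((e7 i).symm ▸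
    mul_nonneg (inv_pos.2 e6).le (sub_nonneg.2 (hx.2.2.2.2 _ (mem_univ _))))⟩,
    ∑ i ∈ B.toRight, y (.inr i) * (r i).2, ζ, fun i => y (.inr i), fun h => ?_,
    fun i hi => hy _ (mem_toRight.1 hi), ?_⟩
  · have := e7 i
    rw [hx.2.2.2.1 _ (mem_toRight.1 hi), sub_self, mul_zero, sub_eq_zero] at this
    exact this.symm
  · refine hc (funext fun j => ?_)
    simpa [hζ.ne'] using congrFun h j.succ
  · ext j
    refine Fin.cases ?_ (fun j => ?_) j
    · simp [sys2, Finset.sum_apply]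
    · simpa [sys2, Finset.sum_apply] using congrFun e5 j

theorem run_count {η Y : ℝ} (hY : 0 < Y) (hyp : ∀ i, yp r I i = Y * bet I η i) (hζ : 0 < ζ)
    (hc : c ≠ 0) (hG : DD.Gen r ⊥) (hG1 : DD.Gen r (Submodule.span ℝ {c}))
    (hG2 : DD.Gen (sys2 I 1 r) ⊥) (α : Fin n → ℝ) (S : Set (Finset (Bool ⊕ Fin m)))
    (hS : ∀ B ∈ S, OnPath (lp2 r I) univ (Fin.cons (-1) (ζ • c)) (Fin.cons 1 0) B ∧
      .inl true ∉ B) : S.ncard ≤ cnt1 I η c r α + cnt2 I η c r := by
  have key : ∀ B ∈ S, ∀ B' ∈ S, (.inl false ∈ B ↔ .inl false ∈ B') → B.toRight = B'.toRight →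
      B = B' := fun B hB B' hB' h1 h2 => by
    ext l
    rcases l with s | i
    · cases s
      · exact h1
      · exact iff_of_false (hS B hB).2 (hS B' hB').2
    · rw [← mem_toRight, h2, mem_toRight]
  rw [← Set.ncard_inter_add_ncard_sdiff_eq_ncard S {B | .inl false ∈ B}]
  refine add_le_add (Set.ncard_le_ncard_of_injOn toRight (fun B hB => ?_) fun B hB B' hB' => ?_)
    (Set.ncard_le_ncard_of_injOn toRight (fun B hB => ?_) fun B hB B' hB' => ?_)
  · exact run_sys1 hY hyp (run_a hζ hc hG hG1 (hS B hB.1).1 (hS B hB.1).2 hB.2)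
  · exact key B hB.1 B' hB'.1 (iff_of_true hB.2 hB'.2)
  · exact run_b hY hyp hζ hc hG2 (hS B hB.1).1 (hS B hB.1).2 hB.2
  · exact key B hB.1 B' hB'.1 (iff_of_false hB.2 hB'.2)

/-- The potential. -/
noncomputable def rrank (r : Fin m → Row n) (I : Sub m n) (z c : Fin n → ℝ) (ζ : ℝ) (K : ℕ) :
    State m → ℕ
  | .inl B => {C | OnPath (lp1 r I) univ z c C ∧ After (lp1 r I) z c B C}.ncard + (K + 2)
  | .inr B => if .inl true ∈ B then 0 else
      {C | (OnPath (lp2 r I) univ (Fin.cons (-1) (ζ • c)) (Fin.cons 1 0) C ∧ .inl true ∉ C) ∧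
        After (lp2 r I) (Fin.cons (-1) (ζ • c)) (Fin.cons 1 0) B C}.ncard + 1

theorem run_step {K : ℕ} (hζ : 0 < ζ) (hlt : ∀ i, (r i).2 < yp r I i) (hN : Nondeg r z c)
    (hN2 : Nondeg (lp2 r I) (Fin.cons (-1) (ζ • c)) (Fin.cons 1 0))
    (hK : ∀ S : Set (Finset (Bool ⊕ Fin m)), (∀ B ∈ S, OnPath (lp2 r I) univ
      (Fin.cons (-1) (ζ • c)) (Fin.cons 1 0) B ∧ .inl true ∉ B) → S.ncard ≤ K)
    {s s' : State m} (hI : RInv r I z c ζ s) (hs : ¬ ∃ a, Stops r I z c s a)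
    (h : Step r I z c ζ s s') : RInv r I z c ζ s' ∧ rrank r I z c ζ K s' < rrank r I z c ζ K s := by
  cases h with
  | one B i j d x hL hj hx =>
    obtain ⟨⟨x₀, hx₀⟩, -⟩ := hI
    have hA := after_pivot (r := lp1 r I) hx₀.2.1 hN hL hj hx
    have h1 : OnPath (lp1 r I) univ z c (insert j (B.erase i)) :=
      ⟨⟨x, hx⟩, hA.imp fun t h => h.imp fun y h => ⟨h.1, h.2.1⟩⟩
    exact ⟨h1, Nat.add_lt_add_right (run_lt h1 hA) _⟩
  | switch B y hy =>
    obtain ⟨⟨x₀, hx₀⟩, -⟩ := hI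
    refine ⟨run_switch hζ hlt hx₀ hy, ?_⟩
    simp only [rrank]
    split_ifs
    · omega
    · exact (Nat.add_lt_add_right (Nat.lt_succ_of_le (hK _ fun B hB => hB.1)) 1).trans_le
        (Nat.le_add_left _ _)
  | two B i j d x hL hj hx =>
    obtain ⟨⟨x₀, hx₀⟩, -⟩ := hI
    have hA := after_pivot hx₀.2.1 hN2 hL hj hx
    have h1 : OnPath (lp2 r I) univ (Fin.cons (-1) (ζ • c)) (Fin.cons 1 0) (insert j (B.erase i)) :=
      ⟨⟨x, hx⟩, hA.imp fun t h => h.imp fun y h => ⟨h.1, h.2.1⟩⟩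
    have h2 : .inl true ∉ B := fun h => hs (run_stop hx₀ (y := Pi.single (.inl true) 1)
      ⟨fun l _ => by rw [Pi.single_apply]; split_ifs <;> norm_num, by
        rw [sum_eq_single_of_mem _ h fun l _ hl => by rw [Pi.single_eq_of_ne hl, zero_smul]]
        simp [lp2]⟩)
    refine ⟨h1, ?_⟩
    simp only [rrank, if_neg h2]
    split_ifs with h3
    · omega
    · exact Nat.add_lt_add_right (run_lt (P := fun C => OnPath (lp2 r I) univ
        (Fin.cons (-1) (ζ • c)) (Fin.cons 1 0) C ∧ .inl true ∉ C) ⟨h1, h3⟩ hA) _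

theorem run_start {α : Fin n → ℝ} (hα : ∀ l, 0 ≤ α l) : OnDual (lp1 r I) (comb r I α) c I.1 := by
  have hinj := (I.1.orderEmbOfFin I.2).injective
  have h1 : ∀ f : Fin m → Fin n → ℝ, ∑ i ∈ I.1, f i = ∑ l, f (I.1.orderEmbOfFin I.2 l) := fun f => by
    rw [← sum_image (s := univ) (g := I.1.orderEmbOfFin I.2) fun _ _ _ _ h => hinj h,
      image_orderEmbOfFin_univ]
  refine ⟨0, Function.extend (I.1.orderEmbOfFin I.2) α 0, le_rfl, fun i _ => ?_, ?_⟩
  · rw [Function.extend_def]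
    split_ifs
    · exact hα _
    · exact le_rfl
  · rw [h1, zero_smul, add_zero, comb]
    exact sum_congr rfl fun l _ => by rw [hinj.extend_apply]; rfl

end

theorem halts {r : Fin m → Row n} (hn : 1 ≤ n) (I : Sub m n) {α c : Fin n → ℝ} {ζ : ℝ}
    (hζ : 0 < ζ) (hc : c ≠ 0) (hα : ∀ l, 0 ≤ α l) (hG : DD.Gen r ⊥)
    (hG1 : DD.Gen r (Submodule.span ℝ {c})) (hG2 : DD.Gen (sys2 I 1 r) ⊥)
    (hN : Nondeg r (comb r I α) c) {N : ℕ}
    (h : 2 * cnt1 I (eta r I) c r α + cnt2 I (eta r I) c r + 2 ≤ N) :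
    Halts r I (comb r I α) c ζ (.inl I.1) N := by
  obtain ⟨Y, hY, hyp⟩ := yp_eq (r := r) hn I
  have hstep := fun {s s' : State m} => run_step (s := s) (s' := s') hζ (lt_yp hn hG I) hN
    (run_nondeg hζ hc hG1) (run_count hY hyp hζ hc hG hG1 hG2 α)
  have key : ∀ (N : ℕ) (s : State m), RInv r I (comb r I α) c ζ s →
      rrank r I (comb r I α) c ζ (cnt1 I (eta r I) c r α + cnt2 I (eta r I) c r) s ≤ N →
      Halts r I (comb r I α) c ζ s N := by
    intro N
    induction N with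
    | zero =>
      intro s hI hN'
      by_cases hs : ∃ a, Stops r I (comb r I α) c s a
      · exact .stop s _ hs fun a => run_right hζ hI
      · obtain ⟨s', h⟩ := run_exists hI hs
        have := (hstep hI hs h).2
        omega
    | succ N ih =>
      intro s hI hN'
      by_cases hs : ∃ a, Stops r I (comb r I α) c s a
      · exact .stop s _ hs fun a => run_right hζ hI
      · refine .step s N hs (run_exists hI hs) fun s' h => ?_
        have := hstep hI hs h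
        exact ih s' this.1 (by omega)
  refine key N _ ⟨start_bfs hn hG I, run_start hα⟩ ?_
  have h1 : {C | OnPath (lp1 r I) univ (comb r I α) c C ∧
      After (lp1 r I) (comb r I α) c I.1 C}.ncard ≤ cnt1 I (eta r I) c r α :=
    Set.ncard_le_ncard fun C hC => run_sys1 hY hyp hC.1
  simp only [rrank]
  omega

end Pool.Agent.Lib.MP_3b7f8d_lc.ST
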