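import Mathlib
import Pool.Agent.Lib.MP_3b7f8d_lc.ST.Run
import Pool.Agent.Lib.MP_3b7f8d_lc.ST.Law
import Pool.Agent.Lib.MP_3b7f8d_lc.ST.One
import Pool.Agent.Lib.MP_3b7f8d_lc.ST.Cnt

/-! The expected number of steps of the method of Spielman and Teng. -/

namespace Pool.Agent.Lib.MP_3b7f8d_lc.ST

open Finset MeasureTheory
open scoped ENNReal

variable {n m : ℕ}

theorem main_row {f : ℝ → ℝ} {κ σ U : ℝ} (hf : FP.Den f κ) (hσ : 0 < σ) (hσ1 : σ ≤ 1)
    {a : Fin n → ℝ} {b : ℝ} (ha : ∀ l, |a l| ≤ 1) (hb : |b| ≤ 1) (h1 : 2 * (n + 1) * (1 / σ) ≤ U)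
    (h2 : n * (1 + κ) + (2 / σ + κ) ≤ U) :
    FP.RowOK ((Measure.pi fun j => pert f σ (a j)).prod (pert f σ b)) U := by
  have hκ := hf.kappa
  have := (hf.nice hσ hσ1 hb).prob
  have h3 : 2 ≤ 2 / σ := (le_div_iff₀ hσ).2 (by linarith)
  refine FP.rowOK (fun l => hf.nice hσ hσ1 (ha l)) (by positivity) (by positivity)
    (by positivity) (fun ε hε => ?_)
    ((hf.nice hσ hσ1 hb).mom.trans (ENNReal.ofReal_le_ofReal (by linarith))) h1 h2
  refine ((hf.nice hσ hσ1 hb).le _).trans ?_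
  rw [show {b : ℝ | |b| ≤ ε} = Set.Icc (-ε) ε from Set.ext fun x => (abs_le (a := x)),
    Real.volume_Icc, ← ENNReal.ofReal_mul (by positivity)]
  refine ENNReal.ofReal_le_ofReal ?_
  have h3 : 1 / σ * (ε - -ε) = 2 / σ * ε := by ring
  nlinarith

theorem main_good {r : Fin m → Row n} (hn : 1 ≤ n) (hG : DD.Gen r ⊥) {I I' : Sub m n} {U : ℝ}
    (hU : 0 < U) (h1 : Sm (1 / U ^ 35) r I') (h2 : smin r I' ≤ smin r I)
    (h3 : FP.al r < 2 * U ^ 2 * 2 ^ m) : Sm (1 / (n ^ 2 * U ^ 35)) r I ∧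
      ∃ p ∈ range (m + ⌈8 * n * (n + 1) * U ^ 37⌉₊ + 1), eta r I = 1 / (2 ^ p * √n) := by
  have hn' : (0 : ℝ) < n := by exact_mod_cast hn
  have h4 := (smin_of_sm hn (by positivity) h1).trans h2
  refine ⟨?_, ?_⟩
  · convert sm_of_smin (by positivity) h4 using 1
    field_simp
  obtain ⟨p, hp, h5⟩ := eta_eq hn hG I
  refine ⟨p, mem_range.2 (Nat.lt_succ_of_le ?_), hp⟩
  rw [← pow_le_pow_iff_right₀ (one_lt_two (α := ℝ)), pow_add]
  have h6 : 8 * n * (n + 1) * U ^ 37 ≤ 2 ^ ⌈8 * n * (n + 1) * U ^ 37⌉₊ :=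
    (Nat.le_ceil _).trans (by exact_mod_cast Nat.lt_two_pow_self.le)
  have h7 : 2 ^ p * (1 / U ^ 35 / n) ≤ 4 * (n + 1) * (2 * U ^ 2 * 2 ^ m) :=
    ((mul_le_mul_of_nonneg_left h4 (by positivity)).trans h5).trans (by gcongr)
  rw [div_div, mul_one_div, div_le_iff₀ (by positivity)] at h7
  calc (2 : ℝ) ^ p ≤ 2 ^ m * (8 * n * (n + 1) * U ^ 37) := h7.trans_eq (by ring)
    _ ≤ _ := by gcongr

theorem main_cast {X : Type} (s : Set X) (g : X → ℕ) (x : X) :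
    ((s.indicator g x : ℕ) : ℝ≥0∞) = s.indicator (fun x => (g x : ℝ≥0∞)) x := by
  by_cases h : x ∈ s <;> simp [h]

theorem main_arith {v a C₁ C₂ N P w y : ℝ} {k₁ k₂ : ℕ} (hv : 1 ≤ v) (ha : 1 ≤ a) (h1 : 1 ≤ C₁)
    (h2 : 1 ≤ C₂) (hN : N ≤ 4 * v ^ 3) (hP0 : 0 ≤ P) (hP : P ≤ 11 * a ^ 37 * v ^ 76) (hw0 : 0 ≤ w)
    (hw : w ≤ a ^ 35 * v ^ 73) (hy : y ≤ 25 * v) :
    N * (P * (2 * (C₁ * w ^ k₁) + C₂ * v ^ k₂ + 2)) + y ≤
      (44 * a ^ 37 * (2 * C₁ * (a ^ 35) ^ k₁ + C₂ + 2) + 25) * v ^ (79 + 73 * k₁ + k₂) := by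
  have e1 : w ^ k₁ ≤ (a ^ 35) ^ k₁ * v ^ (73 * k₁ + k₂) := by
    calc w ^ k₁ ≤ (a ^ 35 * v ^ 73) ^ k₁ := by gcongr
      _ = (a ^ 35) ^ k₁ * v ^ (73 * k₁) := by rw [mul_pow, ← pow_mul v]
      _ ≤ _ := by gcongr; omega
  have e2 : v ^ k₂ ≤ v ^ (73 * k₁ + k₂) := by gcongr; omega
  have e3 : 1 ≤ v ^ (73 * k₁ + k₂) := one_le_pow₀ hv
  have e4 : v ≤ v ^ (79 + 73 * k₁ + k₂) := le_self_pow₀ hv (by omega)
  have e5 : 2 * (C₁ * w ^ k₁) + C₂ * v ^ k₂ + 2 ≤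
      (2 * C₁ * (a ^ 35) ^ k₁ + C₂ + 2) * v ^ (73 * k₁ + k₂) := by
    have := mul_le_mul_of_nonneg_left e1 (zero_le_one.trans h1)
    have := mul_le_mul_of_nonneg_left e2 (zero_le_one.trans h2)
    linarith
  have e6 : N * (P * (2 * (C₁ * w ^ k₁) + C₂ * v ^ k₂ + 2)) ≤ 4 * v ^ 3 * (11 * a ^ 37 * v ^ 76 *
      ((2 * C₁ * (a ^ 35) ^ k₁ + C₂ + 2) * v ^ (73 * k₁ + k₂))) := by gcongr
  rw [add_mul, add_assoc 79, pow_add v 79] at *
  refine add_le_add (e6.trans_eq (by ring)) (by linarith)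

theorem main {f : ℝ → ℝ} {κ : ℝ} (hf : FP.Den f κ) (hc : ∀ᵐ x, ContinuousAt f x) :
    ∃ (C : ℝ) (k : ℕ), ∀ σ : ℝ, 0 < σ → σ ≤ 1 →
      ∀ (m n : ℕ) (A : Fin m → Fin n → ℝ) (b : Fin m → ℝ) (c : Fin n → ℝ),
      2 ≤ n → n ≤ m → ∑ i, ∑ j, A i j ^ 2 + ∑ i, b i ^ 2 ≤ 1 → c ≠ 0 →
      ∀ N : ℕ, N = ⌈3 * m * n * Real.log m⌉₊ →
      ∃ W : (Fin N → Sub m n) → (Fin m → Row n) × (Fin n → ℝ) → ℕ, (∀ J, Measurable (W J)) ∧
        ∑ J, ∫⁻ p, W J p ∂(inputLaw f σ A b).prod (simplexLaw n) ≤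
          Fintype.card (Fin N → Sub m n) * ENNReal.ofReal (C * (m + n + 1 / σ) ^ k) ∧
        ∀ J, ∀ᵐ r ∂inputLaw f σ A b, ∀ᵐ α ∂simplexLaw n,
          ∀ j, (∀ j', smin r (J j') ≤ smin r (J j)) → ∀ ζ : ℝ, 0 < ζ →
            Halts r (J j) (comb r (J j) α) c ζ (.inl (J j).1) (W J (r, α)) := by
  obtain ⟨C₁, k₁, hC₁, hone⟩ := one_bound hf
  obtain ⟨C₂, k₂, hC₂, htwo⟩ := two_bound hf hc
  have hκ := hf.kappa
  obtain ⟨a, ha⟩ : ∃ a : ℝ, a = 8 + κ := ⟨_, rfl⟩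
  have ha1 : 1 ≤ a := by linarith
  refine ⟨44 * a ^ 37 * (2 * C₁ * (a ^ 35) ^ k₁ + C₂ + 2) + 25, 79 + 73 * k₁ + k₂,
    fun σ hσ hσ1 m n A b c hn hm hAb hc0 N hN => ?_⟩
  have hs1 : 0 ≤ ∑ i, ∑ j, A i j ^ 2 := by positivity
  have hs2 : 0 ≤ ∑ i, b i ^ 2 := by positivity
  have hA : ∀ i j, |A i j| ≤ 1 := fun i j => (sq_le_one_iff_abs_le_one _).1 (by
    have h2 := single_le_sum (f := fun j => A i j ^ 2) (fun _ _ => sq_nonneg _) (mem_univ j)
    have h3 := single_le_sum (f := fun i => ∑ j, A i j ^ 2) (fun _ _ => by positivity)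
      (mem_univ i)
    linarith)
  have hb : ∀ i, |b i| ≤ 1 := fun i => (sq_le_one_iff_abs_le_one _).1 (by
    have h2 := single_le_sum (f := fun i => b i ^ 2) (fun _ _ => sq_nonneg _) (mem_univ i)
    linarith)
  have hp : ∀ u, IsProbabilityMeasure (pert f σ u) := fun u => (hf.nice hσ hσ1 (le_refl |u|)).prob
  have : IsProbabilityMeasure (inputLaw f σ A b) := by
    unfold inputLaw
    infer_instance
  have := prob_simplex hn
  obtain ⟨v, hv⟩ : ∃ v : ℝ, v = m + n + 1 / σ := ⟨_, rfl⟩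
  rw [← hv]
  have hφ : 1 ≤ 1 / σ := one_le_one_div hσ hσ1
  have hn0 : (2 : ℝ) ≤ n := by exact_mod_cast hn
  have hm0 : (2 : ℝ) ≤ m := by exact_mod_cast hn.trans hm
  have hv1 : 1 ≤ v := by linarith
  have hmv : (m : ℝ) ≤ v := by linarith
  have hnv : (n : ℝ) + 1 ≤ v := by linarith
  have hnv' : (n : ℝ) ≤ v := by linarith
  have hae : ∀ W : (Fin N → Sub m n) → (Fin m → Row n) × (Fin n → ℝ) → ℕ,
      (∀ J r α, DD.Gen r ⊥ → ∀ j, (∀ j', smin r (J j') ≤ smin r (J j)) →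
        2 * cnt1 (J j) (eta r (J j)) c r α + cnt2 (J j) (eta r (J j)) c r + 2 ≤ W J (r, α)) →
      ∀ J, ∀ᵐ r ∂inputLaw f σ A b, ∀ᵐ α ∂simplexLaw n,
        ∀ j, (∀ j', smin r (J j') ≤ smin r (J j)) → ∀ ζ : ℝ, 0 < ζ →
          Halts r (J j) (comb r (J j) α) c ζ (.inl (J j).1) (W J (r, α)) := by
    intro W hW J
    filter_upwards [ae_generic hf hσ hσ1 A b c] with r ⟨hG, hG1, hG2⟩
    filter_upwards [ae_all_iff.2 fun j => ae_alpha hn hG (J j) c] with α hα j hj ζ hζ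
    exact halts (by omega) (J j) hζ hc0 (hα j).1 hG hG1 (hG2 _) (hα j).2 (hW J r α hG j hj)
  by_cases h24 : n < 24
  · refine ⟨fun _ _ => (m + 4) * m.choose n, fun _ => measurable_const, ?_,
      hae (fun _ _ => (m + 4) * m.choose n) fun J r α _ j _ => cnt_le _ _ _ _ _⟩
    simp only [lintegral_const, measure_univ, mul_one, sum_const, card_univ, nsmul_eq_mul]
    rw [← ENNReal.ofReal_natCast ((m + 4) * m.choose n)]
    gcongr
    have e1 : (m.choose n : ℝ) ≤ v ^ 23 := by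
      calc (m.choose n : ℝ) ≤ m ^ n := by exact_mod_cast Nat.choose_le_pow m n
        _ ≤ v ^ n := by gcongr
        _ ≤ _ := by gcongr; omega
    have e2 : v * v ^ 23 ≤ v ^ (79 + 73 * k₁ + k₂) := by
      rw [← pow_succ' v 23]
      exact pow_le_pow_right₀ hv1 (by omega)
    have e3 : 0 ≤ 44 * a ^ 37 * (2 * C₁ * (a ^ 35) ^ k₁ + C₂ + 2) * v ^ (79 + 73 * k₁ + k₂) := by
      positivity
    have e4 : ((m : ℝ) + 4) * m.choose n ≤ 25 * v * v ^ 23 := by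
      gcongr
      linarith
    push_cast
    linarith
  obtain ⟨U, hU⟩ : ∃ U : ℝ, U = a * v ^ 2 := ⟨_, rfl⟩
  have hv2 : v ≤ v ^ 2 := le_self_pow₀ hv1 two_ne_zero
  have hU1 : 1 ≤ U := hU ▸ one_le_mul_of_one_le_of_one_le ha1 (by linarith)
  have hrow := fun i => main_row (U := U) hf hσ hσ1 (hA i) (hb i) (by
    have : ((n : ℝ) + 1) * (1 / σ) ≤ v * v := by gcongr; linarith
    rw [hU, ha]
    nlinarith) (by
    have e1 : 2 / σ = 2 * (1 / σ) := by ring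
    have e2 : κ * (n + 1) ≤ κ * v ^ 2 := by gcongr; linarith
    rw [hU, ha]
    nlinarith)
  have hexc := exc_bound hrow (not_lt.1 h24) hm (by rw [hU, ha]; nlinarith) (N := N)
    (hN ▸ Nat.le_ceil _)
  obtain ⟨E, hE⟩ : ∃ E : (Fin N → Sub m n) → Set (Fin m → Row n), E = fun J =>
      {r | (∀ j, ¬ Sm (1 / U ^ 35) r (J j)) ∨ 2 * U ^ 2 * 2 ^ m ≤ FP.al r} := ⟨_, rfl⟩
  have hEm : ∀ J, MeasurableSet (E J) := fun J => by
    rw [hE]
    refine MeasurableSet.union (s₁ := {r | ∀ j, ¬ Sm (1 / U ^ 35) r (J j)}) ?_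
      (measurableSet_le measurable_const FP.continuous_al.measurable)
    rw [Set.ofPred_forall]
    exact MeasurableSet.iInter fun j => (isClosed_sm _ _).measurableSet.compl
  obtain ⟨κ₁, hκ₁⟩ : ∃ κ₁ : ℝ, κ₁ = 1 / (n ^ 2 * U ^ 35) := ⟨_, rfl⟩
  obtain ⟨P, hP⟩ : ∃ P : ℕ, P = m + ⌈8 * n * (n + 1) * U ^ 37⌉₊ + 1 := ⟨_, rfl⟩
  obtain ⟨T, hT⟩ : ∃ T : Sub m n → ℕ → (Fin m → Row n) × (Fin n → ℝ) → ℕ, T = fun I p q =>
      2 * {q : (Fin m → Row n) × (Fin n → ℝ) | Sm κ₁ q.1 I}.indicator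
        (fun q => cnt1 I (1 / (2 ^ p * √n)) c q.1 q.2) q + cnt2 I (1 / (2 ^ p * √n)) c q.1 + 2 :=
    ⟨_, rfl⟩
  have hS : ∀ I : Sub m n, MeasurableSet {q : (Fin m → Row n) × (Fin n → ℝ) | Sm κ₁ q.1 I} :=
    fun I => ((isClosed_sm κ₁ I).preimage continuous_fst).measurableSet
  have hTm : ∀ I p, Measurable (T I p) := fun I p => by
    rw [hT]
    exact ((((meas_cnt1 I _ c).indicator (hS I)).const_mul 2).add
      ((meas_cnt2 I _ c).comp measurable_fst)).add_const 2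
  have hTi : ∀ I p, ∫⁻ q, T I p q ∂(inputLaw f σ A b).prod (simplexLaw n) ≤
      ENNReal.ofReal (2 * (C₁ * (v / κ₁) ^ k₁) + C₂ * v ^ k₂ + 2) := fun I p => by
    have e0 : (1 : ℝ) ≤ 2 ^ p * √n := one_le_mul_of_one_le_of_one_le (one_le_pow₀ one_le_two)
      (Real.one_le_sqrt.2 (by linarith))
    have e1 : (0 : ℝ) < 1 / (2 ^ p * √n) := by positivity
    have e2 : (1 : ℝ) / (2 ^ p * √n) ≤ 1 := (div_le_one (by positivity)).2 e0
    have e3 : 0 < κ₁ := by rw [hκ₁]; positivity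
    have e4 : κ₁ ≤ 1 := by
      rw [hκ₁]
      exact (div_le_one (by positivity)).2 (one_le_mul_of_one_le_of_one_le
        (one_le_pow₀ (by linarith)) (one_le_pow₀ hU1))
    have e5 : Measurable fun r => (cnt2 I (1 / (2 ^ p * √n)) c r : ℝ≥0∞) :=
      measurable_from_top.comp (meas_cnt2 I _ c)
    have e6 : Measurable fun q : (Fin m → Row n) × (Fin n → ℝ) =>
        (cnt1 I (1 / (2 ^ p * √n)) c q.1 q.2 : ℝ≥0∞) := measurable_from_top.comp (meas_cnt1 I _ c)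
    have e7 : Measurable fun q : (Fin m → Row n) × (Fin n → ℝ) =>
        (cnt2 I (1 / (2 ^ p * √n)) c q.1 : ℝ≥0∞) := e5.comp measurable_fst
    simp only [hT, Nat.cast_add, Nat.cast_mul, main_cast, Nat.cast_ofNat]
    rw [lintegral_add_right _ measurable_const, lintegral_add_right _ e7,
      lintegral_const_mul _ (e6.indicator (hS I)), lintegral_const, measure_univ, mul_one,
      ENNReal.ofReal_add (by positivity) (by positivity),
      ENNReal.ofReal_add (by positivity) (by positivity), ENNReal.ofReal_mul (by positivity),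
      ENNReal.ofReal_ofNat]
    gcongr
    · exact hone σ hσ hσ1 m n v _ κ₁ A b I c hn hA e1 e2 e3 e4 hv.ge
    · exact (measurePreserving_fst.lintegral_comp e5).trans_le
        (htwo σ hσ hσ1 m n v _ A b I c hA hb e1 e2 hv.ge)
  have hEq : ∀ J, MeasurableSet (Prod.fst ⁻¹' E J : Set ((Fin m → Row n) × (Fin n → ℝ))) :=
    fun J => measurable_fst (hEm J)
  obtain ⟨W, hW⟩ : ∃ W : (Fin N → Sub m n) → (Fin m → Row n) × (Fin n → ℝ) → ℕ, W = fun J q =>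
      ∑ j, ∑ p ∈ range P, T (J j) p q +
        (Prod.fst ⁻¹' E J).indicator (fun _ => (m + 4) * m.choose n) q := ⟨_, rfl⟩
  refine ⟨W, fun J => ?_, ?_, hae W fun J r α hG j hj => ?_⟩ <;> simp only [hW]
  · exact (Finset.measurable_sum _ fun j _ => Finset.measurable_sum _ fun p _ => hTm _ _).add
      (measurable_const.indicator (hEq J))
  · have e1 : ∀ I p, Measurable fun q => (T I p q : ℝ≥0∞) := fun I p =>
      measurable_from_top.comp (hTm I p)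
    obtain ⟨X, hX⟩ : ∃ X : ℝ, X = 2 * (C₁ * (v / κ₁) ^ k₁) + C₂ * v ^ k₂ + 2 := ⟨_, rfl⟩
    have e3 : 0 < κ₁ := by rw [hκ₁]; positivity
    have hX0 : 0 ≤ X := by rw [hX]; positivity
    have e2 : ∀ J : Fin N → Sub m n, ∫⁻ q, ((∑ j, ∑ p ∈ range P, T (J j) p q +
        (Prod.fst ⁻¹' E J).indicator (fun _ => (m + 4) * m.choose n) q : ℕ) : ℝ≥0∞)
          ∂(inputLaw f σ A b).prod (simplexLaw n) ≤ ENNReal.ofReal (N * (P * X)) +
          (m + 4) * (m.choose n * inputLaw f σ A b (E J)) := fun J => by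
      simp only [Nat.cast_add, Nat.cast_sum, main_cast]
      rw [lintegral_add_right _ (measurable_const.indicator (hEq J)),
        lintegral_indicator_const (hEq J), measurePreserving_fst.measure_preimage
          (hEm J).nullMeasurableSet,
        lintegral_finsetSum _ fun j _ => Finset.measurable_fun_sum _ fun p _ => e1 _ _]
      refine add_le_add ((sum_le_card_nsmul _ _ (ENNReal.ofReal (P * X)) fun j _ => ?_).trans_eq ?_)
        (le_of_eq (by push_cast; ring))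
      · rw [lintegral_finsetSum _ fun p _ => e1 _ _]
        refine (sum_le_card_nsmul _ _ _ fun p _ => hX ▸ hTi _ p).trans_eq ?_
        rw [card_range, nsmul_eq_mul, ENNReal.ofReal_mul (by positivity), ENNReal.ofReal_natCast]
      · rw [card_univ, Fintype.card_fin, nsmul_eq_mul, ENNReal.ofReal_mul (p := N) (by positivity),
          ENNReal.ofReal_natCast]
    refine (sum_le_sum fun J _ => e2 J).trans ?_
    rw [sum_add_distrib, sum_const, card_univ, nsmul_eq_mul, ← mul_sum]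
    have e4 : ∑ J, (m.choose n : ℝ≥0∞) * inputLaw f σ A b (E J) ≤
        5 * Fintype.card (Fin N → Sub m n) := by
      rw [hE]
      exact hexc
    refine (add_le_add le_rfl (mul_le_mul_right e4 _)).trans ?_
    rw [← mul_assoc ((m : ℝ≥0∞) + 4), mul_comm (((m : ℝ≥0∞) + 4) * 5), ← mul_add,
      show ((m : ℝ≥0∞) + 4) * 5 = ENNReal.ofReal (((m + 4) * 5 : ℕ) : ℝ) by
        rw [ENNReal.ofReal_natCast]; push_cast; rfl,
      ← ENNReal.ofReal_add (by positivity) (by positivity), hX]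
    gcongr
    refine main_arith hv1 ha1 hC₁ hC₂ ?_ (by positivity) ?_ (by positivity) ?_ (by
      push_cast
      linarith)
    · have e5 : Real.log m ≤ v := (Real.log_le_self (by positivity)).trans hmv
      have e6 : 0 ≤ Real.log m := Real.log_nonneg (by linarith)
      have e7 := (Nat.ceil_lt_add_one (a := 3 * m * n * Real.log m) (by positivity)).le
      have e8 : 3 * m * n * Real.log m ≤ 3 * v * v * v := by gcongr
      have e9 : 1 ≤ v ^ 3 := one_le_pow₀ hv1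
      rw [hN]
      nlinarith
    · have e7 := (Nat.ceil_lt_add_one (a := 8 * n * (n + 1) * U ^ 37) (by positivity)).le
      have e8 : 8 * n * (n + 1) * U ^ 37 ≤ 8 * v * v * U ^ 37 := by gcongr
      have e9 : v * v * U ^ 37 = a ^ 37 * v ^ 76 := by rw [hU]; ring
      have e5 : v ≤ a ^ 37 * v ^ 76 := (le_self_pow₀ hv1 (by norm_num)).trans
        (le_mul_of_one_le_left (by positivity) (one_le_pow₀ ha1))
      rw [hP]
      push_cast
      linarith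
    · rw [hκ₁, div_div_eq_mul_div, div_one]
      calc v * (n ^ 2 * U ^ 35) ≤ v * (v ^ 2 * U ^ 35) := by gcongr
        _ = _ := by rw [hU]; ring
  · by_cases h : r ∈ E J
    · rw [Set.indicator_of_mem (show (r, α) ∈ Prod.fst ⁻¹' E J from h)]
      exact (cnt_le _ _ _ _ _).trans (Nat.le_add_left _ _)
    · simp only [hE, Set.mem_ofPred_eq, not_or, not_forall, not_not, not_le] at h
      obtain ⟨⟨j', h1⟩, h2⟩ := h
      obtain ⟨h3, p, h4, h5⟩ := main_good (by omega) hG (by linarith) h1 (hj j') h2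
      rw [← hκ₁] at h3
      rw [← hP] at h4
      refine le_trans ?_ (Nat.le_add_right _ _)
      refine le_trans ?_ (single_le_sum (f := fun j => ∑ p ∈ range P, T (J j) p (r, α))
        (fun _ _ => Nat.zero_le _) (mem_univ j))
      refine le_trans (le_of_eq ?_) (single_le_sum (f := fun p => T (J j) p (r, α))
        (fun _ _ => Nat.zero_le _) h4)
      simp only [hT, h5]
      rw [Set.indicator_of_mem (show (r, α) ∈
        {q : (Fin m → Row n) × (Fin n → ℝ) | Sm κ₁ q.1 (J j)} from h3)]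

end Pool.Agent.Lib.MP_3b7f8d_lc.ST
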